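import Pool.Agent.H.MP_f96d9d_nt.ClausenInt
import Pool.Agent.H.MP_f96d9d_nt.TExpl
import Pool.Agent.H.MP_f96d9d_nt.FVal

/-! `8^n F(1) = T_n(4,2)^2` modulo `p^2`, `F(1) = ∑_{j ≤ n} (-1)^j u_j^3`.

`CLc`: work in `K = ℝ`, `l = 2 √2` (so `l^2 = 8`), `y = (√2 - 1)/2`, `y (1 + y) = 1/4`,
`l (1 + 2 y) = 4`. `clausen_field` at `y`, multiplied by `l^(2n) = 8^n`, gives
`(l^n P)^2 = ∑ C(n+i,2i) C(2i,i)^2 8^n / 4^i`, `P = ∑_j C(n,j) C(n+j,j) y^j`.
`l^n P = T_n(4,2)`: by `clausenint_A` `P` is the coefficient of `X^n` in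
`((X + C y)(X + C y + 1))^n = (X^2 + (1+2y) X + y(1+y))^n`; `trin_T`: the coefficient of `X^n` in
`(X^2 + C b X + C c)^n` is `∑_{j ≤ n/2} C(n,2j) C(2j,j) c^j b^(n-2j)` (expand
`((X^2 + C c) + C b X)^n` by the binomial theorem: the term with `(X^2 + C c)^m (C b X)^(n-m)`
contributes `C(n,m) b^(n-m)` times the coefficient of `X^m` in `(X^2 + c)^m`, which is
`C(2j,j) c^j` for `m = 2j` and 0 for odd `m`). With `b = 1+2y`, `c = y (1+y) = 1/4`:
`l^n b^(n-2j) c^j = (l b)^(n-2j) (l^2 c)^j = 4^(n-2j) 2^j`.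
`F1_T`: cast `CLc` to `ZMod (p^2)`; `8^(n-i) 2^i = 8^n / 4^i`; with `choose_mod`
`C(n+i,2i) (-16)^i = C(2i,i)`, and `u_i = C(2i,i)/4^i`: the term is
`8^n C(2i,i)^3 / (4^i (-16)^i) = 8^n (-1)^i u_i^3`. -/

set_option autoImplicit false

namespace MPf96

open Polynomial Finset

theorem cla_coeff {K : Type*} [Field K] (m : ℕ) (c : K) :
    ((X ^ 2 + C c) ^ m : K[X]).coeff m =
      if 2 ∣ m then c ^ (m - m / 2) * ((m.choose (m / 2) : ℕ) : K) else 0 := by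
  have e : ((X ^ 2 + C c) ^ m : K[X]) = expand K 2 ((X + C c) ^ m) := by
    rw [map_pow, map_add, expand_X, expand_C]
  rw [e, coeff_expand (by norm_num)]
  split_ifs
  · rw [coeff_X_add_C_pow]
  · rfl

theorem cla_sum {K : Type*} [Field K] (n : ℕ) (f : ℕ → K) (hf : ∀ m, ¬ 2 ∣ m → f m = 0) :
    ∑ m ∈ range (n + 1), f m = ∑ j ∈ range (n / 2 + 1), f (2 * j) := by
  classical
  have h1 : ∑ j ∈ range (n / 2 + 1), f (2 * j) =
      ∑ m ∈ (range (n / 2 + 1)).image (fun j => 2 * j), f m := by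
    rw [sum_image]
    intro a _ b _ hab
    have : 2 * a = 2 * b := hab
    omega
  rw [h1]
  symm
  refine sum_subset ?_ ?_
  · intro m hm
    rw [mem_image] at hm
    obtain ⟨j, hj, rfl⟩ := hm
    rw [mem_range] at hj ⊢
    omega
  · intro m hm hm'
    refine hf m ?_
    rintro ⟨j, rfl⟩
    apply hm'
    rw [mem_image]
    refine ⟨j, ?_, rfl⟩
    rw [mem_range] at hm ⊢
    omega

theorem trin_T {K : Type*} [Field K] (n : ℕ) (b c : K) :
    ((X ^ 2 + C b * X + C c) ^ n : K[X]).coeff n =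
      ∑ j ∈ range (n / 2 + 1),
        (n.choose (2 * j) : K) * ((2 * j).choose j : K) * c ^ j * b ^ (n - 2 * j) := by
  have h0 : ((X ^ 2 + C b * X + C c) ^ n : K[X]) = ((X ^ 2 + C c) + C b * X) ^ n := by
    congr 1
    ring
  rw [h0, add_pow, finsetSum_coeff]
  have h1 : ∀ m ∈ range (n + 1), coeff ((X ^ 2 + C c) ^ m * (C b * X) ^ (n - m) *
      (n.choose m : K[X])) n =
      (fun m => (n.choose m : K) * b ^ (n - m) *
        (if 2 ∣ m then c ^ (m - m / 2) * ((m.choose (m / 2) : ℕ) : K) else 0)) m := by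
    intro m hm
    have hm' : m ≤ n := Nat.lt_succ_iff.1 (mem_range.1 hm)
    have h2 : (X ^ 2 + C c) ^ m * (C b * X) ^ (n - m) * (n.choose m : K[X]) =
        C ((n.choose m : ℕ) * b ^ (n - m) : K) * (X ^ 2 + C c) ^ m * X ^ (n - m) := by
      rw [mul_pow, map_mul, map_pow, map_natCast]
      ring
    have h3 : (C ((n.choose m : ℕ) * b ^ (n - m) : K) * (X ^ 2 + C c) ^ m * X ^ (n - m)).coeff n =
        (C ((n.choose m : ℕ) * b ^ (n - m) : K) * (X ^ 2 + C c) ^ m).coeff m := by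
      conv_lhs => rw [show (coeff (C ((n.choose m : ℕ) * b ^ (n - m) : K) * (X ^ 2 + C c) ^ m *
        X ^ (n - m)) n) = coeff (C ((n.choose m : ℕ) * b ^ (n - m) : K) * (X ^ 2 + C c) ^ m *
        X ^ (n - m)) (m + (n - m)) from congrArg _ (Nat.add_sub_cancel' hm').symm]
      exact coeff_mul_X_pow _ _ _
    rw [h2, h3, coeff_C_mul, cla_coeff]
  rw [sum_congr rfl h1, cla_sum]
  · refine sum_congr rfl fun j _ => ?_
    have e1 : 2 * j / 2 = j := by omega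
    have e2 : 2 * j - j = j := by omega
    simp only [Nat.dvd_mul_right, if_true, e1, e2]
    ring
  · intro m hm
    simp only [if_neg hm, mul_zero]

theorem CLc (n : ℕ) :
    (Texp 4 2 n) ^ 2 =
      ∑ i ∈ range (n + 1),
        ((n + i).choose (2 * i) : ℤ) * (Nat.centralBinom i : ℤ) ^ 2 * 2 ^ i * 8 ^ (n - i) := by
  obtain ⟨w, hw⟩ : ∃ w : ℝ, w = Real.sqrt 2 := ⟨_, rfl⟩
  have hw2 : w ^ 2 = 2 := by
    rw [hw]
    exact Real.sq_sqrt (by norm_num)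
  obtain ⟨l, hl⟩ : ∃ l : ℝ, l = 2 * w := ⟨_, rfl⟩
  have hl2 : l ^ 2 = 8 := by
    rw [hl, mul_pow, hw2]
    norm_num
  obtain ⟨y, hy⟩ : ∃ y : ℝ, y = (w - 1) / 2 := ⟨_, rfl⟩
  have hly : l * (1 + 2 * y) = 4 := by
    rw [hl, hy]
    linear_combination 2 * hw2
  have hyy : y * (1 + y) = 1 / 4 := by
    rw [hy]
    linear_combination (1 / 4) * hw2
  have h1 := clausen_field (K := ℝ) n y
  rw [hyy] at h1
  have hpol : ((X + C y) * (X + C y + 1) : ℝ[X]) = X ^ 2 + C (1 + 2 * y) * X + C (1 / 4) := by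
    rw [← hyy]
    simp only [map_add, map_mul, map_one, map_ofNat]
    ring
  have h2 := trin_T n (1 + 2 * y) (1 / 4 : ℝ)
  rw [← hpol, clausenint_A] at h2
  have h3 : l ^ n * ∑ j ∈ range (n + 1), ((n.choose j * (n + j).choose j : ℕ) : ℝ) * y ^ j =
      ((Texp 4 2 n : ℤ) : ℝ) := by
    rw [h2, mul_sum]
    unfold Texp
    push_cast
    refine sum_congr rfl fun j hj => ?_
    have hj' : 2 * j ≤ n := by
      rw [mem_range] at hj
      omega
    have e4 : l ^ n = 8 ^ j * l ^ (n - 2 * j) := by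
      rw [← hl2, ← pow_mul, ← pow_add, Nat.add_sub_cancel' hj']
    have e5 : (8 : ℝ) ^ j * (1 / 4) ^ j = 2 ^ j := by
      rw [← mul_pow]
      norm_num
    have e6 : l ^ (n - 2 * j) * (1 + 2 * y) ^ (n - 2 * j) = 4 ^ (n - 2 * j) := by
      rw [← mul_pow, hly]
    rw [e4, ← e5, ← e6]
    ring
  have h4 : (8 : ℝ) ^ n * ∑ i ∈ range (n + 1),
      (((n + i).choose (2 * i) * (Nat.centralBinom i) ^ 2 : ℕ) : ℝ) * (1 / 4) ^ i =
      ∑ i ∈ range (n + 1),
        ((n + i).choose (2 * i) : ℝ) * (Nat.centralBinom i : ℝ) ^ 2 * 2 ^ i * 8 ^ (n - i) := by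
    rw [mul_sum]
    refine sum_congr rfl fun j hj => ?_
    have hj' : j ≤ n := Nat.lt_succ_iff.1 (mem_range.1 hj)
    have e4 : (8 : ℝ) ^ n = 8 ^ (n - j) * 8 ^ j := by
      rw [← pow_add, Nat.sub_add_cancel hj']
    have e5 : (8 : ℝ) ^ j * (1 / 4) ^ j = 2 ^ j := by
      rw [← mul_pow]
      norm_num
    rw [e4, ← e5]
    push_cast
    ring
  have h5 : (((Texp 4 2 n : ℤ) : ℝ)) ^ 2 =
      ∑ i ∈ range (n + 1),
        ((n + i).choose (2 * i) : ℝ) * (Nat.centralBinom i : ℝ) ^ 2 * 2 ^ i * 8 ^ (n - i) := by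
    rw [← h3, ← h4, ← h1]
    have e6 : (8 : ℝ) ^ n = (l ^ n) ^ 2 := by
      rw [← pow_mul, mul_comm n 2, pow_mul, hl2]
    rw [e6]
    ring
  exact_mod_cast h5

theorem F1_T {p n : ℕ} [hp : Fact p.Prime] (hn : p = 2 * n + 1) :
    8 ^ n * FF p n 1 = ((Texp 4 2 n : ℤ) : ZMod (p ^ 2)) ^ 2 := by
  have hp2 : p ≠ 2 := by omega
  have hh := two_half (p := p) hp2
  have key := congrArg (fun x : ℤ => (x : ZMod (p ^ 2))) (CLc n)
  simp only [Int.cast_pow, Int.cast_sum, Int.cast_mul, Int.cast_natCast, Int.cast_ofNat] at key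
  rw [key]
  unfold FF
  rw [Finset.mul_sum]
  apply Finset.sum_congr rfl
  intro j hj
  have hj' : j ≤ n := by have := Finset.mem_range.1 hj; omega
  rw [fval_A hn hj']
  obtain ⟨d, hd⟩ : ∃ d, n = d + j := ⟨n - j, by omega⟩
  have hd' : n - j = d := by omega
  rw [hd', hd, pow_add]
  unfold u
  have e : (-(half p) ^ 4) ^ j * 2 ^ j = 8 ^ j * ((half p) ^ (6 * j) * (-1) ^ j) := by
    rw [pow_mul, ← mul_pow, ← mul_pow, ← mul_pow]
    congr 1
    linear_combination 2 * (half p) ^ 4 * (2 * half p + 1) * hh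
  have e2 : ((half p) ^ (2 * j)) ^ 3 = (half p) ^ (6 * j) := by ring
  rw [mul_pow, e2]
  linear_combination -(Nat.centralBinom j : ZMod (p ^ 2)) ^ 3 * 8 ^ d * e

end MPf96
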