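import Pool.Agent.H.MP_7425ae_nt.FrobA

/-! Reduction modulo `p` of the endomorphism `π` of norm `p` of `y^2 = x^3 - 30 x + 56`: it is the
Frobenius morphism.

The same proof as `frob_modp` in `H/MP_7425ae_nt/FrobA.lean` (imported: `froba_const`,
`froba_three`, `froba_coef` can be used). Differences: `A = -30`, `B = 56`; the discriminant is
`-23328 = -(2^5 3^6)`, so that `f` is separable for `p ≥ 5`: with `D0 = 4 A^3 + 27 B^2 = -23328`,
`(-18 A X + 27 B) f + (6 A X^2 - 9 B X + 4 A^2) (3 X^2 + A) = C D0` (check the signs; this is the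
Bezout identity used in `froba_sep`). At the end: `3 c = 0` gives `c = 0`, then
`-30 d^2 = -30` and `56 d^3 = 56` give `d^2 = 1`, `d^3 = 1` and `d = 1` since `30 = 2*3*5` and
`56 = 2^3 * 7` are not zero modulo `p ≥ 11`. -/

set_option autoImplicit false

open Polynomial

namespace MPf96.CM

theorem frob8a_two (p : ℕ) [Fact p.Prime] (hp : 11 ≤ p) : (2 : ZMod p) ≠ 0 := by
  intro h
  have h2 : ((2 : ℕ) : ZMod p) = 0 := by push_cast; exact h
  rw [ZMod.natCast_eq_zero_iff] at h2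
  exact absurd (Nat.le_of_dvd (by norm_num) h2) (by omega)

theorem frob8a_three (p : ℕ) [Fact p.Prime] (hp : 11 ≤ p) : (3 : ZMod p) ≠ 0 := by
  intro h
  have h2 : ((3 : ℕ) : ZMod p) = 0 := by push_cast; exact h
  rw [ZMod.natCast_eq_zero_iff] at h2
  exact absurd (Nat.le_of_dvd (by norm_num) h2) (by omega)

theorem frob8a_five (p : ℕ) [Fact p.Prime] (hp : 11 ≤ p) : (5 : ZMod p) ≠ 0 := by
  intro h
  have h2 : ((5 : ℕ) : ZMod p) = 0 := by push_cast; exact h
  rw [ZMod.natCast_eq_zero_iff] at h2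
  exact absurd (Nat.le_of_dvd (by norm_num) h2) (by omega)

theorem frob8a_seven (p : ℕ) [Fact p.Prime] (hp : 11 ≤ p) : (7 : ZMod p) ≠ 0 := by
  intro h
  have h2 : ((7 : ℕ) : ZMod p) = 0 := by push_cast; exact h
  rw [ZMod.natCast_eq_zero_iff] at h2
  exact absurd (Nat.le_of_dvd (by norm_num) h2) (by omega)

theorem frob8a_disc (p : ℕ) [Fact p.Prime] (hp : 11 ≤ p) : (-(2 ^ 5 * 3 ^ 6) : ZMod p) ≠ 0 :=
  neg_ne_zero.mpr (mul_ne_zero (pow_ne_zero _ (frob8a_two p hp)) (pow_ne_zero _ (frob8a_three p hp)))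

theorem frob8a_sep (p : ℕ) [Fact p.Prime] (hp : 11 ≤ p) :
    Squarefree (X ^ 3 + C (-30) * X + C 56 : (ZMod p)[X]) := by
  apply Polynomial.Separable.squarefree
  have hD := frob8a_disc p hp
  have hder : derivative (X ^ 3 + C (-30) * X + C 56 : (ZMod p)[X])
      = 3 * X ^ 2 + C (-30) := by
    simp only [derivative_add, derivative_X_pow, derivative_C_mul, derivative_X, derivative_C]
    simp [map_ofNat]
  rw [Polynomial.Separable, hder]
  refine ⟨C ((-(2 ^ 5 * 3 ^ 6) : ZMod p)⁻¹) * (C (-18 * (-30)) * X + C (27 * 56)),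
    C ((-(2 ^ 5 * 3 ^ 6) : ZMod p)⁻¹) * (C (6 * (-30)) * X ^ 2 - C (9 * 56) * X
      + C (4 * (-30) ^ 2)), ?_⟩
  have h1 : (C ((-(2 ^ 5 * 3 ^ 6) : ZMod p)⁻¹) : (ZMod p)[X]) * C (-(2 ^ 5 * 3 ^ 6)) = 1 := by
    rw [← C_mul, inv_mul_cancel₀ hD, C_1]
  have h2 : ((C (-18 * (-30)) * X + C (27 * 56)) * (X ^ 3 + C (-30) * X + C 56)
      + (C (6 * (-30)) * X ^ 2 - C (9 * 56) * X + C (4 * (-30) ^ 2))
        * (3 * X ^ 2 + C (-30)) : (ZMod p)[X]) = C (-(2 ^ 5 * 3 ^ 6)) := by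
    simp only [map_mul, map_neg, map_pow, map_ofNat]
    ring
  linear_combination (C ((-(2 ^ 5 * 3 ^ 6) : ZMod p)⁻¹)) * h2 + h1

theorem frob8_modp (p : ℕ) [Fact p.Prime] (hp : 11 ≤ p)
    (N D W : (ZMod p)[X]) (hN : N.Monic) (hNd : N.natDegree = p) (hD : D.degree < N.degree)
    (hco : IsCoprime N D) (hder : derivative N * D - N * derivative D = 0)
    (hW : (X ^ 3 + C (-30) * X + C 56) * W ^ 2
      = D * (N ^ 3 + C (-30) * N * D ^ 2 + C 56 * D ^ 3)) :
    N = X ^ p ∧ D = 1 := by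
  have hpp := (Fact.out : p.Prime)
  have hN0 : N ≠ 0 := hN.ne_zero
  have hNdeg : N.degree = (p : WithBot ℕ) := by
    rw [degree_eq_natDegree hN0, hNd]
  -- N' = 0
  have hN' : derivative N = 0 := by
    have h1 : N ∣ derivative N * D := ⟨derivative D, by linear_combination hder⟩
    have h2 : N ∣ derivative N := hco.dvd_of_dvd_mul_right h1
    exact eq_zero_of_dvd_of_degree_lt h2 (degree_derivative_lt hN0)
  have hD' : derivative D = 0 := by
    rw [hN', zero_mul, zero_sub, neg_eq_zero] at hder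
    exact (mul_eq_zero.mp hder).resolve_left hN0
  -- the shapes
  obtain ⟨d, hd⟩ : ∃ d : ZMod p, D = C d :=
    ⟨_, Pool.Agent.H.MP_7425ae_nt.froba_const p D hD' (hNdeg ▸ hD)⟩
  obtain ⟨c, hc⟩ : ∃ c : ZMod p, N = X ^ p + C c := by
    have h1 : derivative (N - X ^ p) = 0 := by
      rw [derivative_sub, hN', derivative_X_pow]
      simp
    have h2 : (N - X ^ p).degree < (p : WithBot ℕ) := by
      have := degree_sub_lt_left (p := N) (q := X ^ p) (by rw [hNdeg, degree_X_pow]) hN0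
        (by rw [hN.leadingCoeff, leadingCoeff_X_pow])
      rwa [hNdeg] at this
    have h3 := Pool.Agent.H.MP_7425ae_nt.froba_const p _ h1 h2
    exact ⟨_, by rw [← h3]; ring⟩
  have hd0 : d ≠ 0 := by
    rintro rfl
    rw [hd, C_0, isCoprime_zero_right] at hco
    have := natDegree_eq_zero_of_isUnit hco
    have := hpp.pos
    omega
  have hcp : c ^ p = c := ZMod.pow_card c
  have hdp : d ^ p = d := ZMod.pow_card d
  set f : (ZMod p)[X] := X ^ 3 + C (-30) * X + C 56 with hf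
  set g : (ZMod p)[X] := (X + C c) ^ 3 + C (-30) * C d ^ 2 * (X + C c) + C 56 * C d ^ 3
    with hg
  have hXc : (X + C c : (ZMod p)[X]) ^ p = X ^ p + C c := by
    rw [add_pow_char, ← C_pow, hcp]
  have hCp : ∀ a : ZMod p, (C a : (ZMod p)[X]) ^ p = C a := fun a => by
    rw [← C_pow, ZMod.pow_card]
  have hgp : g ^ p = (X ^ p + C c) ^ 3 + C (-30) * C d ^ 2 * (X ^ p + C c)
      + C 56 * C d ^ 3 := by
    rw [hg, add_pow_char, add_pow_char, mul_pow, mul_pow, mul_pow, hCp, hCp,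
      ← pow_mul, ← pow_mul, ← pow_mul, mul_comm 3 p, mul_comm 2 p, pow_mul, pow_mul, pow_mul,
      hXc, hCp]
  have hW2 : f * W ^ 2 = C d * g ^ p := by
    rw [hW, hgp, hd, hc]; ring
  -- f divides g
  have hfg : f ∣ g := by
    have h1 : f ∣ C d * g ^ p := ⟨W ^ 2, hW2.symm⟩
    have h2 : f ∣ g ^ p := by
      have h3 : g ^ p = C d⁻¹ * (C d * g ^ p) := by
        rw [← mul_assoc, ← C_mul, inv_mul_cancel₀ hd0, C_1, one_mul]
      rw [h3]
      exact Dvd.dvd.mul_left h1 _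
    exact (frob8a_sep p hp).isRadical p g h2
  have hfm : f.Monic := by rw [hf]; monicity!
  have hfd : f.natDegree = 3 := by rw [hf]; compute_degree!
  have hgX : g = X ^ 3 + C (3 * c) * X ^ 2 + C (3 * c ^ 2 - 30 * d ^ 2) * X
      + C (c ^ 3 - 30 * d ^ 2 * c + 56 * d ^ 3) := by
    rw [hg]
    simp only [map_mul, map_add, map_sub, map_neg, map_pow, map_ofNat]
    ring
  have hgm : g.Monic := by rw [hgX]; monicity!
  have hgd : g.natDegree = 3 := by rw [hgX]; compute_degree!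
  have hgf : g = f := eq_of_monic_of_dvd_of_natDegree_le hfm hgm hfg (by rw [hfd, hgd])
  have h2p := frob8a_two p hp
  have h3p := frob8a_three p hp
  have h5p := frob8a_five p hp
  have h7p := frob8a_seven p hp
  have hfX : f = X ^ 3 + C 0 * X ^ 2 + C (-30) * X + C 56 := by
    rw [hf, C_0]; ring
  obtain ⟨hg2, hg1, hg0⟩ := Pool.Agent.H.MP_7425ae_nt.froba_coef (3 * c) (3 * c ^ 2 - 30 * d ^ 2)
    (c ^ 3 - 30 * d ^ 2 * c + 56 * d ^ 3)
  obtain ⟨hf2, hf1, hf0⟩ := Pool.Agent.H.MP_7425ae_nt.froba_coef (0 : ZMod p) (-30) 56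
  rw [← hgX, hgf, hfX] at hg2 hg1 hg0
  rw [hf2] at hg2
  rw [hf1] at hg1
  rw [hf0] at hg0
  have hc0 : c = 0 := by
    rcases mul_eq_zero.mp hg2.symm with h1 | h1
    · exact absurd h1 h3p
    · exact h1
  have hd1 : d = 1 := by
    rw [hc0] at hg1 hg0
    have h30 : (30 : ZMod p) ≠ 0 := by
      have : (30 : ZMod p) = 2 * 3 * 5 := by norm_num
      rw [this]
      exact mul_ne_zero (mul_ne_zero h2p h3p) h5p
    have h56 : (56 : ZMod p) ≠ 0 := by
      have : (56 : ZMod p) = 2 ^ 3 * 7 := by norm_num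
      rw [this]
      exact mul_ne_zero (pow_ne_zero _ h2p) h7p
    have hd2 : d ^ 2 = 1 := by
      apply mul_left_cancel₀ h30
      linear_combination hg1
    have hd3 : d ^ 3 = 1 := by
      apply mul_left_cancel₀ h56
      linear_combination -hg0
    calc d = d ^ 2 * d := by rw [hd2, one_mul]
      _ = d ^ 3 := by ring
      _ = 1 := hd3
  exact ⟨by rw [hc, hc0, C_0, add_zero], by rw [hd, hd1, C_1]⟩

end MPf96.CM
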