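import Pool.Agent.H.MP_f96d9d_nt.Q2.CM.Ht8M
import Pool.Agent.H.MP_f96d9d_nt.Q2.CM.Frob8A

/-! The lift of the Frobenius endomorphism to `Z_p`, `p = a^2 + 2 b^2`.

`exists_pi8`: `p` does not divide `a` nor `b` (otherwise `p^2` divides `p`). `b` is a unit of `Z_p`
with inverse `v`; Hensel (`hensels_lemma`, see `frobb_beta` in `H/MP_7425ae_nt/FrobB.lean`) for
`F = X^2 + 2` at `α = -a v`: `F(α) = (a^2 + 2 b^2) v^2 = p v^2` has norm `1/p < 1` and
`F'(α) = 2 α` is a unit. The root `β` satisfies `‖β - α‖ < ‖F'(α)‖ = 1`, so `p` divides `β - α` and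
`a + b β = b (β - α) + (a + b α) = b (β - α)` is divisible by `p`: `a + b β = p u`. Then
`p u (a - b β) = a^2 - b^2 β^2 = a^2 + 2 b^2 = p`, so `u (a - b β) = 1` and `u` is a unit.
`frob8`: `cm_poly8` for `O = ℤ_[p]` (2 and 3 are units: `p ≥ 11`; `ℤ_[p]` is a UFD), with `a, b`;
`a^2 + 2b^2 = p` so `N` has degree `p`. By `div_pi` (H/MP_7425ae_nt/FrobA.lean; with
`f = X^3 - 30 X + 56` monic, `π = p u`) `N' D - N D' = π W` and
`f W^2 = D (N^3 - 30 N D^2 + 56 D^3)`. Reduce modulo `p` with `PadicInt.toZMod` (`Polynomial.map`;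
`N` stays monic of degree `p`, `D` of smaller degree, coprime: `IsCoprime.map`), the derivative
relation becomes `N' D - N D' = 0`, and apply `frob8_modp`. -/

set_option autoImplicit false

open Polynomial Pool.Agent.H.MP_7425ae_nt

namespace MPf96.CM

theorem frob8b_unit_int (p : ℕ) [Fact p.Prime] (z : ℤ) (hz : ¬ (p : ℤ) ∣ z) :
    IsUnit (z : ℤ_[p]) := by
  rw [PadicInt.isUnit_iff]
  rcases lt_or_eq_of_le (PadicInt.norm_le_one (z : ℤ_[p])) with h | h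
  · exact absurd ((PadicInt.norm_int_lt_one_iff_dvd z).mp h) hz
  · exact h

theorem frob8b_ndvd (p : ℕ) [Fact p.Prime] (hp : 11 ≤ p) (a b : ℤ)
    (hab : (p : ℤ) = a ^ 2 + 2 * b ^ 2) : ¬ (p : ℤ) ∣ a ∧ ¬ (p : ℤ) ∣ b := by
  have hpr : Prime (p : ℤ) := Nat.prime_iff_prime_int.mp Fact.out
  have hp0 : (p : ℤ) ≠ 0 := hpr.ne_zero
  have hboth : ¬ ((p : ℤ) ∣ a ∧ (p : ℤ) ∣ b) := by
    rintro ⟨⟨x, rfl⟩, ⟨y, rfl⟩⟩
    have h1 : (1 : ℤ) = p * (x ^ 2 + 2 * y ^ 2) := by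
      apply mul_left_cancel₀ hp0
      linear_combination hab
    have h2 : (p : ℤ) ∣ 1 := ⟨_, h1⟩
    have h3 := Int.le_of_dvd (by norm_num) h2
    omega
  have hx : (p : ℤ) ∣ a ↔ (p : ℤ) ∣ b := by
    constructor
    · intro h
      have h1 : (p : ℤ) ∣ 2 * b ^ 2 := by
        have : 2 * b ^ 2 = (p : ℤ) - a * a := by linear_combination -hab
        rw [this]
        exact dvd_sub dvd_rfl (h.mul_right a)
      rcases hpr.dvd_or_dvd h1 with h2 | h2
      · exfalso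
        have h3 := Int.le_of_dvd (by norm_num) h2
        omega
      · exact hpr.dvd_of_dvd_pow h2
    · intro h
      have h1 : (p : ℤ) ∣ a ^ 2 := by
        have : a ^ 2 = (p : ℤ) - b * (2 * b) := by linear_combination -hab
        rw [this]
        exact dvd_sub dvd_rfl (h.mul_right _)
      exact hpr.dvd_of_dvd_pow h1
  constructor
  · intro h; exact hboth ⟨h, hx.mp h⟩
  · intro h; exact hboth ⟨hx.mpr h, h⟩

theorem exists_pi8 (p : ℕ) [Fact p.Prime] (hp : 11 ≤ p) (a b : ℤ)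
    (hab : (p : ℤ) = a ^ 2 + 2 * b ^ 2) :
    ∃ (β : ℤ_[p]) (u : ℤ_[p]), β ^ 2 = -2 ∧ (a : ℤ_[p]) + (b : ℤ_[p]) * β = (p : ℤ_[p]) * u ∧
      u * ((a : ℤ_[p]) - (b : ℤ_[p]) * β) = 1 := by
  obtain ⟨hx, hy⟩ := frob8b_ndvd p hp a b hab
  obtain ⟨v, hv⟩ := frob8b_unit_int p b hy
  have hau := frob8b_unit_int p a hx
  have hp0 : (p : ℤ_[p]) ≠ 0 := PadicInt.prime_p.ne_zero
  set w : ℤ_[p] := ((v⁻¹ : ℤ_[p]ˣ) : ℤ_[p]) with hw
  have hwb : w * (b : ℤ_[p]) = 1 := by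
    rw [← hv, hw]
    exact Units.inv_mul v
  have habc : (p : ℤ_[p]) = (a : ℤ_[p]) ^ 2 + 2 * (b : ℤ_[p]) ^ 2 := by
    exact_mod_cast congrArg (Int.cast : ℤ → ℤ_[p]) hab
  have h2u : IsUnit ((2 : ℤ) : ℤ_[p]) := frob8b_unit_int p 2 (by
    intro h
    have := Int.le_of_dvd (by norm_num) h
    omega)
  have hwu : IsUnit w := by
    rw [hw]; exact Units.isUnit _
  set α : ℤ_[p] := -((a : ℤ_[p]) * w) with hα
  have heval : α ^ 2 + 2 = (p : ℤ_[p]) * w ^ 2 := by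
    rw [hα]
    linear_combination (-w ^ 2) * habc - 2 * (w * b + 1) * hwb
  set F : ℤ_[p][X] := X ^ 2 + C 2 with hF
  have hFe : ∀ z : ℤ_[p], F.aeval z = z ^ 2 + 2 := by
    intro z
    rw [hF]
    simp
  have hFd : ∀ z : ℤ_[p], F.derivative.aeval z = 2 * z := by
    intro z
    rw [hF]
    simp
    left
    norm_num
  have hd1 : ‖F.derivative.aeval α‖ = 1 := by
    rw [hFd, ← PadicInt.isUnit_iff]
    refine IsUnit.mul ?_ ?_
    · exact_mod_cast h2u
    · rw [hα]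
      exact (hau.mul hwu).neg
  have hnorm : ‖F.aeval α‖ < ‖F.derivative.aeval α‖ ^ 2 := by
    rw [hd1, hFe, heval]
    have h2 : ‖w ^ 2‖ = 1 := by
      rw [← PadicInt.isUnit_iff]
      exact hwu.pow 2
    rw [norm_mul, h2, mul_one, PadicInt.norm_p, one_pow]
    have : (1 : ℝ) < p := by
      have : 1 < p := by omega
      exact_mod_cast this
    exact inv_lt_one_of_one_lt₀ this
  obtain ⟨β, hβ, hβα, -⟩ := hensels_lemma hnorm
  rw [hFe] at hβ
  rw [hd1] at hβα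
  have hdv : (p : ℤ_[p]) ∣ β - α := by
    have h1 : β - α ∈ IsLocalRing.maximalIdeal ℤ_[p] := by
      rw [IsLocalRing.mem_maximalIdeal, PadicInt.mem_nonunits]
      exact hβα
    rw [PadicInt.maximalIdeal_eq_span_p, Ideal.mem_span_singleton] at h1
    exact h1
  obtain ⟨t, ht⟩ := hdv
  have hbβ : (a : ℤ_[p]) + (b : ℤ_[p]) * β = (p : ℤ_[p]) * ((b : ℤ_[p]) * t) := by
    have : β = α + (p : ℤ_[p]) * t := by linear_combination ht
    rw [this, hα]
    linear_combination (-(a : ℤ_[p])) * hwb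
  refine ⟨β, (b : ℤ_[p]) * t, by linear_combination hβ, hbβ, ?_⟩
  apply mul_left_cancel₀ hp0
  rw [← mul_assoc, ← hbβ]
  linear_combination (-(b : ℤ_[p]) ^ 2) * hβ - habc

theorem frob8 (p : ℕ) [Fact p.Prime] (hp : 11 ≤ p) (a b : ℤ)
    (hab : (p : ℤ) = a ^ 2 + 2 * b ^ 2) (β u : ℤ_[p]) (hβ : β ^ 2 = -2)
    (hu : (a : ℤ_[p]) + (b : ℤ_[p]) * β = (p : ℤ_[p]) * u)
    (hu' : u * ((a : ℤ_[p]) - (b : ℤ_[p]) * β) = 1) :
    ∃ N D : ℤ_[p][X], N.Monic ∧ N.natDegree = p ∧ D.degree < N.degree ∧ IsCoprime N D ∧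
      (X ^ 3 + C (-30) * X + C 56) * (derivative N * D - N * derivative D) ^ 2
        = C (((p : ℤ_[p]) * u) ^ 2) * (D * (N ^ 3 + C (-30) * N * D ^ 2 + C 56 * D ^ 3)) ∧
      N.map PadicInt.toZMod = X ^ p ∧ D.map PadicInt.toZMod = 1 := by
  have h2u : IsUnit (2 : ℤ_[p]) := by
    have := frob8b_unit_int p 2 (by
      intro h
      have := Int.le_of_dvd (by norm_num) h
      omega)
    exact_mod_cast this
  have h3u : IsUnit (3 : ℤ_[p]) := by
    have := frob8b_unit_int p 3 (by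
      intro h
      have := Int.le_of_dvd (by norm_num) h
      omega)
    exact_mod_cast this
  have hne : ¬ (a = 0 ∧ b = 0) := by
    rintro ⟨rfl, rfl⟩
    norm_num at hab
    omega
  obtain ⟨N, D, hNm, hNd, hDlt, hco, hE⟩ := cm_poly8 h2u h3u β hβ a b hne
  have hNd' : N.natDegree = p := by
    rw [hNd, ← hab]; simp
  rw [hu] at hE
  refine ⟨N, D, hNm, hNd', hDlt, hco, hE, ?_⟩
  set f : ℤ_[p][X] := X ^ 3 + C (-30) * X + C 56 with hf
  have hfm : f.Monic := by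
    rw [hf]
    monicity!
  obtain ⟨W, hW1, hW2⟩ := div_pi p (by omega) ((p : ℤ_[p]) * u) (Units.mkOfMulEqOne _ _ hu')
    rfl f _ _ hfm hE
  set φ : ℤ_[p] →+* ZMod p := PadicInt.toZMod with hφ
  have hφp : φ (p : ℤ_[p]) = 0 := by simp
  have e1 : φ 30 = 30 := map_ofNat φ 30
  have e2 : φ 56 = 56 := map_ofNat φ 56
  have hfmap : f.map φ = X ^ 3 + C (-30) * X + C 56 := by
    rw [hf]
    simp [e1, e2]
  have hGmap : (D * (N ^ 3 + C (-30) * N * D ^ 2 + C 56 * D ^ 3)).map φ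
        = D.map φ * ((N.map φ) ^ 3 + C (-30) * (N.map φ) * (D.map φ) ^ 2
          + C 56 * (D.map φ) ^ 3) := by
    simp [e1, e2]
  exact frob8_modp p hp (N.map φ) (D.map φ) (W.map φ) (hNm.map φ)
    (by rw [hNm.natDegree_map, hNd'])
    (by
      rw [hNm.degree_map]
      exact lt_of_le_of_lt degree_map_le hDlt)
    (hco.map (mapRingHom φ))
    (by
      rw [derivative_map, derivative_map, ← Polynomial.map_mul, ← Polynomial.map_mul,
        ← Polynomial.map_sub, hW1]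
      simp)
    (by
      rw [← hfmap, ← hGmap, ← hW2]
      simp)

end MPf96.CM
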