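import Mathlib

/-! Uniqueness lemmas for power series solutions of `f U'^2 = c f(U)` and `f U'^2 = 2 c U`,
`f = X^3 + 4X^2 + 2X`.

`ode_core`: induction on `r`: if `2 ≤ r < m` and `X^r ∣ δ` then `X^(r+1) ∣ δ`. Write `δ = X^r ε`;
the coefficient of `X^r` in `f δ' S - 2 c δ Q` is `2 * (r ε_0) * (2 c) - 2 c ε_0 = 2 c ε_0 (2r - 1)`
(`f = 2 X + ...`, `δ' = r ε_0 X^(r-1) + ...`), and it is zero since `r < m`; so `ε_0 = 0`.
(`PowerSeries.X_pow_dvd_iff`; write `δ' = X^(r-1) (r ε + X ε')`, `f = X (2 + 4X + X^2)`.)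
`ode_lin`: let `U = X^r ε`, `ε_0 ≠ 0`, `r ≥ 1` (`PowerSeries.order` or
`PowerSeries.exists_eq_mul_..`; minimal index with a nonzero coefficient). Left side:
`f U'^2 = X^(2r-1) (2 + 4X + X^2) (r ε + X ε')^2`, right side `X^r c ε (2 + 4 U + U^2)`.
If `r > 1` then `2r - 1 > r`, compare coefficients of `X^r`: `0 = 2 c ε_0`, a contradiction. So
`r = 1` and the coefficients of `X` give `2 ε_0^2 = 2 c ε_0`, `ε_0 = c`.
`ode_unique`: `δ = U - V` is divisible by `X^2` (`ode_lin` for both) and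
`f δ' (U' + V') = c (f(U) - f(V)) = c δ (U^2 + U V + V^2 + 4 (U+V) + 2)`; so `ode_core` applies with
`S = U' + V'` and `Q = 1 + 2 (U+V) + (U^2+UV+V^2)/2` for all `m`, and `δ = 0`.
`ode_trunc`: the same with `Q = 1`. -/

set_option autoImplicit false

open PowerSeries

namespace MPf96.CM

variable {K : Type} [Field K] [CharZero K]

/-- `X^3 + 4X^2 + 2X` as a power series -/
noncomputable def fps (K : Type) [Field K] : K⟦X⟧ := X ^ 3 + 4 * X ^ 2 + 2 * X

omit [CharZero K] in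
theorem inv8b_const_two : constantCoeff (2 : K⟦X⟧) = 2 := by
  rw [map_ofNat]

omit [CharZero K] in
theorem inv8b_const_g : constantCoeff (X ^ 2 + 4 * X + 2 : K⟦X⟧) = 2 := by
  rw [map_add, map_add, map_mul, map_pow, inv8b_const_two]
  simp

omit [CharZero K] in
theorem inv8b_deriv (k : ℕ) (ε : K⟦X⟧) :
    d⁄dX K (X ^ (k + 1) * ε) = X ^ k * (X * d⁄dX K ε + ((k + 1 : ℕ) : K⟦X⟧) * ε) := by
  rw [Derivation.leibniz, PowerSeries.derivative_pow, PowerSeries.derivative_X, smul_eq_mul,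
    smul_eq_mul, Nat.add_sub_cancel]
  ring

omit [CharZero K] in
theorem inv8b_const_nat (k : ℕ) : constantCoeff ((k : ℕ) : K⟦X⟧) = (k : K) := by
  rw [map_natCast]

omit [CharZero K] in
theorem inv8b_const_W (k : ℕ) (ε : K⟦X⟧) :
    constantCoeff (X * d⁄dX K ε + ((k : ℕ) : K⟦X⟧) * ε) = (k : K) * constantCoeff ε := by
  rw [map_add, map_mul, map_mul, inv8b_const_nat, constantCoeff_X, zero_mul, zero_add]

omit [CharZero K] in
theorem inv8b_const_U {U : K⟦X⟧} (h : constantCoeff U = 0) :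
    constantCoeff (U ^ 2 + 4 * U + 2) = 2 := by
  rw [map_add, map_add, map_mul, map_pow, h, inv8b_const_two]
  ring

theorem ode_core {c : K} (hc : c ≠ 0) {m : ℕ} {S Q δ : K⟦X⟧} (hS : constantCoeff S = 2 * c)
    (hQ : constantCoeff Q = 1) (hδ : X ^ 2 ∣ δ)
    (h : X ^ m ∣ fps K * (d⁄dX K δ) * S - 2 * C c * δ * Q) : X ^ m ∣ δ := by
  rcases Nat.lt_or_ge m 2 with hm | hm
  · exact (pow_dvd_pow X hm.le).trans hδ
  have key : ∀ j : ℕ, j + 2 ≤ m → X ^ (j + 2) ∣ δ := by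
    intro j
    induction j with
    | zero => intro _; exact hδ
    | succ j ih =>
      intro hj
      obtain ⟨ε, hε⟩ := ih (by omega)
      have h1 : fps K * (d⁄dX K δ) * S - 2 * C c * δ * Q =
          X ^ (j + 2) * ((X ^ 2 + 4 * X + 2) * (X * d⁄dX K ε + ((j + 1 + 1 : ℕ) : K⟦X⟧) * ε) * S -
            2 * C c * ε * Q) := by
        rw [hε, show j + 2 = (j + 1) + 1 from rfl, inv8b_deriv]
        unfold fps
        ring
      have h2 : X ^ (j + 2) * X ∣ X ^ (j + 2) *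
          ((X ^ 2 + 4 * X + 2) * (X * d⁄dX K ε + ((j + 1 + 1 : ℕ) : K⟦X⟧) * ε) * S -
            2 * C c * ε * Q) := by
        rw [← h1, ← pow_succ]
        exact (pow_dvd_pow X (by omega)).trans h
      have h3 := (mul_dvd_mul_iff_left (pow_ne_zero (j + 2) (X_ne_zero (R := K)))).1 h2
      rw [X_dvd_iff] at h3
      simp only [map_sub, map_mul, inv8b_const_g, inv8b_const_two, inv8b_const_W, constantCoeff_C,
        hS, hQ] at h3
      have h4 : constantCoeff ε * (2 * c * (2 * ((j + 1 + 1 : ℕ) : K) - 1)) = 0 := by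
        linear_combination h3
      have h5 : (2 * ((j + 1 + 1 : ℕ) : K) - 1) ≠ 0 := by
        have e : (2 * ((j + 1 + 1 : ℕ) : K) - 1) = ((2 * j + 3 : ℕ) : K) := by
          push_cast
          ring
        rw [e]
        exact Nat.cast_ne_zero.2 (by omega)
      have h6 : constantCoeff ε = 0 := by
        rcases mul_eq_zero.1 h4 with h7 | h7
        · exact h7
        · exact absurd h7 (mul_ne_zero (mul_ne_zero two_ne_zero hc) h5)
      obtain ⟨ε', hε'⟩ := X_dvd_iff.2 h6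
      refine ⟨ε', ?_⟩
      rw [hε, hε']
      ring
  have := key (m - 2) (by omega)
  rwa [Nat.sub_add_cancel hm] at this

theorem ode_lin {c : K} (hc : c ≠ 0) {U : K⟦X⟧} (h0 : constantCoeff U = 0) (hU : U ≠ 0)
    (h : fps K * (d⁄dX K U) ^ 2 = C c * (U ^ 3 + 4 * U ^ 2 + 2 * U)) : coeff 1 U = c := by
  classical
  have hex : ∃ n, coeff n U ≠ 0 := by
    by_contra hcon
    push Not at hcon
    exact hU (PowerSeries.ext fun n => by rw [hcon n, map_zero])
  obtain ⟨r, hr, hmin⟩ : ∃ r, coeff r U ≠ 0 ∧ ∀ i, i < r → coeff i U = 0 :=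
    ⟨Nat.find hex, Nat.find_spec hex, fun i hi => not_not.1 (Nat.find_min hex hi)⟩
  obtain ⟨k, rfl⟩ : ∃ k, r = k + 1 := by
    cases r with
    | zero =>
      exfalso
      apply hr
      rw [coeff_zero_eq_constantCoeff_apply, h0]
    | succ k => exact ⟨k, rfl⟩
  obtain ⟨ε, hε⟩ := X_pow_dvd_iff.2 hmin
  have hr' : constantCoeff ε ≠ 0 := by
    have e := coeff_X_pow_mul ε (k + 1) 0
    rw [Nat.zero_add, ← hε, coeff_zero_eq_constantCoeff_apply] at e
    rw [← e]
    exact hr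
  have h1 : X ^ (k + 1) * (X ^ k * (X ^ 2 + 4 * X + 2) *
      (X * d⁄dX K ε + ((k + 1 : ℕ) : K⟦X⟧) * ε) ^ 2) =
      X ^ (k + 1) * (C c * ε * (U ^ 2 + 4 * U + 2)) := by
    have e1 : C c * (U ^ 3 + 4 * U ^ 2 + 2 * U) = U * (C c * (U ^ 2 + 4 * U + 2)) := by ring
    have e2 : fps K * (d⁄dX K U) ^ 2 = X ^ (k + 1) * (X ^ k * (X ^ 2 + 4 * X + 2) *
      (X * d⁄dX K ε + ((k + 1 : ℕ) : K⟦X⟧) * ε) ^ 2) := by
      rw [hε, inv8b_deriv]
      unfold fps
      ring
    rw [← e2, h, e1]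
    conv_lhs => rw [hε]
    rw [mul_assoc, ← hε]
    ring
  have h2 := mul_left_cancel₀ (pow_ne_zero (k + 1) (X_ne_zero (R := K))) h1
  have h3 := congrArg constantCoeff h2
  simp only [map_mul, map_pow, inv8b_const_g, inv8b_const_W, inv8b_const_U h0, constantCoeff_X,
    constantCoeff_C] at h3
  cases k with
  | zero =>
    have h4 : constantCoeff ε * (constantCoeff ε - c) = 0 := by
      have h5 : (2 : K) * (constantCoeff ε * (constantCoeff ε - c)) = 0 := by
        push_cast at h3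
        linear_combination h3
      rcases mul_eq_zero.1 h5 with h6 | h6
      · exact absurd h6 two_ne_zero
      · exact h6
    rcases mul_eq_zero.1 h4 with h6 | h6
    · exact absurd h6 hr'
    · have e := coeff_X_pow_mul ε (0 + 1) 0
      rw [Nat.zero_add, ← hε, coeff_zero_eq_constantCoeff_apply] at e
      rw [e]
      linear_combination h6
  | succ k =>
    exfalso
    have h4 : (2 : K) * (c * constantCoeff ε) = 0 := by
      rw [zero_pow (Nat.succ_ne_zero k)] at h3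
      linear_combination -h3
    rcases mul_eq_zero.1 h4 with h6 | h6
    · exact two_ne_zero h6
    · exact mul_ne_zero hc hr' h6

omit [CharZero K] in
theorem inv8b_sq {U V : K⟦X⟧} (hU0 : constantCoeff U = 0) (hV0 : constantCoeff V = 0)
    (h1 : coeff 1 U = coeff 1 V) : X ^ 2 ∣ U - V := by
  rw [X_pow_dvd_iff]
  intro i hi
  interval_cases i
  · rw [coeff_zero_eq_constantCoeff_apply, map_sub, hU0, hV0, sub_zero]
  · rw [map_sub, h1, sub_self]

omit [CharZero K] in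
theorem inv8b_const_deriv {U : K⟦X⟧} : constantCoeff (d⁄dX K U) = coeff 1 U := by
  rw [← coeff_zero_eq_constantCoeff_apply, PowerSeries.coeff_derivative]
  simp

theorem ode_unique {c : K} (hc : c ≠ 0) {U V : K⟦X⟧} (hU0 : constantCoeff U = 0)
    (hV0 : constantCoeff V = 0) (hU : U ≠ 0) (hV : V ≠ 0)
    (h1 : fps K * (d⁄dX K U) ^ 2 = C c * (U ^ 3 + 4 * U ^ 2 + 2 * U))
    (h2 : fps K * (d⁄dX K V) ^ 2 = C c * (V ^ 3 + 4 * V ^ 2 + 2 * V)) : U = V := by
  have hU1 := ode_lin hc hU0 hU h1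
  have hV1 := ode_lin hc hV0 hV h2
  have hsq : X ^ 2 ∣ U - V := inv8b_sq hU0 hV0 (hU1.trans hV1.symm)
  have hS : constantCoeff (d⁄dX K U + d⁄dX K V) = 2 * c := by
    rw [map_add, inv8b_const_deriv, inv8b_const_deriv, hU1, hV1]
    ring
  have hQ : constantCoeff (1 + 2 * (U + V) + C (1 / 2 : K) * (U ^ 2 + U * V + V ^ 2)) = 1 := by
    rw [map_add, map_add, map_mul, map_mul, map_add, map_add, map_add, map_pow, map_pow, map_mul,
      hU0, hV0, map_one]
    simp
  have hhalf : (2 : K⟦X⟧) * C (1 / 2 : K) = 1 := by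
    have e : (2 : K⟦X⟧) = C (2 : K) := by rw [map_ofNat]
    rw [e, ← map_mul]
    norm_num
  have hE : fps K * (d⁄dX K (U - V)) * (d⁄dX K U + d⁄dX K V) -
      2 * C c * (U - V) * (1 + 2 * (U + V) + C (1 / 2 : K) * (U ^ 2 + U * V + V ^ 2)) = 0 := by
    rw [map_sub]
    linear_combination h1 - h2 - C c * (U - V) * (U ^ 2 + U * V + V ^ 2) * hhalf
  have hall : ∀ m, X ^ m ∣ U - V := fun m =>
    ode_core hc hS hQ hsq (by rw [hE]; exact dvd_zero _)
  rw [← sub_eq_zero]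
  refine PowerSeries.ext fun n => ?_
  rw [map_zero]
  exact X_pow_dvd_iff.1 (hall (n + 1)) n (Nat.lt_succ_self n)

theorem ode_trunc {c : K} (hc : c ≠ 0) {m : ℕ} {U V : K⟦X⟧} (hU0 : constantCoeff U = 0)
    (hV0 : constantCoeff V = 0) (hU1 : coeff 1 U = c) (hV1 : coeff 1 V = c)
    (h1 : X ^ m ∣ fps K * (d⁄dX K U) ^ 2 - 2 * C c * U)
    (h2 : X ^ m ∣ fps K * (d⁄dX K V) ^ 2 - 2 * C c * V) : X ^ m ∣ U - V := by
  have hsq : X ^ 2 ∣ U - V := inv8b_sq hU0 hV0 (hU1.trans hV1.symm)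
  have hS : constantCoeff (d⁄dX K U + d⁄dX K V) = 2 * c := by
    rw [map_add, inv8b_const_deriv, inv8b_const_deriv, hU1, hV1]
    ring
  refine ode_core (Q := 1) hc hS (map_one _) hsq ?_
  have e : fps K * (d⁄dX K (U - V)) * (d⁄dX K U + d⁄dX K V) - 2 * C c * (U - V) * 1 =
      (fps K * (d⁄dX K U) ^ 2 - 2 * C c * U) - (fps K * (d⁄dX K V) ^ 2 - 2 * C c * V) := by
    rw [map_sub]
    ring
  rw [e]
  exact dvd_sub h1 h2

end MPf96.CM
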