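import Pool.Agent.H.MP_f96d9d_nt.Q2.CM.Inv8A
import Pool.Agent.H.MP_f96d9d_nt.Q2.CM.Inv8B

/-! The symmetry `X^p D(2/X) = δ N` of the endomorphism.

`inv8_field`, over a field `K` of characteristic zero. In `K⟦X⟧` put `U = N / D` (`D` is a unit
since `D_0 ≠ 0`: `PowerSeries.inv`, `PowerSeries.mul_inv_cancel`) and `V = 2 D^ / N^` with
`D^ = rf p D`, `N^ = rf p N` (`N^` has constant coefficient `2^p N_p = 2^p ≠ 0`, `D^` has constant
coefficient `2^p D_p = 0` since `deg D < p`). If a pair `(n, d)` of power series, `d` a unit,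
satisfies `f (n' d - n d')^2 = c d n (n^2 + 4 n d + 2 d^2)` then `U = n/d` satisfies
`f U'^2 = c (U^3 + 4 U^2 + 2 U)`: `n = U d`, `n' d - n d' = U' d^2`, so
`d^4 (f U'^2 - c (U^3 + 4U^2 + 2U)) = 0`. (The derivative of a polynomial, coerced:
`PowerSeries.derivative_coe` or `Polynomial.coe_derivative`; find the name.) So both `U` and `V` solve
the equation of `ode_unique` with `c = π2`; constant coefficients: `N_0 = 0` and `D^_0 = 0`; not zero:
`N ≠ 0`, and `D^ ≠ 0` since its coefficient of `X^p` is `D_0 ≠ 0`. Therefore `U = V`, that is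
`N N^ = 2 D D^` (as power series, hence as polynomials: `Polynomial.coe_injective`).
`N` is coprime to `D`, so `N ∣ 2 D^`, `N ∣ D^` (char 0); `deg D^ ≤ p = deg N` and `N` is monic, so
`D^ = C s * N` and comparing the coefficients of `X^p` gives `s = D_0`. The coefficient of
`X^(p-i)` gives `D_i 2^i = D_0 N_(p-i)`. Then `N N^ = 2 D D_0 N`, so `N^ = 2 D_0 D` and the constant
coefficients give `2^p = 2 D_0^2`.

`inv8`: `N_0 = 0`: the equation at `0` is `0 = π^2 D_0 N_0 (N_0^2 + 4 N_0 D_0 + 2 D_0^2)`; modulo `p`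
the last factor is `2` (`N_0 ≡ 0`, `D_0 ≡ 1`; here `p ≥ 11` so that `(X^p).coeff 0 = 0`) and
`D_0 ≡ 1`, so both are nonzero and `N_0 = 0`. Then map everything to `ℚ_[p]` and use
`inv8_field` (the map `ℤ_[p] → ℚ_[p]` is injective; coprimality by `IsCoprime.map`). -/

set_option autoImplicit false

open Polynomial Finset

namespace MPf96.CM


theorem inv8c_quot {K : Type} [Field K] [CharZero K] {c : K} {n d : PowerSeries K}
    (hd : PowerSeries.constantCoeff d ≠ 0)
    (h : fps K * (PowerSeries.derivative K n * d - n * PowerSeries.derivative K d) ^ 2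
      = PowerSeries.C c * (d * n * (n ^ 2 + 4 * n * d + 2 * d ^ 2))) :
    fps K * (PowerSeries.derivative K (n * d⁻¹)) ^ 2
      = PowerSeries.C c * ((n * d⁻¹) ^ 3 + 4 * (n * d⁻¹) ^ 2 + 2 * (n * d⁻¹)) := by
  have hdi : d * d⁻¹ = 1 := PowerSeries.mul_inv_cancel d hd
  have hd0 : d ≠ 0 := by
    rintro rfl
    exact hd (map_zero _)
  obtain ⟨U, hU⟩ : ∃ U, U = n * d⁻¹ := ⟨_, rfl⟩
  have hn : n = U * d := by
    rw [hU, mul_assoc, mul_comm d⁻¹ d, hdi, mul_one]
  rw [← hU]
  have hn' : PowerSeries.derivative K n = U * PowerSeries.derivative K d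
      + d * PowerSeries.derivative K U := by
    rw [hn, Derivation.leibniz, smul_eq_mul, smul_eq_mul]
  rw [hn'] at h
  rw [hn] at h
  have h2 : d ^ 4 * (fps K * (PowerSeries.derivative K U) ^ 2
      - PowerSeries.C c * (U ^ 3 + 4 * U ^ 2 + 2 * U)) = 0 := by
    linear_combination h
  rcases mul_eq_zero.1 h2 with h3 | h3
  · exact absurd h3 (pow_ne_zero 4 hd0)
  · exact sub_eq_zero.1 h3

theorem inv8c_coe {K : Type} [Field K] {π2 : K} {N D : K[X]}
    (h : (X ^ 3 + 4 * X ^ 2 + 2 * X) * (derivative N * D - N * derivative D) ^ 2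
        = C π2 * (D * N * (N ^ 2 + 4 * N * D + 2 * D ^ 2))) :
    fps K * (PowerSeries.derivative K (N : PowerSeries K) * (D : PowerSeries K)
      - (N : PowerSeries K) * PowerSeries.derivative K (D : PowerSeries K)) ^ 2
      = PowerSeries.C π2 * ((D : PowerSeries K) * N * ((N : PowerSeries K) ^ 2
        + 4 * (N : PowerSeries K) * D + 2 * (D : PowerSeries K) ^ 2)) := by
  have e := congrArg (Polynomial.coeToPowerSeries.ringHom) h
  simp only [map_mul, map_sub, map_pow, map_add, map_ofNat,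
    Polynomial.coeToPowerSeries.ringHom_apply, Polynomial.coe_C, Polynomial.coe_X] at e
  rw [PowerSeries.derivative_coe, PowerSeries.derivative_coe]
  unfold fps
  exact e

theorem inv8_field {K : Type} [Field K] [CharZero K] (p : ℕ) (hp : 2 ≤ p) (π2 : K) (hπ : π2 ≠ 0)
    (N D : K[X]) (hN : N.Monic) (hNd : N.natDegree = p) (hD : D.degree < N.degree)
    (hco : IsCoprime N D) (hN0 : N.coeff 0 = 0) (hD0 : D.coeff 0 ≠ 0)
    (h : (X ^ 3 + 4 * X ^ 2 + 2 * X) * (derivative N * D - N * derivative D) ^ 2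
        = C π2 * (D * N * (N ^ 2 + 4 * N * D + 2 * D ^ 2))) :
    (∀ i ≤ p, D.coeff i * 2 ^ i = D.coeff 0 * N.coeff (p - i)) ∧
      (D.coeff 0) ^ 2 * 2 = 2 ^ p := by
  have hNne : N ≠ 0 := hN.ne_zero
  have hDp : D.coeff p = 0 := by
    apply coeff_eq_zero_of_degree_lt
    rw [degree_eq_natDegree hNne, hNd] at hD
    exact hD
  have hNp : N.coeff p = 1 := by
    have := hN.coeff_natDegree
    rwa [hNd] at this
  have hDnd : D.natDegree ≤ p := by
    rw [degree_eq_natDegree hNne, hNd] at hD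
    exact natDegree_le_of_degree_le hD.le
  have hN'0 : (rf p N).coeff 0 = 2 ^ p := by
    rw [coeff_rf p N (Nat.zero_le p), Nat.sub_zero, hNp, one_mul]
  have hD'0 : (rf p D).coeff 0 = 0 := by
    rw [coeff_rf p D (Nat.zero_le p), Nat.sub_zero, hDp, zero_mul]
  have hD'p : (rf p D).coeff p = D.coeff 0 := by
    rw [coeff_rf p D le_rfl, Nat.sub_self, pow_zero, mul_one]
  have hD'ne : rf p D ≠ 0 := by
    intro e
    rw [e, coeff_zero] at hD'p
    exact hD0 hD'p.symm
  have h2 := rf_ode p π2 N D hNd.le hDnd h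
  have e1 := inv8c_coe h
  have e2 := inv8c_coe (N := 2 * rf p D) (D := rf p N) (π2 := π2) (by rw [h2])
  have hcD : PowerSeries.constantCoeff (D : PowerSeries K) ≠ 0 := by
    rw [Polynomial.constantCoeff_coe]
    exact hD0
  have hcN' : PowerSeries.constantCoeff (rf p N : PowerSeries K) ≠ 0 := by
    rw [Polynomial.constantCoeff_coe, hN'0]
    exact pow_ne_zero p two_ne_zero
  have u1 := inv8c_quot hcD e1
  have u2 := inv8c_quot hcN' e2
  have hiD : (D : PowerSeries K) * (D : PowerSeries K)⁻¹ = 1 := PowerSeries.mul_inv_cancel _ hcD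
  have hiN' : (rf p N : PowerSeries K) * (rf p N : PowerSeries K)⁻¹ = 1 :=
    PowerSeries.mul_inv_cancel _ hcN'
  have hU0 : PowerSeries.constantCoeff ((N : PowerSeries K) * (D : PowerSeries K)⁻¹) = 0 := by
    rw [map_mul, Polynomial.constantCoeff_coe, hN0, zero_mul]
  have hV0 : PowerSeries.constantCoeff
      (((2 * rf p D : K[X]) : PowerSeries K) * (rf p N : PowerSeries K)⁻¹) = 0 := by
    rw [map_mul, Polynomial.constantCoeff_coe, mul_coeff_zero, hD'0, mul_zero, zero_mul]
  have hUne : (N : PowerSeries K) * (D : PowerSeries K)⁻¹ ≠ 0 := by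
    intro e
    have e' : (N : PowerSeries K) = 0 := by
      have : (N : PowerSeries K) * (D : PowerSeries K)⁻¹ * D = N := by
        rw [mul_assoc, mul_comm _ (D : PowerSeries K), hiD, mul_one]
      rw [← this, e, zero_mul]
    exact hNne (Polynomial.coe_eq_zero_iff.1 e')
  have hVne : ((2 * rf p D : K[X]) : PowerSeries K) * (rf p N : PowerSeries K)⁻¹ ≠ 0 := by
    intro e
    have e' : ((2 * rf p D : K[X]) : PowerSeries K) = 0 := by
      have : ((2 * rf p D : K[X]) : PowerSeries K) * (rf p N : PowerSeries K)⁻¹ * (rf p N)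
          = ((2 * rf p D : K[X]) : PowerSeries K) := by
        rw [mul_assoc, mul_comm _ (rf p N : PowerSeries K), hiN', mul_one]
      rw [← this, e, zero_mul]
    exact (mul_ne_zero (two_ne_zero) hD'ne) (Polynomial.coe_eq_zero_iff.1 e')
  have hUV := ode_unique hπ hU0 hV0 hUne hVne u1 u2
  -- cross multiplication
  have hx : N * rf p N = 2 * rf p D * D := by
    apply Polynomial.coe_injective K
    rw [Polynomial.coe_mul, Polynomial.coe_mul (2 * rf p D) D]
    have e3 : (N : PowerSeries K) = ((N : PowerSeries K) * (D : PowerSeries K)⁻¹) * D := by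
      rw [mul_assoc, mul_comm _ (D : PowerSeries K), hiD, mul_one]
    have e4 : ((2 * rf p D : K[X]) : PowerSeries K) =
        (((2 * rf p D : K[X]) : PowerSeries K) * (rf p N : PowerSeries K)⁻¹) * (rf p N) := by
      rw [mul_assoc, mul_comm _ (rf p N : PowerSeries K), hiN', mul_one]
    rw [e4, ← hUV]
    conv_lhs => rw [e3]
    ring
  have hdvd : N ∣ rf p D := by
    have h3 : N ∣ (2 * rf p D) * D := ⟨rf p N, hx.symm⟩
    have h4 : N ∣ 2 * rf p D := hco.dvd_of_dvd_mul_right h3
    have h5 : IsUnit (2 : K[X]) := by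
      have : (2 : K[X]) = C 2 := by rw [map_ofNat]
      rw [this]
      exact isUnit_C.2 (isUnit_iff_ne_zero.2 two_ne_zero)
    exact (h5.dvd_mul_left).1 h4
  obtain ⟨S, hS⟩ := hdvd
  have hSd : S.natDegree = 0 := by
    have hSne : S ≠ 0 := by
      rintro rfl
      rw [mul_zero] at hS
      exact hD'ne hS
    have h6 := natDegree_mul hNne hSne
    have h7 := natDegree_rf p D
    rw [hS, h6, hNd] at h7
    omega
  obtain ⟨s, hs⟩ : ∃ s, S = C s := ⟨_, eq_C_of_natDegree_eq_zero hSd⟩
  have hs0 : s = D.coeff 0 := by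
    rw [← hD'p, hS, hs, mul_comm, coeff_C_mul, hNp, mul_one]
  have hrD : rf p D = C (D.coeff 0) * N := by
    rw [hS, hs, hs0, mul_comm]
  constructor
  · intro i hi
    have h8 := congrArg (fun P => P.coeff (p - i)) hrD
    simp only [coeff_C_mul] at h8
    rw [coeff_rf p D (Nat.sub_le p i), Nat.sub_sub_self hi] at h8
    exact h8
  · have h9 : rf p N = 2 * C (D.coeff 0) * D := by
      apply mul_left_cancel₀ hNne
      rw [hx, hrD]
      ring
    have h10 : (rf p N).coeff 0 = (2 * C (D.coeff 0) * D).coeff 0 := by rw [h9]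
    have h11 : (2 : K[X]) = C 2 := by rw [map_ofNat]
    rw [hN'0, h11, ← C_mul, coeff_C_mul] at h10
    rw [h10]
    ring

theorem inv8 (p : ℕ) [Fact p.Prime] (hp : 11 ≤ p) (π : ℤ_[p]) (hπ : π ≠ 0) (N D : ℤ_[p][X])
    (hN : N.Monic) (hNd : N.natDegree = p) (hD : D.degree < N.degree) (hco : IsCoprime N D)
    (h : (X ^ 3 + 4 * X ^ 2 + 2 * X) * (derivative N * D - N * derivative D) ^ 2
        = C (π ^ 2) * (D * N * (N ^ 2 + 4 * N * D + 2 * D ^ 2)))
    (hNp : N.map PadicInt.toZMod = X ^ p) (hDp : D.map PadicInt.toZMod = 1) :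
    N.coeff 0 = 0 ∧ (∀ i ≤ p, D.coeff i * 2 ^ i = D.coeff 0 * N.coeff (p - i)) ∧
      (D.coeff 0) ^ 2 = 2 ^ (p - 1) := by
  have hN00 : PadicInt.toZMod (N.coeff 0) = (0 : ZMod p) := by
    rw [← coeff_map, hNp, coeff_X_pow, if_neg (by omega)]
  have hD00 : PadicInt.toZMod (D.coeff 0) = (1 : ZMod p) := by
    rw [← coeff_map, hDp, coeff_one_zero]
  have hDne : D.coeff 0 ≠ 0 := by
    intro e
    rw [e, map_zero] at hD00
    exact zero_ne_one hD00
  have h2ne : (2 : ZMod p) ≠ 0 := by
    intro e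
    have e' : ((2 : ℕ) : ZMod p) = 0 := by exact_mod_cast e
    rw [ZMod.natCast_eq_zero_iff] at e'
    have := Nat.le_of_dvd (by norm_num) e'
    omega
  have hfac : (N.coeff 0) ^ 2 + 4 * N.coeff 0 * D.coeff 0 + 2 * (D.coeff 0) ^ 2 ≠ 0 := by
    intro e
    have e' := congrArg (PadicInt.toZMod (p := p)) e
    simp only [map_add, map_mul, map_pow, map_ofNat, map_zero, hN00, hD00] at e'
    apply h2ne
    linear_combination e'
  have hN0 : N.coeff 0 = 0 := by
    have h0 := congrArg (eval 0) h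
    simp only [eval_mul, eval_add, eval_pow, eval_X, eval_ofNat, eval_sub, eval_C] at h0
    simp only [← coeff_zero_eq_eval_zero] at h0
    have h1 : π ^ 2 * (D.coeff 0 * N.coeff 0 *
        ((N.coeff 0) ^ 2 + 4 * N.coeff 0 * D.coeff 0 + 2 * (D.coeff 0) ^ 2)) = 0 := by
      linear_combination -h0
    rcases mul_eq_zero.1 h1 with h2 | h2
    · exact absurd h2 (pow_ne_zero 2 hπ)
    rcases mul_eq_zero.1 h2 with h3 | h3
    · rcases mul_eq_zero.1 h3 with h4 | h4
      · exact absurd h4 hDne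
      · exact h4
    · exact absurd h3 hfac
  have hinj : Function.Injective (algebraMap ℤ_[p] ℚ_[p]) := IsFractionRing.injective _ _
  have key := inv8_field (K := ℚ_[p]) p (by omega) (algebraMap ℤ_[p] ℚ_[p] (π ^ 2))
    (by
      intro e
      rw [← map_zero (algebraMap ℤ_[p] ℚ_[p])] at e
      exact pow_ne_zero 2 hπ (hinj e))
    (N.map (algebraMap ℤ_[p] ℚ_[p])) (D.map (algebraMap ℤ_[p] ℚ_[p])) (hN.map _)
    (by rw [hN.natDegree_map, hNd])
    (by rw [degree_map_eq_of_injective hinj, degree_map_eq_of_injective hinj]; exact hD)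
    (by
      have := hco.map (mapRingHom (algebraMap ℤ_[p] ℚ_[p]))
      simpa only [coe_mapRingHom] using this)
    (by rw [coeff_map, hN0, map_zero])
    (by
      rw [coeff_map]
      intro e
      rw [← map_zero (algebraMap ℤ_[p] ℚ_[p])] at e
      exact hDne (hinj e))
    (by
      have e := congrArg (mapRingHom (algebraMap ℤ_[p] ℚ_[p])) h
      simp only [map_mul, map_sub, map_pow, map_add, map_ofNat, coe_mapRingHom, map_X, map_C] at e
      simp only [derivative_map]
      simp only [map_pow] at e ⊢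
      exact e)
  obtain ⟨k1, k2⟩ := key
  refine ⟨hN0, fun i hi => ?_, ?_⟩
  · have := k1 i hi
    simp only [coeff_map] at this
    apply hinj
    rw [map_mul, map_mul, map_pow, map_ofNat]
    exact this
  · have h12 : (D.coeff 0) ^ 2 * 2 = 2 ^ p := by
      apply hinj
      simp only [coeff_map] at k2
      rw [map_mul, map_pow, map_pow, map_ofNat]
      exact k2
    have h13 : (2 : ℤ_[p]) ^ p = 2 ^ (p - 1) * 2 := by
      rw [← pow_succ, Nat.sub_add_cancel (by omega)]
    rw [h13] at h12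
    exact mul_right_cancel₀ two_ne_zero h12

end MPf96.CM
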