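import Pool.Agent.H.MP_f96d9d_nt.Q2.CM.Log8A

/-! Integrality of the coefficients of `TT ℚ_[p] p`.

`p = 2n + 1 ≥ 11`. `Gi` = coefficient of `X^i` in `GG`, `i < p`: `e_i / (2i+1)`. `e_i` is in `ℤ_[p]`
(`(-1/4)^i` is, since 4 is a unit). For `i < p`, `i ≠ n`: `2i+1 < 2p` is not `p` and not `0`, so it
is prime to `p` (it is odd, a multiple of `p` below `2p` would be `p`) and `Gi ∈ ℤ_[p]`. For `i = n`:
`p G_n = e_n`. `T_m = ∑_{i+j=m-1} Gi Gj` (`Polynomial.coeff_mul`, antidiagonal).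
`int_T2`: `T_2 = 2 G_0 G_1 = -2/3`. `int_pT`: for `m < p` no term has `i = j = n`
(`i + j = m - 1 < 2n`), so `p Gi Gj ∈ ℤ_[p]`. `int_p2T`: for `m = p`, `i + j = 2n`: the term `i=j=n`
is `e_n^2/p^2`; in every other term `i, j < p` both differ from `n` (`i ≠ n` iff `j ≠ n`), so they
are in `ℤ_[p]`. -/

set_option autoImplicit false

open Polynomial Finset

namespace MPf96.CM

/-- `e_n` as a `p`-adic integer is `ekInt q n`, `4 q = 1`. -/
noncomputable def ekInt {p : ℕ} [Fact p.Prime] (q : ℤ_[p]) (k : ℕ) : ℤ_[p] :=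
  ((MPf96.Texp 4 2 k : ℤ) : ℤ_[p]) * (-q) ^ k

theorem ek_int {p : ℕ} [Fact p.Prime] {q : ℤ_[p]} (hq : 4 * q = 1) (k : ℕ) :
    ek ℚ_[p] k = ((ekInt q k : ℤ_[p]) : ℚ_[p]) := by
  have h1 : (4 : ℚ_[p]) * (q : ℚ_[p]) = 1 := by
    have h2 : ((4 * q : ℤ_[p]) : ℚ_[p]) = ((1 : ℤ_[p]) : ℚ_[p]) := by rw [hq]
    rw [PadicInt.coe_mul, PadicInt.coe_one] at h2
    have h5 : ((4 : ℤ_[p]) : ℚ_[p]) = 4 := by
      exact_mod_cast PadicInt.coe_natCast 4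
    rwa [h5] at h2
  have h3 : (-1 / 4 : ℚ_[p]) = -(q : ℚ_[p]) := by
    have h4 : (4 : ℚ_[p]) ≠ 0 := by norm_num
    rw [div_eq_iff h4]
    linear_combination h1
  unfold ek ekInt
  rw [h3]
  push_cast
  rfl

theorem log8c_coeff {p : ℕ} [Fact p.Prime] {i : ℕ} (hi : i < p) :
    (GG ℚ_[p] p).coeff i = ek ℚ_[p] i / (2 * (i : ℚ_[p]) + 1) := by
  unfold GG
  rw [finsetSum_coeff]
  simp only [coeff_C_mul_X_pow]
  rw [Finset.sum_ite_eq]
  rw [if_pos (mem_range.2 hi)]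

theorem log8c_odd {p : ℕ} [hpr : Fact p.Prime] (hp : 11 ≤ p) : ¬ 2 ∣ p := by
  intro h
  have h1 := (Nat.prime_dvd_prime_iff_eq Nat.prime_two hpr.out).1 h
  omega

theorem log8c_four {p : ℕ} [hpr : Fact p.Prime] (hp : 11 ≤ p) : ∃ q : ℤ_[p], 4 * q = 1 := by
  have h1 : ‖((4 : ℕ) : ℚ_[p])‖ = 1 := by
    rw [Padic.norm_natCast_eq_one_iff]
    have h2 : Nat.Coprime p 2 := by
      rw [Nat.coprime_comm]
      exact (Nat.Prime.coprime_iff_not_dvd Nat.prime_two).2 (log8c_odd hp)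
    have h3 : Nat.Coprime p (2 ^ 2) := Nat.Coprime.pow_right 2 h2
    exact h3
  have h5 : ‖(((4 : ℕ) : ℚ_[p]))⁻¹‖ ≤ 1 := by
    rw [norm_inv, h1, inv_one]
  refine ⟨⟨(((4 : ℕ) : ℚ_[p]))⁻¹, h5⟩, ?_⟩
  apply PadicInt.ext
  push_cast
  have h6 : (4 : ℚ_[p]) ≠ 0 := by norm_num
  exact mul_inv_cancel₀ h6

theorem log8c_ek {p : ℕ} [Fact p.Prime] (hp : 11 ≤ p) (i : ℕ) :
    ek ℚ_[p] i ∈ PadicInt.subring p := by
  obtain ⟨q, hq⟩ := log8c_four hp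
  rw [ek_int hq i, PadicInt.mem_subring_iff]
  exact (ekInt q i).2

theorem log8c_int {p : ℕ} [hpr : Fact p.Prime] (hp : 11 ≤ p) {i : ℕ} (hi : i < p) (hne : 2 * i + 1 ≠ p) :
    (GG ℚ_[p] p).coeff i ∈ PadicInt.subring p := by
  rw [log8c_coeff hi]
  have h1 : ‖((2 * i + 1 : ℕ) : ℚ_[p])‖ = 1 := by
    rw [Padic.norm_natCast_eq_one_iff]
    rw [Nat.Prime.coprime_iff_not_dvd hpr.out]
    rintro ⟨c, hc⟩
    have hodd : ¬ 2 ∣ p := log8c_odd hp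
    have hc2 : c < 2 := by
      by_contra hcon
      have h3 : p * 2 ≤ p * c := Nat.mul_le_mul_left p (by omega)
      omega
    interval_cases c
    · omega
    · omega
  have h2 : ek ℚ_[p] i / (2 * (i : ℚ_[p]) + 1) = ek ℚ_[p] i * (((2 * i + 1 : ℕ) : ℚ_[p]))⁻¹ := by
    push_cast
    rw [div_eq_mul_inv]
  rw [h2]
  refine Subring.mul_mem _ (log8c_ek hp i) ?_
  rw [PadicInt.mem_subring_iff, norm_inv, h1, inv_one]

theorem log8c_p {p : ℕ} [Fact p.Prime] : (p : ℚ_[p]) ∈ PadicInt.subring p := natCast_mem _ p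

theorem log8c_pG {p : ℕ} [hpr : Fact p.Prime] (hp : 11 ≤ p) {i : ℕ} (hi : i < p) :
    (p : ℚ_[p]) * (GG ℚ_[p] p).coeff i ∈ PadicInt.subring p := by
  by_cases hne : 2 * i + 1 = p
  · have h0 : (p : ℚ_[p]) ≠ 0 := by
      exact_mod_cast hpr.out.ne_zero
    have h1 : 2 * (i : ℚ_[p]) + 1 = (p : ℚ_[p]) := by
      exact_mod_cast congrArg (fun x : ℕ => (x : ℚ_[p])) hne
    rw [log8c_coeff hi, h1, mul_div_cancel₀ _ h0]
    exact log8c_ek hp i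
  · exact Subring.mul_mem _ log8c_p (log8c_int hp hi hne)

theorem log8c_TT {p : ℕ} [Fact p.Prime] (m : ℕ) :
    (TT ℚ_[p] p).coeff (m + 1) =
      ∑ x ∈ antidiagonal m, (GG ℚ_[p] p).coeff x.1 * (GG ℚ_[p] p).coeff x.2 := by
  unfold TT
  rw [coeff_X_mul, pow_two, coeff_mul]

theorem log8c_ex {p : ℕ} [Fact p.Prime] {x : ℚ_[p]} (hx : x ∈ PadicInt.subring p) :
    ∃ z : ℤ_[p], x = (z : ℚ_[p]) := ⟨⟨x, hx⟩, rfl⟩

theorem int_T2 {p : ℕ} [Fact p.Prime] (hp : 11 ≤ p) :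
    ∃ z : ℤ_[p], (TT ℚ_[p] p).coeff 2 = (z : ℚ_[p]) := by
  apply log8c_ex
  rw [show (2 : ℕ) = 1 + 1 from rfl, log8c_TT]
  refine Subring.sum_mem _ fun x hx => ?_
  have h1 := mem_antidiagonal.1 hx
  exact Subring.mul_mem _ (log8c_int hp (by omega) (by omega))
    (log8c_int hp (by omega) (by omega))

theorem int_pT {p : ℕ} [Fact p.Prime] (hp : 11 ≤ p) {m : ℕ} (hm : m < p) :
    ∃ z : ℤ_[p], (p : ℚ_[p]) * (TT ℚ_[p] p).coeff m = (z : ℚ_[p]) := by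
  apply log8c_ex
  rcases Nat.eq_zero_or_pos m with h0 | h0
  · subst h0
    have h1 : (TT ℚ_[p] p).coeff 0 = 0 := by
      unfold TT
      rw [coeff_X_mul_zero]
    rw [h1, mul_zero]
    exact Subring.zero_mem _
  · obtain ⟨k, rfl⟩ : ∃ k, m = k + 1 := ⟨m - 1, by omega⟩
    rw [log8c_TT, Finset.mul_sum]
    refine Subring.sum_mem _ fun x hx => ?_
    have h1 := mem_antidiagonal.1 hx
    by_cases h2 : 2 * x.1 + 1 = p
    · have h3 : 2 * x.2 + 1 ≠ p := by omega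
      rw [← mul_assoc]
      exact Subring.mul_mem _ (log8c_pG hp (by omega)) (log8c_int hp (by omega) h3)
    · rw [mul_left_comm]
      exact Subring.mul_mem _ (log8c_int hp (by omega) h2) (log8c_pG hp (by omega))

theorem int_p2T {p n : ℕ} [Fact p.Prime] (hp : 11 ≤ p) (hn : p = 2 * n + 1) {q : ℤ_[p]}
    (hq : 4 * q = 1) :
    ∃ z : ℤ_[p], (p : ℚ_[p]) ^ 2 * (TT ℚ_[p] p).coeff p =
      (((ekInt q n) ^ 2 + (p : ℤ_[p]) ^ 2 * z : ℤ_[p]) : ℚ_[p]) := by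
  have h0 : (p : ℚ_[p]) ≠ 0 := by
    exact_mod_cast (Fact.out : p.Prime).ne_zero
  have hn' : 2 * (n : ℚ_[p]) + 1 = (p : ℚ_[p]) := by
    exact_mod_cast congrArg (fun x : ℕ => (x : ℚ_[p])) hn.symm
  have h1 : (TT ℚ_[p] p).coeff p =
      ∑ x ∈ antidiagonal (2 * n), (GG ℚ_[p] p).coeff x.1 * (GG ℚ_[p] p).coeff x.2 := by
    have h2 := log8c_TT (p := p) (2 * n)
    rw [← h2]
    congr 1
  have h3 : (n, n) ∈ antidiagonal (2 * n) := mem_antidiagonal.2 (by omega)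
  rw [← Finset.add_sum_erase _ _ h3] at h1
  have h4 : ∑ x ∈ (antidiagonal (2 * n)).erase (n, n),
      (GG ℚ_[p] p).coeff x.1 * (GG ℚ_[p] p).coeff x.2 ∈ PadicInt.subring p := by
    refine Subring.sum_mem _ fun x hx => ?_
    have h5 := mem_antidiagonal.1 (Finset.mem_erase.1 hx).2
    have h6 : x.1 ≠ n := by
      intro h7
      apply (Finset.mem_erase.1 hx).1
      ext
      · exact h7
      · show x.2 = n
        omega
    exact Subring.mul_mem _ (log8c_int hp (by omega) (by omega))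
      (log8c_int hp (by omega) (by omega))
  obtain ⟨z, hz⟩ := log8c_ex h4
  refine ⟨z, ?_⟩
  rw [h1, hz, log8c_coeff (show n < p by omega), hn', ek_int hq n]
  push_cast
  field_simp

end MPf96.CM
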