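import Mathlib

/-! Coefficients of `X^p` in the powers of `U = N / D`, `N ≡ X^p`, `D ≡ 1 mod p`.

`N = X^p + p N1`, `N1` with constant coefficient 0 (from `hNp` every coefficient of `N - X^p` is
divisible by `p`: `PadicInt.toZMod` has kernel the maximal ideal `(p)`:
`PadicInt.ker_toZMod`, `PadicInt.maximalIdeal_eq_span_p`, `Ideal.mem_span_singleton`).
`U = X^p A + p B` with `A = V`, `B = N1 V` (coerced) where `V` is the inverse of `D` in `ℤ_[p]⟦X⟧`
(here `U = N V`, `D V = 1` are hypotheses).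
`pow_coeff`: for `2 ≤ m`, `U^m = (p B)^m + ∑_{j ≥ 1} C(m,j) (X^p A)^j (p B)^(m-j)`; for `j ≥ 1` and
`m - j ≥ 1` the term is divisible by `X^(p+1)` (`B` has constant coefficient 0); for `j = m` it is
divisible by `X^(2p)`. So the coefficient of `X^p` in `U^m` is `p^m` times that of `B^m`
(a clean way: `(X^p A + pB)^m - (pB)^m = X^p A * ∑_{i<m} (X^p A + pB)^i (pB)^(m-1-i)`
(`Commute.geom_sum₂_mul` / `geom_sum₂_mul`), and the sum has constant coefficient 0 as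
`m ≥ 2`).
`pow_coeff_big`: `X ∣ U`, so `X^m ∣ U^m`; for `m > p` the coefficient of `X^p` is 0.
`lin_coeff`: `δ = D_0`. The coefficient of `X^p` of `N V` is `∑_{i ≤ p} N_(p-i) V_i`
`= V_0 + ∑_{1≤i≤p} N_(p-i) V_i`. `δ V_0 = 1`. For `1 ≤ i`, `p ∣ V_i` (from `D V = 1`, `D ≡ 1`
modulo `p`: `V ≡ 1`) and `p ∣ N_(p-i)`; so the sum is divisible by `p^2`. -/

set_option autoImplicit false

open PowerSeries

namespace MPf96.CM

variable {p : ℕ} [Fact p.Prime]

theorem log8d_dvd {x : ℤ_[p]} (h : PadicInt.toZMod x = 0) : (p : ℤ_[p]) ∣ x := by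
  have h1 : x ∈ RingHom.ker (PadicInt.toZMod (p := p)) := h
  rw [PadicInt.ker_toZMod, PadicInt.maximalIdeal_eq_span_p, Ideal.mem_span_singleton] at h1
  exact h1

theorem log8d_N {N : Polynomial ℤ_[p]} (hNp : N.map PadicInt.toZMod = Polynomial.X ^ p) (i : ℕ) :
    (p : ℤ_[p]) ∣ N.coeff i - (if i = p then 1 else 0) := by
  apply log8d_dvd
  have h1 := congrArg (fun q => Polynomial.coeff q i) hNp
  simp only [Polynomial.coeff_map, Polynomial.coeff_X_pow] at h1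
  rw [map_sub, h1]
  split_ifs <;> simp

theorem log8d_U0 {N : Polynomial ℤ_[p]} {U V : ℤ_[p]⟦X⟧} (hN0 : N.coeff 0 = 0)
    (hU : U = (N : ℤ_[p]⟦X⟧) * V) : constantCoeff U = 0 := by
  rw [hU, map_mul, ← coeff_zero_eq_constantCoeff_apply (N : ℤ_[p]⟦X⟧), Polynomial.coeff_coe, hN0,
    zero_mul]

theorem pow_coeff (hp : 11 ≤ p) {N D : Polynomial ℤ_[p]} {U V : ℤ_[p]⟦X⟧}
    (hNp : N.map PadicInt.toZMod = Polynomial.X ^ p) (hN0 : N.coeff 0 = 0)
    (hV : (D : ℤ_[p]⟦X⟧) * V = 1) (hU : U = (N : ℤ_[p]⟦X⟧) * V) {m : ℕ} (hm : 2 ≤ m) :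
    ∃ z : ℤ_[p], coeff p (U ^ m) = (p : ℤ_[p]) ^ m * z := by
  have hp0 : (p : ℤ_[p]) ≠ 0 := by
    exact_mod_cast (Fact.out : p.Prime).ne_zero
  have hpp : (0 : ℕ) ≠ p := (Fact.out : p.Prime).ne_zero.symm
  have _ := hp
  have _ := hV
  choose c hc using log8d_N hNp
  have hc0 : c 0 = 0 := by
    have h1 := hc 0
    rw [hN0, if_neg hpp, sub_zero] at h1
    rcases mul_eq_zero.1 h1.symm with h2 | h2
    · exact absurd h2 hp0
    · exact h2
  have hN : (N : ℤ_[p]⟦X⟧) = X ^ p + C (p : ℤ_[p]) * mk c := by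
    ext i
    rw [Polynomial.coeff_coe, map_add, coeff_X_pow, coeff_C_mul, coeff_mk, ← hc i]
    ring
  have hUB : U - C (p : ℤ_[p]) * (mk c * V) = X ^ p * V := by
    rw [hU, hN]
    ring
  have hB0 : constantCoeff (C (p : ℤ_[p]) * (mk c * V)) = 0 := by
    have h1 : constantCoeff (mk c : ℤ_[p]⟦X⟧) = 0 := by
      rw [← coeff_zero_eq_constantCoeff_apply, coeff_mk, hc0]
    rw [map_mul, map_mul, h1, zero_mul, mul_zero]
  have hU0 : constantCoeff U = 0 := log8d_U0 hN0 hU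
  have hg := geom_sum₂_mul U (C (p : ℤ_[p]) * (mk c * V)) m
  rw [hUB] at hg
  have hS : constantCoeff (∑ i ∈ Finset.range m, U ^ i * (C (p : ℤ_[p]) * (mk c * V)) ^ (m - 1 - i)) = 0 := by
    rw [map_sum]
    refine Finset.sum_eq_zero fun i hi => ?_
    rw [Finset.mem_range] at hi
    rw [map_mul, map_pow, map_pow, hU0, hB0]
    rcases Nat.eq_zero_or_pos i with h1 | h1
    · rw [zero_pow (n := m - 1 - i) (by omega), mul_zero]
    · rw [zero_pow (n := i) (by omega), zero_mul]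
  have hUm : U ^ m = (C (p : ℤ_[p]) * (mk c * V)) ^ m +
      X ^ p * ((∑ i ∈ Finset.range m, U ^ i * (C (p : ℤ_[p]) * (mk c * V)) ^ (m - 1 - i)) * V) := by
    linear_combination -hg
  refine ⟨coeff p ((mk c * V) ^ m), ?_⟩
  have h2 : coeff p (X ^ p * ((∑ i ∈ Finset.range m,
      U ^ i * (C (p : ℤ_[p]) * (mk c * V)) ^ (m - 1 - i)) * V)) = 0 := by
    have h3 := coeff_X_pow_mul ((∑ i ∈ Finset.range m,
      U ^ i * (C (p : ℤ_[p]) * (mk c * V)) ^ (m - 1 - i)) * V) p 0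
    rw [zero_add] at h3
    rw [h3, coeff_zero_eq_constantCoeff_apply, map_mul, hS, zero_mul]
  rw [hUm, map_add, h2, add_zero, mul_pow, ← map_pow, coeff_C_mul]

theorem pow_coeff_big {N : Polynomial ℤ_[p]} {U V : ℤ_[p]⟦X⟧} (hN0 : N.coeff 0 = 0)
    (hU : U = (N : ℤ_[p]⟦X⟧) * V) {m : ℕ} (hm : p < m) : coeff p (U ^ m) = 0 := by
  have h1 : X ∣ U := X_dvd_iff.2 (log8d_U0 hN0 hU)
  exact X_pow_dvd_iff.1 (pow_dvd_pow_of_dvd h1 m) p hm

theorem lin_coeff (hp : 11 ≤ p) {N D : Polynomial ℤ_[p]} {U V : ℤ_[p]⟦X⟧}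
    (hN : N.Monic) (hNd : N.natDegree = p)
    (hNp : N.map PadicInt.toZMod = Polynomial.X ^ p) (hDp : D.map PadicInt.toZMod = 1)
    (hV : (D : ℤ_[p]⟦X⟧) * V = 1) (hU : U = (N : ℤ_[p]⟦X⟧) * V) :
    ∃ z : ℤ_[p], D.coeff 0 * coeff p U = 1 + (p : ℤ_[p]) ^ 2 * z := by
  have _ := hp
  have hD0 : D.coeff 0 * coeff 0 V = 1 := by
    have h1 := congrArg (coeff 0) hV
    rw [coeff_mul, Finset.Nat.antidiagonal_zero, Finset.sum_singleton, Polynomial.coeff_coe,
      coeff_one, if_pos rfl] at h1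
    exact h1
  have hVm : PowerSeries.map (PadicInt.toZMod (p := p)) V = 1 := by
    have h1 := congrArg (PowerSeries.map (PadicInt.toZMod (p := p))) hV
    rw [map_mul, map_one] at h1
    have h2 : PowerSeries.map (PadicInt.toZMod (p := p)) (D : ℤ_[p]⟦X⟧) = 1 := by
      ext i
      rw [coeff_map, Polynomial.coeff_coe, ← Polynomial.coeff_map, hDp, Polynomial.coeff_one, coeff_one]
    rwa [h2, one_mul] at h1
  have hVj : ∀ j, j ≠ 0 → (p : ℤ_[p]) ∣ coeff j V := by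
    intro j hj
    apply log8d_dvd
    rw [← coeff_map, hVm, coeff_one, if_neg hj]
  have hNi : ∀ i, i ≠ p → (p : ℤ_[p]) ∣ N.coeff i := by
    intro i hi
    have h1 := log8d_N hNp i
    rwa [if_neg hi, sub_zero] at h1
  have hNpc : N.coeff p = 1 := by
    have h1 : N.coeff N.natDegree = 1 := hN
    rwa [hNd] at h1
  have hmem : (p, 0) ∈ Finset.HasAntidiagonal.antidiagonal p := by
    rw [Finset.HasAntidiagonal.mem_antidiagonal]
    rfl
  have hdiv : (p : ℤ_[p]) ^ 2 ∣ ∑ x ∈ (Finset.HasAntidiagonal.antidiagonal p).erase (p, 0),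
      coeff x.1 (N : ℤ_[p]⟦X⟧) * coeff x.2 V := by
    refine Finset.dvd_sum fun x hx => ?_
    rw [Finset.mem_erase, Finset.HasAntidiagonal.mem_antidiagonal] at hx
    have hx2 : x.2 ≠ 0 := by
      intro h0
      apply hx.1
      have h1 : x.1 = p := by omega
      exact Prod.ext h1 h0
    rw [pow_two, Polynomial.coeff_coe]
    exact mul_dvd_mul (hNi x.1 (by omega)) (hVj x.2 hx2)
  obtain ⟨z, hz⟩ := hdiv
  refine ⟨D.coeff 0 * z, ?_⟩
  rw [hU, coeff_mul, ← Finset.add_sum_erase _ _ hmem, hz, Polynomial.coeff_coe, hNpc, one_mul,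
    mul_add, hD0]
  ring

end MPf96.CM
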