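import Pool.Agent.H.MP_f96d9d_nt.Q2.CM.Log8B
import Pool.Agent.H.MP_f96d9d_nt.Q2.CM.Log8C
import Pool.Agent.H.MP_f96d9d_nt.Q2.CM.Log8D

/-! The formal logarithm argument: `u^2 e_n^2 D_0 = 1` modulo `p^2`.

Let `V` be the inverse of `D` in `ℤ_[p]⟦X⟧` (`D_0` is a unit since it is 1 modulo `p`;
`PowerSeries.invOfUnit`), `U = N V`, and `Uq`, its image in `ℚ_[p]⟦X⟧` (`PowerSeries.map`). As
`N = U D`, `N' D - N D' = U' D^2`, and the equation of the hypothesis divided by `D^4` says
`f U'^2 = π^2 (U^3 + 4 U^2 + 2 U)`, `π = p u`. `Uq ≠ 0` and has constant coefficient 0, so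
`ode_lin` gives `coeff 1 Uq = π^2` and `log8b` with `m = p + 1`, `T = TT ℚ_[p] p` (`TT_ode`,
`TT_coeff_zero`, `TT_coeff_one`) gives, at the coefficient of `X^p`:
`coeff p (aeval Uq T) = π^2 T_p`.
Left side: `aeval Uq T = ∑_{m < M} C(T_m) Uq^m` (`Polynomial.aeval_eq_sum_range'`), so it is
`T_0 * 0 + T_1 coeff p U + T_2 coeff p U^2 + ∑_{3 ≤ m ≤ p} T_m coeff p U^m` (the terms `m > p`
vanish by `pow_coeff_big`). By `pow_coeff` `coeff p U^m = p^m z_m`; `T_2` is integral; for
`3 ≤ m < p` `p T_m` is integral and `p^m = p * p^2 * ...`; for `m = p` `p^2 T_p` is integral and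
`p^p` is divisible by `p^4`. So left side `= coeff p U + p^2 z`.
Right side: `u^2 (p^2 T_p) = u^2 (e_n^2 + p^2 z')` by `int_p2T`. Multiply by `D_0` and use
`lin_coeff`: `u^2 e_n^2 D_0 = 1 + p^2 z''` (the map `ℤ_[p] → ℚ_[p]` is injective). -/

set_option autoImplicit false

open Polynomial

namespace MPf96.CM

/-- The equation for `U = N V`, `D V = 1`, over any commutative ring. -/
theorem log8e_eq {R : Type} [CommRing R] {c : R} {N D : R[X]} {U V : PowerSeries R}
    (hV : (D : PowerSeries R) * V = 1) (hU : U = (N : PowerSeries R) * V)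
    (h : (X ^ 3 + 4 * X ^ 2 + 2 * X) * (derivative N * D - N * derivative D) ^ 2
        = C c * (D * N * (N ^ 2 + 4 * N * D + 2 * D ^ 2))) :
    (PowerSeries.X ^ 3 + 4 * PowerSeries.X ^ 2 + 2 * PowerSeries.X) *
      (PowerSeries.derivative R U) ^ 2 =
      PowerSeries.C c * (U ^ 3 + 4 * U ^ 2 + 2 * U) := by
  have hN : (N : PowerSeries R) = U * (D : PowerSeries R) := by
    rw [hU, mul_assoc, mul_comm V, hV, mul_one]
  have h' := congrArg (fun q : R[X] => (q : PowerSeries R)) h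
  simp only [Polynomial.coe_mul, Polynomial.coe_add, Polynomial.coe_sub, Polynomial.coe_pow,
    Polynomial.coe_X, Polynomial.coe_C] at h'
  have h4 : ((4 : R[X]) : PowerSeries R) = 4 := by
    have := map_ofNat (Polynomial.coeToPowerSeries.ringHom (R := R)) 4
    simpa using this
  have h2 : ((2 : R[X]) : PowerSeries R) = 2 := by
    have := map_ofNat (Polynomial.coeToPowerSeries.ringHom (R := R)) 2
    simpa using this
  rw [h4, h2, ← PowerSeries.derivative_coe, ← PowerSeries.derivative_coe, hN,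
    Derivation.leibniz, smul_eq_mul, smul_eq_mul] at h'
  set d := (D : PowerSeries R) with hd
  set U' := PowerSeries.derivative R U with hU'
  set d' := PowerSeries.derivative R d with hd'
  linear_combination V ^ 4 * h' + ((PowerSeries.X ^ 3 + 4 * PowerSeries.X ^ 2 +
    2 * PowerSeries.X) * U' ^ 2 - PowerSeries.C c * (U ^ 3 + 4 * U ^ 2 + 2 * U)) *
    (-(1 + d * V + (d * V) ^ 2 + (d * V) ^ 3)) * hV

theorem log8e_map_derivative {R S : Type} [CommRing R] [CommRing S] (φ : R →+* S)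
    (U : PowerSeries R) : PowerSeries.derivative S (PowerSeries.map φ U) =
      PowerSeries.map φ (PowerSeries.derivative R U) := by
  ext n
  rw [PowerSeries.coeff_derivative, PowerSeries.coeff_map, PowerSeries.coeff_map,
    PowerSeries.coeff_derivative, map_mul, map_add, map_natCast, map_one]

theorem log8 (p n : ℕ) [Fact p.Prime] (hp : 11 ≤ p) (hn : p = 2 * n + 1) (u : ℤ_[p])
    (hu : IsUnit u) (N D : ℤ_[p][X]) (hN : N.Monic) (hNd : N.natDegree = p)
    (hD : D.degree < N.degree)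
    (h : (X ^ 3 + 4 * X ^ 2 + 2 * X) * (derivative N * D - N * derivative D) ^ 2
        = C (((p : ℤ_[p]) * u) ^ 2) * (D * N * (N ^ 2 + 4 * N * D + 2 * D ^ 2)))
    (hNp : N.map PadicInt.toZMod = X ^ p) (hDp : D.map PadicInt.toZMod = 1)
    (hN0 : N.coeff 0 = 0) {q : ℤ_[p]} (hq : 4 * q = 1) :
    ∃ z : ℤ_[p], u ^ 2 * (ekInt q n) ^ 2 * D.coeff 0 = 1 + (p : ℤ_[p]) ^ 2 * z := by
  have hp0 : p ≠ 0 := by omega
  set φ : ℤ_[p] →+* ℚ_[p] := PadicInt.Coe.ringHom with hφ
  have hφi : Function.Injective φ := by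
    intro a b hab
    exact Subtype.ext hab
  have hφc : ∀ x : ℤ_[p], (x : ℚ_[p]) = φ x := fun x => rfl
  -- the inverse of D
  have hD0 : IsUnit (D.coeff 0) := by
    have h1 : PadicInt.toZMod (D.coeff 0) = 1 := by
      rw [← coeff_map, hDp, coeff_one_zero]
    by_contra hcon
    have h2 : D.coeff 0 ∈ IsLocalRing.maximalIdeal ℤ_[p] := hcon
    rw [← PadicInt.ker_toZMod, RingHom.mem_ker, h1] at h2
    exact one_ne_zero h2
  obtain ⟨V, hV⟩ : ∃ V : PowerSeries ℤ_[p], (D : PowerSeries ℤ_[p]) * V = 1 := by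
    have h1 : IsUnit (D : PowerSeries ℤ_[p]) := by
      rw [PowerSeries.isUnit_iff_constantCoeff, ← PowerSeries.coeff_zero_eq_constantCoeff_apply,
        Polynomial.coeff_coe]
      exact hD0
    exact h1.exists_right_inv
  obtain ⟨U, hU⟩ : ∃ U : PowerSeries ℤ_[p], U = (N : PowerSeries ℤ_[p]) * V := ⟨_, rfl⟩
  have hNU : (N : PowerSeries ℤ_[p]) = U * (D : PowerSeries ℤ_[p]) := by
    rw [hU, mul_assoc, mul_comm V, hV, mul_one]
  have hU0 : PowerSeries.coeff 0 U = 0 := by
    rw [hU, PowerSeries.coeff_zero_eq_constantCoeff_apply, map_mul,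
      ← PowerSeries.coeff_zero_eq_constantCoeff_apply, Polynomial.coeff_coe, hN0, zero_mul]
  have hUne : U ≠ 0 := by
    intro h0
    rw [h0, zero_mul] at hNU
    have h1 : N = 0 := by
      apply Polynomial.coe_injective (R := ℤ_[p])
      rw [hNU, Polynomial.coe_zero]
    exact hN.ne_zero h1
  have hode := log8e_eq hV hU h
  -- over the field
  set Uq : PowerSeries ℚ_[p] := PowerSeries.map φ U with hUq
  have hUq0 : PowerSeries.constantCoeff Uq = 0 := by
    rw [← PowerSeries.coeff_zero_eq_constantCoeff_apply, hUq, PowerSeries.coeff_map, hU0, map_zero]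
  have hUqne : Uq ≠ 0 := by
    intro h0
    apply hUne
    ext n
    apply hφi
    rw [← PowerSeries.coeff_map, ← hUq, h0, map_zero, map_zero, map_zero]
  obtain ⟨c, hc⟩ : ∃ c : ℚ_[p], c = φ (((p : ℤ_[p]) * u) ^ 2) := ⟨_, rfl⟩
  have hc0 : c ≠ 0 := by
    rw [hc]
    intro h0
    have h1 := hφi (h0.trans (map_zero φ).symm)
    have h2 : (p : ℤ_[p]) * u ≠ 0 := mul_ne_zero (Nat.cast_ne_zero.2 hp0) hu.ne_zero
    exact pow_ne_zero 2 h2 h1
  have hodeq : fps ℚ_[p] * (PowerSeries.derivative ℚ_[p] Uq) ^ 2 =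
      PowerSeries.C c * (Uq ^ 3 + 4 * Uq ^ 2 + 2 * Uq) := by
    have h1 := congrArg (PowerSeries.map φ) hode
    simp only [map_mul, map_add, map_pow, PowerSeries.map_X, PowerSeries.map_C, map_ofNat,
      ← log8e_map_derivative] at h1
    rw [← hUq] at h1
    unfold fps
    rw [h1, hc, map_pow, map_mul]
    simp only [map_mul, map_pow]
  have hU1 := ode_lin hc0 hUq0 hUqne hodeq
  have hlog := log8b (m := p + 1) hc0 hUq0 hU1 hodeq (TT_coeff_zero (K := ℚ_[p]) p)
    (TT_coeff_one (K := ℚ_[p]) (by omega : 1 ≤ p)) (TT_ode (K := ℚ_[p]) (by omega : 1 ≤ p))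
  set T := TT ℚ_[p] p with hT
  have hcoef : PowerSeries.coeff p (aeval Uq T) = c * T.coeff p := by
    have h1 := PowerSeries.X_pow_dvd_iff.1 hlog p (Nat.lt_succ_self p)
    rw [map_sub, PowerSeries.coeff_C_mul, Polynomial.coeff_coe] at h1
    exact sub_eq_zero.1 h1
  -- the terms
  have hterm : ∀ i : ℕ, ∃ z : ℤ_[p], T.coeff i * PowerSeries.coeff p (Uq ^ i) =
      φ ((if i = 1 then PowerSeries.coeff p U else 0) + (p : ℤ_[p]) ^ 2 * z) := by
    intro i
    have hmap : PowerSeries.coeff p (Uq ^ i) = φ (PowerSeries.coeff p (U ^ i)) := by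
      rw [hUq, ← map_pow, PowerSeries.coeff_map]
    rcases Nat.lt_or_ge i 2 with hi | hi
    · interval_cases i
      · refine ⟨0, ?_⟩
        rw [TT_coeff_zero, zero_mul, if_neg (by norm_num), mul_zero, add_zero, map_zero]
      · refine ⟨0, ?_⟩
        rw [hmap, pow_one, TT_coeff_one (by omega), one_mul, if_pos rfl, mul_zero, add_zero]
    · have hi1 : i ≠ 1 := by omega
      rw [hmap]
      simp only [if_neg hi1, zero_add]
      rcases Nat.lt_or_ge p i with hpi | hpi
      · refine ⟨0, ?_⟩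
        rw [pow_coeff_big hN0 hU hpi, map_zero, mul_zero, mul_zero, map_zero]
      · obtain ⟨z, hz⟩ := pow_coeff hp hNp hN0 hV hU hi
        rw [hz]
        rcases Nat.lt_or_ge i 3 with hi3 | hi3
        · have hi2 : i = 2 := by omega
          subst hi2
          obtain ⟨w, hw⟩ := int_T2 (p := p) hp
          refine ⟨w * z, ?_⟩
          rw [hw, hφc, ← map_mul]
          congr 1
          ring
        · rcases Nat.lt_or_ge i p with hip | hip
          · obtain ⟨w, hw⟩ := int_pT (p := p) hp hip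
            refine ⟨(p : ℤ_[p]) ^ (i - 3) * w * z, ?_⟩
            have e1 : (p : ℤ_[p]) ^ i * z = (p : ℤ_[p]) * ((p : ℤ_[p]) ^ 2 *
                (p : ℤ_[p]) ^ (i - 3) * z) := by
              rw [← pow_add, show 2 + (i - 3) = i - 1 by omega, ← mul_assoc, ← pow_succ',
                Nat.sub_add_cancel (by omega : 1 ≤ i)]
            have e2 : φ (p : ℤ_[p]) = (p : ℚ_[p]) := map_natCast φ p
            rw [e1, map_mul, e2, ← mul_assoc, mul_comm (T.coeff i), hT, hw, hφc, ← map_mul]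
            congr 1
            ring
          · have hip' : i = p := le_antisymm hpi hip
            obtain ⟨w, hw⟩ := int_p2T hp hn hq
            refine ⟨(p : ℤ_[p]) ^ (p - 4) * (ekInt q n ^ 2 + (p : ℤ_[p]) ^ 2 * w) * z, ?_⟩
            have e1 : (p : ℤ_[p]) ^ i * z = (p : ℤ_[p]) ^ 2 * ((p : ℤ_[p]) ^ 2 *
                (p : ℤ_[p]) ^ (p - 4) * z) := by
              rw [← pow_add, ← mul_assoc, ← pow_add, hip', show 2 + (2 + (p - 4)) = p by omega]
            have e2 : φ ((p : ℤ_[p]) ^ 2) = (p : ℚ_[p]) ^ 2 := by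
              rw [map_pow, map_natCast]
            rw [e1, map_mul, e2, ← mul_assoc, mul_comm (T.coeff i), hip', hT, hw, hφc, ← map_mul]
            congr 1
            ring
  choose zf hzf using hterm
  have hsum : PowerSeries.coeff p (aeval Uq T) =
      φ (PowerSeries.coeff p U + (p : ℤ_[p]) ^ 2 * ∑ i ∈ Finset.range (T.natDegree + 2), zf i) := by
    rw [Polynomial.aeval_eq_sum_range' (by omega : T.natDegree < T.natDegree + 2), map_sum]
    have e1 : ∀ i ∈ Finset.range (T.natDegree + 2), PowerSeries.coeff p (T.coeff i • Uq ^ i) =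
        φ ((if i = 1 then PowerSeries.coeff p U else 0) + (p : ℤ_[p]) ^ 2 * zf i) := by
      intro i _
      rw [PowerSeries.coeff_smul, smul_eq_mul, hzf]
    rw [Finset.sum_congr rfl e1, ← map_sum, Finset.sum_add_distrib, ← Finset.mul_sum,
      Finset.sum_ite_eq' (Finset.range (T.natDegree + 2)) 1,
      if_pos (Finset.mem_range.2 (by omega))]
  obtain ⟨w, hw⟩ := int_p2T hp hn hq
  have hright : c * T.coeff p = φ (u ^ 2 * (ekInt q n ^ 2 + (p : ℤ_[p]) ^ 2 * w)) := by
    have e2 : φ (p : ℤ_[p]) = (p : ℚ_[p]) := map_natCast φ p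
    rw [map_mul, ← hφc (ekInt q n ^ 2 + (p : ℤ_[p]) ^ 2 * w), ← hw, hc, ← hT, map_pow, map_mul, e2,
      map_pow]
    ring
  have hfin : PowerSeries.coeff p U + (p : ℤ_[p]) ^ 2 *
      ∑ i ∈ Finset.range (T.natDegree + 2), zf i =
        u ^ 2 * (ekInt q n ^ 2 + (p : ℤ_[p]) ^ 2 * w) := by
    apply hφi
    rw [← hsum, hcoef, hright]
  obtain ⟨z3, hz3⟩ := lin_coeff hp hN hNd hNp hDp hV hU
  refine ⟨z3 + D.coeff 0 * (∑ i ∈ Finset.range (T.natDegree + 2), zf i) - u ^ 2 * w * D.coeff 0, ?_⟩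
  linear_combination hz3 - D.coeff 0 * hfin

end MPf96.CM
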