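import Mathlib

/-! Change of variable `ξ = 3 x + 4` from `ξ^3 - 30 ξ + 56` to `27 (x^3 + 4 x^2 + 2 x)`.

Let `l = 3 X + 4`, `n = N.comp l`, `d = D.comp l`, `c = 3^p` and `v` the inverse of 3 in `ℤ_[p]`.
Put `N1 = C (v^p) * (n - 4 d)` and `D1 = C (v^p) * (3 d)`. Leading coefficient of `N.comp l` is
`3^p` and the degree is `p` (`Polynomial.leadingCoeff_comp`, `natDegree_comp`), `d` has smaller
degree; so `N1` is monic of degree `p` and `D1` has degree < p. Coprime: `N.comp l`, `D.comp l` are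
coprime (compose the Bezout identity), subtract `4 d`, multiply by units.
The equation: compose with `l`: `(N' comp l) = v n'` etc., `f.comp l = 27 (X^3 + 4X^2 + 2X)`, so
`3 (X^3+4X^2+2X) (n' d - n d')^2 = π^2 d (n^3 - 30 n d^2 + 56 d^3)` and
`n^3 - 30 n d^2 + 56 d^3 = (n - 4 d)(n^2 + 4 n d - 14 d^2)`. With `n - 4 d = c N1`, `3 d = c D1`:
`9 (n^2 + 4 n d - 14 d^2) = 9 c^2 (N1^2 + 4 N1 D1 + 2 D1^2)`,
`3 (n' d - n d') = c^2 (N1' D1 - N1 D1')`; everything is divisible by the unit `c^4` up to powers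
of 3.
Modulo `p`: `n` becomes `(3X+4)^p = 3^p X^p + 4^p = 3 X^p + 4`, `d` becomes `1`, `v^p` becomes
`1/3` (in `(ZMod p)[X]`, Frobenius, `ZMod.pow_card`), so `N1 = X^p`, `D1 = 1`. -/

set_option autoImplicit false

open Polynomial

namespace MPf96.CM

theorem trans8 (p : ℕ) [Fact p.Prime] (hp : 11 ≤ p) (π : ℤ_[p]) (N D : ℤ_[p][X])
    (hN : N.Monic) (hNd : N.natDegree = p) (hD : D.degree < N.degree) (hco : IsCoprime N D)
    (h : (X ^ 3 + C (-30) * X + C 56) * (derivative N * D - N * derivative D) ^ 2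
        = C (π ^ 2) * (D * (N ^ 3 + C (-30) * N * D ^ 2 + C 56 * D ^ 3)))
    (hNp : N.map PadicInt.toZMod = X ^ p) (hDp : D.map PadicInt.toZMod = 1) :
    ∃ N1 D1 : ℤ_[p][X], N1.Monic ∧ N1.natDegree = p ∧ D1.degree < N1.degree ∧
      IsCoprime N1 D1 ∧
      (X ^ 3 + 4 * X ^ 2 + 2 * X) * (derivative N1 * D1 - N1 * derivative D1) ^ 2
        = C (π ^ 2) * (D1 * N1 * (N1 ^ 2 + 4 * N1 * D1 + 2 * D1 ^ 2)) ∧
      N1.map PadicInt.toZMod = X ^ p ∧ D1.map PadicInt.toZMod = 1 := by
  obtain ⟨v, hv⟩ : ∃ v : ℤ_[p], v * 3 = 1 := by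
    have h3 : IsUnit (3 : ℤ_[p]) := by
      rw [PadicInt.isUnit_iff]
      by_contra hne
      have hlt : ‖(3 : ℤ_[p])‖ < 1 := lt_of_le_of_ne (PadicInt.norm_le_one _) hne
      have h1 : ‖((3 : ℤ) : ℤ_[p])‖ < 1 := by
        push_cast
        exact hlt
      have h2 := (PadicInt.norm_int_lt_one_iff_dvd (3 : ℤ)).1 h1
      have h4 := Int.le_of_dvd (by norm_num) h2
      omega
    obtain ⟨v, hv⟩ := h3.exists_left_inv
    exact ⟨v, hv⟩
  have hp0 : p ≠ 0 := by omega
  set w : ℤ_[p] := v ^ p with hw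
  have hw3 : w * 3 ^ p = 1 := by rw [hw, ← mul_pow, hv, one_pow]
  have hwu : IsUnit w := IsUnit.of_mul_eq_one _ hw3
  have hw0 : w ≠ 0 := hwu.ne_zero
  have h3u : IsUnit (3 : ℤ_[p]) := IsUnit.of_mul_eq_one v (by rw [mul_comm]; exact hv)
  have h30 : (3 : ℤ_[p]) ≠ 0 := h3u.ne_zero
  have h40 : (4 : ℤ_[p]) ≠ 0 := by norm_num
  have hw30 : w * 3 ≠ 0 := mul_ne_zero hw0 h30
  set l : ℤ_[p][X] := C 3 * X + C 4 with hl
  have hldeg : l.natDegree = 1 := natDegree_linear h30
  have hllc : l.leadingCoeff = 3 := leadingCoeff_linear h30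
  set n : ℤ_[p][X] := N.comp l with hn
  set d : ℤ_[p][X] := D.comp l with hd
  have hD0 : D ≠ 0 := by
    intro h0
    rw [h0, Polynomial.map_zero] at hDp
    exact zero_ne_one hDp
  have hDnd : D.natDegree < p := lt_of_lt_of_eq (natDegree_lt_natDegree hD0 hD) hNd
  have hnnd : n.natDegree = p := by
    rw [hn, natDegree_comp, hNd, hldeg, mul_one]
  have hdnd : d.natDegree < p := by
    rw [hd, natDegree_comp, hldeg, mul_one]
    exact hDnd
  have hnlc : n.leadingCoeff = 3 ^ p := by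
    rw [hn, leadingCoeff_comp (by rw [hldeg]; exact one_ne_zero), hN.leadingCoeff, hllc, hNd, one_mul]
  have hn0 : n ≠ 0 := by
    intro h0
    rw [h0, natDegree_zero] at hnnd
    exact hp0 hnnd.symm
  have hddeg : d.degree < n.degree := by
    rw [degree_eq_natDegree hn0, hnnd]
    exact lt_of_le_of_lt degree_le_natDegree (by exact_mod_cast hdnd)
  have h4d : (C 4 * d).degree < n.degree := by
    rw [degree_C_mul h40]
    exact hddeg
  have hmdeg : (n - C 4 * d).degree = n.degree := degree_sub_eq_left_of_degree_lt h4d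
  have hmlc : (n - C 4 * d).leadingCoeff = 3 ^ p := by
    rw [leadingCoeff_sub_of_degree_lt h4d, hnlc]
  have hN1m : (C w * (n - C 4 * d)).Monic := by
    rw [Monic, leadingCoeff_mul, leadingCoeff_C, hmlc, hw3]
  have hN1d : (C w * (n - C 4 * d)).degree = n.degree := by
    rw [degree_C_mul hw0, hmdeg]
  refine ⟨C w * (n - C 4 * d), C (w * 3) * d, hN1m, ?_, ?_, ?_, ?_, ?_, ?_⟩
  · rw [natDegree_eq_of_degree_eq hN1d, hnnd]
  · rw [hN1d, degree_C_mul hw30]
    exact hddeg
  · have h1 : IsCoprime n d := by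
      have := hco.map (compRingHom l)
      simpa using this
    have h2 : IsCoprime (n + d * (- C 4)) d := h1.add_mul_left_left (- C 4)
    have e : n - C 4 * d = n + d * (- C 4) := by ring
    rw [e]
    have hu1 : IsUnit (C w : ℤ_[p][X]) := isUnit_C.2 hwu
    have hu2 : IsUnit (C (w * 3) : ℤ_[p][X]) := isUnit_C.2 (hwu.mul h3u)
    rw [isCoprime_mul_unit_left_left hu1, isCoprime_mul_unit_left_right hu2]
    exact h2
  · have hn' : derivative n = C 3 * (derivative N).comp l := by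
      rw [hn, derivative_comp, hl]
      simp
    have hd' : derivative d = C 3 * (derivative D).comp l := by
      rw [hd, derivative_comp, hl]
      simp
    have hc := congrArg (fun q => q.comp l) h
    simp only [mul_comp, add_comp, sub_comp, pow_comp, X_comp, C_comp] at hc
    rw [← hn, ← hd] at hc
    simp only [derivative_mul, derivative_C, derivative_sub, zero_mul, zero_add]
    rw [hn', hd']
    have e3 : (C 3 : ℤ_[p][X]) = 3 := map_ofNat C 3
    have e4 : (C 4 : ℤ_[p][X]) = 4 := map_ofNat C 4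
    have e30 : (C (-30) : ℤ_[p][X]) = -30 := by
      rw [C_neg]
      exact congrArg Neg.neg (map_ofNat C 30)
    have e56 : (C 56 : ℤ_[p][X]) = 56 := map_ofNat C 56
    have ew : (C (w * 3) : ℤ_[p][X]) = C w * 3 := by rw [C_mul, e3]
    have ep : (C (π ^ 2) : ℤ_[p][X]) = C π ^ 2 := C_pow
    have hll : l = 3 * X + 4 := by rw [hl, e3, e4]
    generalize (derivative N).comp l = A at hc ⊢
    generalize (derivative D).comp l = B at hc ⊢
    rw [e30, e56, hll, ep] at hc
    rw [ew, e3, e4, ep]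
    linear_combination (3 * C w ^ 4 : ℤ_[p][X]) * hc
  · have hcw : (PadicInt.toZMod w : ZMod p) * 3 = 1 := by
      have h1 : (PadicInt.toZMod v : ZMod p) * 3 = 1 := by
        have := congrArg (PadicInt.toZMod (p := p)) hv
        rw [map_mul, map_one, map_ofNat] at this
        exact this
      rw [hw, map_pow, ZMod.pow_card]
      exact h1
    have hlm : l.map (PadicInt.toZMod (p := p)) = C 3 * X + C 4 := by
      have e3 : (PadicInt.toZMod (3 : ℤ_[p]) : ZMod p) = 3 := map_ofNat _ 3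
      have e4 : (PadicInt.toZMod (4 : ℤ_[p]) : ZMod p) = 4 := map_ofNat _ 4
      rw [hl, Polynomial.map_add, Polynomial.map_mul, map_C, map_C, map_X, e3, e4]
    have hnm : n.map (PadicInt.toZMod (p := p)) = C 3 * X ^ p + C 4 := by
      rw [hn, Polynomial.map_comp, hNp, hlm]
      rw [pow_comp, X_comp, add_pow_char, mul_pow, ← C_pow, ← C_pow, ZMod.pow_card, ZMod.pow_card]
    have hdm : d.map (PadicInt.toZMod (p := p)) = 1 := by
      rw [hd, Polynomial.map_comp, hDp, one_comp]
    rw [Polynomial.map_mul, Polynomial.map_sub, Polynomial.map_mul, hnm, hdm, map_C, map_C]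
    have e4 : (PadicInt.toZMod (4 : ℤ_[p]) : ZMod p) = 4 := by
      rw [map_ofNat]
    rw [e4, mul_one, add_sub_cancel_right, ← mul_assoc, ← C_mul, hcw, C_1, one_mul]
  · have hcw : (PadicInt.toZMod w : ZMod p) * 3 = 1 := by
      have h1 : (PadicInt.toZMod v : ZMod p) * 3 = 1 := by
        have := congrArg (PadicInt.toZMod (p := p)) hv
        rw [map_mul, map_one, map_ofNat] at this
        exact this
      rw [hw, map_pow, ZMod.pow_card]
      exact h1
    have hdm : d.map (PadicInt.toZMod (p := p)) = 1 := by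
      rw [hd, Polynomial.map_comp, hDp, one_comp]
    have e3 : (PadicInt.toZMod (3 : ℤ_[p]) : ZMod p) = 3 := by
      rw [map_ofNat]
    rw [Polynomial.map_mul, hdm, map_C, map_mul, e3, hcw, C_1, one_mul]

end MPf96.CM
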