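import Pool.Agent.H.MP_f96d9d_nt.Omega
import Pool.Agent.H.MP_f96d9d_nt.Q2.CM.Cla
import Pool.Agent.H.MP_f96d9d_nt.Q2.CM.Frob8B
import Pool.Agent.H.MP_f96d9d_nt.Q2.CM.Trans8
import Pool.Agent.H.MP_f96d9d_nt.Q2.CM.Inv8C
import Pool.Agent.H.MP_f96d9d_nt.Q2.CM.Log8E

/-! `(-1)^n F(1) = 4 a^2 - 2 p` modulo `p^2` for `p = a^2 + 2 b^2`, `p ≥ 11`.

`exists_pi8` gives `β, u`; `frob8`, `trans8` (with `π = p u`), `inv8` (`p u ≠ 0`: `u` is a unit),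
`log8` give `N, D` with `δ = D_0`: `δ^2 = 2^(p-1)`, `u^2 e^2 δ = 1 + p^2 z`, `e = ekInt q n` (`4 q = 1`
exists since 4 is a unit of `ℤ_[p]`), `δ ≡ 1` modulo `p`. Apply
`φ = PadicInt.toZModPow 2 : ℤ_[p] →+* ZMod (p^2)`. In `R = ZMod (p^2)`: `p^2 = 0`.
(1) `2^n = (-1)^n φ(δ)`: `(2^n)^2 = 2^(p-1) = φ(δ)^2`, so `(2^n - ε δ)(2^n + ε δ) = 0`, `ε = (-1)^n`
and `2^n + ε δ` is a unit: modulo `p` it is `2 ε`, since `(-2)^n = 1` in `ZMod p`
(`a^2 = -2 b^2`, `b ≠ 0` modulo `p`, so `(-2)^n = (a/b)^(2n) = 1` by Fermat, `2n = p - 1`) and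
`δ ≡ 1`. (units of `ZMod (p^2)`: `unit_of_red` in `Omega.lean` or `unit_int` in `Base.lean`.)
(2) `F = FF p n 1`: `8^n F = T^2` (`F1_T`) and `φ(e) = T (-φ q)^n`, so `16^n φ(e)^2 = T^2 = 8^n F`
and `F = 2^n φ(e)^2`.
(3) `u (a - b β) = 1` and `u^2 e^2 δ = 1` give `e^2 δ = (a - b β)^2`; so
`F = 2^n e^2 = ε δ e^2 = ε (a - b β)^2`, `ε F = (a - b β)^2`. Finally
`(a + b β)^2 = p^2 u^2 = 0` in `R`, so `(a - bβ)^2 = (a - bβ)^2 + (a + bβ)^2 = 2 a^2 - 4 b^2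
= 4 a^2 - 2 (a^2 + 2 b^2) = 4 a^2 - 2 p`. -/

set_option autoImplicit false

namespace MPf96

theorem F1_ord {p n : ℕ} [hp : Fact p.Prime] (hn : p = 2 * n + 1) (h11 : 11 ≤ p) (a b : ℤ)
    (hab : (p : ℤ) = a ^ 2 + 2 * b ^ 2) :
    (-1) ^ n * FF p n 1 = 4 * (a : ZMod (p ^ 2)) ^ 2 - 2 * p := by
  have hp2 : p ≠ 2 := by omega
  have hp0 : (p : ℤ_[p]) ≠ 0 := by
    exact_mod_cast hp.out.ne_zero
  obtain ⟨β, u, hβ, hu, hu'⟩ := CM.exists_pi8 p h11 a b hab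
  obtain ⟨N0, D0, hN0m, hN0d, hD0, hco0, h0, hNp0, hDp0⟩ := CM.frob8 p h11 a b hab β u hβ hu hu'
  obtain ⟨N, D, hN, hNd, hD, hco, h, hNp, hDp⟩ :=
    CM.trans8 p h11 ((p : ℤ_[p]) * u) N0 D0 hN0m hN0d hD0 hco0 h0 hNp0 hDp0
  have huu : IsUnit u := IsUnit.of_mul_eq_one _ hu'
  have hπ : (p : ℤ_[p]) * u ≠ 0 := mul_ne_zero hp0 huu.ne_zero
  obtain ⟨hNc, -, hδ⟩ := CM.inv8 p h11 ((p : ℤ_[p]) * u) hπ N D hN hNd hD hco h hNp hDp
  have h4u : IsUnit ((4 : ℕ) : ℤ_[p]) := by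
    rw [PadicInt.isUnit_iff, PadicInt.norm_natCast_eq_one_iff]
    have h1 : Nat.Coprime p 2 := (Nat.coprime_primes hp.out Nat.prime_two).2 hp2
    exact Nat.Coprime.pow_right 2 h1
  obtain ⟨q, hq⟩ := h4u.exists_right_inv
  have hq' : 4 * q = 1 := by exact_mod_cast hq
  obtain ⟨z, hz⟩ := CM.log8 p n h11 hn u huu N D hN hNd hD h hNp hDp hNc hq'
  have hδp : ∃ w : ℤ_[p], D.coeff 0 = 1 + (p : ℤ_[p]) * w := by
    have h1 : PadicInt.toZMod (D.coeff 0 - 1) = 0 := by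
      rw [map_sub, map_one]
      have h2 : (D.map PadicInt.toZMod).coeff 0 = (1 : Polynomial (ZMod p)).coeff 0 := by rw [hDp]
      rw [Polynomial.coeff_map, Polynomial.coeff_one_zero] at h2
      rw [h2, sub_self]
    rw [← RingHom.mem_ker, PadicInt.ker_toZMod, PadicInt.maximalIdeal_eq_span_p,
      Ideal.mem_span_singleton] at h1
    obtain ⟨w, hw⟩ := h1
    exact ⟨w, by rw [← hw]; ring⟩
  obtain ⟨w, hw⟩ := hδp
  obtain ⟨φ, hφ⟩ : ∃ φ : ℤ_[p] →+* ZMod (p ^ 2), φ = PadicInt.toZModPow 2 := ⟨_, rfl⟩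
  have eβ := congrArg φ hβ
  have eu := congrArg φ hu
  have eu' := congrArg φ hu'
  have eδ := congrArg φ hδ
  have eq4 := congrArg φ hq'
  have ez := congrArg φ hz
  have ew := congrArg φ hw
  have ee : φ (CM.ekInt q n) = ((Texp 4 2 n : ℤ) : ZMod (p ^ 2)) * (-(φ q)) ^ n := by
    unfold CM.ekInt
    rw [map_mul, map_pow, map_neg, map_intCast]
  simp only [map_mul, map_pow, map_add, map_sub, map_neg, map_one, map_natCast, map_intCast,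
    map_ofNat] at eβ eu eu' eδ eq4 ez ew
  have hpsq : (p : ZMod (p ^ 2)) ^ 2 = 0 := p_sq
  generalize φ β = B at *
  generalize φ u = U at *
  generalize φ q = Q at *
  generalize φ (D.coeff 0) = δ at *
  generalize φ (CM.ekInt q n) = e at *
  generalize φ w = W at *
  generalize φ z = Z at *
  have hT := F1_T (p := p) hn
  generalize ((Texp 4 2 n : ℤ) : ZMod (p ^ 2)) = T at *
  generalize FF p n 1 = F at *
  have hp2n : p - 1 = 2 * n := by omega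
  have hε : ((-1 : ZMod (p ^ 2)) ^ n) ^ 2 = 1 := by
    rw [← pow_mul, mul_comm n 2, pow_mul]
    norm_num
  obtain ⟨ε, hεd⟩ : ∃ ε : ZMod (p ^ 2), ε = (-1) ^ n := ⟨_, rfl⟩
  rw [← hεd] at hε ⊢
  have hunit8 : IsUnit ((8 : ZMod (p ^ 2)) ^ n) := by
    have h1 : ¬ p ∣ 8 := by
      intro h1
      have h2 : p ∣ 2 := hp.out.dvd_of_dvd_pow (show p ∣ 2 ^ 3 by simpa using h1)
      exact hp2 ((Nat.prime_dvd_prime_iff_eq hp.out Nat.prime_two).1 h2)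
    have h2 := unit_nat (p := p) h1
    have h3 : IsUnit (8 : ZMod (p ^ 2)) := by exact_mod_cast h2
    exact h3.pow n
  -- (1)
  have hfac : (2 ^ n + ε * δ) * (2 ^ n - ε * δ) = 0 := by
    have h1 : ((2 : ZMod (p ^ 2)) ^ n) ^ 2 = 2 ^ (p - 1) := by
      rw [hp2n, ← pow_mul, mul_comm n 2]
    linear_combination h1 - ε ^ 2 * eδ - hε * 2 ^ (p - 1)
  have hred : red p ((2 : ZMod (p ^ 2)) ^ n + ε * δ) ≠ 0 := by
    have h1 : red p B ^ 2 = -2 := by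
      rw [← map_pow, eβ, map_neg, map_ofNat]
    have h20 : (2 : ZMod p) ≠ 0 := by
      intro h2
      have h3 : ((2 : ℕ) : ZMod p) = 0 := by exact_mod_cast h2
      have h4 := (ZMod.natCast_eq_zero_iff 2 p).1 h3
      exact hp2 ((Nat.prime_dvd_prime_iff_eq hp.out Nat.prime_two).1 h4)
    have hB0 : red p B ≠ 0 := by
      intro h2
      rw [h2] at h1
      apply h20
      linear_combination h1
    have h2 : (-2 : ZMod p) ^ n = 1 := by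
      rw [← h1, ← pow_mul, ← hp2n]
      exact ZMod.pow_card_sub_one_eq_one hB0
    have h3 : red p δ = 1 := by
      rw [ew, map_add, map_mul, map_one, map_natCast]
      simp
    have h4 : (2 : ZMod p) ^ n = (-1) ^ n := by
      have h5 : (-2 : ZMod p) ^ n = (-1) ^ n * 2 ^ n := by
        rw [← mul_pow]
        norm_num
      have h6 : ((-1 : ZMod p) ^ n) ^ 2 = 1 := by
        rw [← pow_mul, mul_comm n 2, pow_mul]
        norm_num
      linear_combination (-1) ^ n * (h2 - h5) - h6 * 2 ^ n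
    have h7 : red p ((2 : ZMod (p ^ 2)) ^ n + ε * δ) = 2 * (-1) ^ n := by
      rw [map_add, map_mul, h3, map_pow, map_ofNat, h4, hεd, map_pow, map_neg, map_one]
      ring
    rw [h7]
    refine mul_ne_zero h20 (pow_ne_zero n ?_)
    exact neg_ne_zero.2 one_ne_zero
  have h2n : (2 : ZMod (p ^ 2)) ^ n = ε * δ :=
    sub_eq_zero.1 (eq_zero_of_unit_mul (unit_of_red hred) hfac)
  -- (2)
  have hF : F = 2 ^ n * e ^ 2 := by
    refine cancel_unit hunit8 ?_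
    rw [hT, ee]
    have h1 : (8 : ZMod (p ^ 2)) ^ n * 2 ^ n = 16 ^ n := by
      rw [← mul_pow]
      norm_num
    have h2 : (16 : ZMod (p ^ 2)) ^ n * ((-Q) ^ n) ^ 2 = 1 := by
      rw [← pow_mul, mul_comm n 2, pow_mul, ← mul_pow]
      have h3 : (16 : ZMod (p ^ 2)) * (-Q) ^ 2 = 1 := by
        linear_combination (4 * Q + 1) * eq4
      rw [h3, one_pow]
    linear_combination -(T ^ 2) * h2 - h1 * (T * (-Q) ^ n) ^ 2
  -- (3)
  have hpp : (p : ZMod (p ^ 2)) = (a : ZMod (p ^ 2)) ^ 2 + 2 * (b : ZMod (p ^ 2)) ^ 2 := by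
    have h1 := congrArg (fun x : ℤ => (x : ZMod (p ^ 2))) hab
    simpa using h1
  have hz1 : U ^ 2 * e ^ 2 * δ = 1 := by
    linear_combination ez + Z * hpsq
  have h3 : e ^ 2 * δ = ((a : ZMod (p ^ 2)) - (b : ZMod (p ^ 2)) * B) ^ 2 := by
    linear_combination ((a : ZMod (p ^ 2)) - (b : ZMod (p ^ 2)) * B) ^ 2 * hz1 -
      e ^ 2 * δ * (U * ((a : ZMod (p ^ 2)) - (b : ZMod (p ^ 2)) * B) + 1) * eu'
  have h5 : ε * F = ((a : ZMod (p ^ 2)) - (b : ZMod (p ^ 2)) * B) ^ 2 := by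
    rw [hF, h2n, ← h3]
    linear_combination δ * e ^ 2 * hε
  have h6 : ((a : ZMod (p ^ 2)) + (b : ZMod (p ^ 2)) * B) ^ 2 = 0 := by
    rw [eu]
    linear_combination U ^ 2 * hpsq
  rw [h5]
  linear_combination -h6 + 2 * (b : ZMod (p ^ 2)) ^ 2 * eβ + 2 * hpp

end MPf96
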