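import Mathlib

/-! The endomorphism `β` (`β^2 = -2`) of `y^2 = x^3 - 30 x + 56`: polynomial identities. -/

set_option autoImplicit false

open Polynomial

namespace MPf96.CM

variable {O : Type} [CommRing O]

/-- the numerator of `x ∘ β` -/
noncomputable def N8 (O : Type) [CommRing O] : O[X] := X ^ 2 - C 4 * X + C 18

/-- the denominator of `x ∘ β` -/
noncomputable def D8 (O : Type) [CommRing O] : O[X] := C (-2) * X + C 8

/-- `y ∘ β` is `y W8 / D8^2` -/
noncomputable def W8 (β : O) : O[X] := C β * (X ^ 2 - C 8 * X - C 2)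

/-- the numerator of `x ∘ (1 - β)` -/
noncomputable def N83 (β : O) : O[X] :=
  X ^ 3 + C (-4 - 2 * β) * X ^ 2 + C (-46 + 28 * β) * X + C (112 - 80 * β)

/-- the denominator of `x ∘ (1 - β)` -/
noncomputable def D83 (β : O) : O[X] :=
  C (-1 - 2 * β) * X ^ 2 + C (-4 + 10 * β) * X + C (14 - 8 * β)

theorem ht8a_b {β : O} (hβ : β ^ 2 = -2) : (C β : O[X]) ^ 2 = -2 := by
  rw [← C_pow, hβ, C_neg, map_ofNat]

theorem iso8_curve {β : O} (hβ : β ^ 2 = -2) :
    (X ^ 3 + C (-30) * X + C 56) * W8 β ^ 2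
      = D8 O * (N8 O ^ 3 + C (-30) * N8 O * D8 O ^ 2 + C 56 * D8 O ^ 3) := by
  have hb := ht8a_b hβ
  unfold N8 D8 W8
  simp only [map_neg, map_ofNat]
  generalize (C β : O[X]) = b at hb ⊢
  linear_combination ((X ^ 3 - 30 * X + 56) * (X ^ 2 - 8 * X - 2) ^ 2) * hb

theorem iso8_deriv {β : O} (hβ : β ^ 2 = -2) :
    derivative (N8 O) * D8 O - N8 O * derivative (D8 O) = C β * W8 β := by
  have hb := ht8a_b hβ
  unfold N8 D8 W8
  simp only [derivative_add, derivative_sub, derivative_C_mul, derivative_X_pow, derivative_C,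
    derivative_X]
  simp only [map_neg, map_ofNat, Nat.cast_ofNat]
  generalize (C β : O[X]) = b at hb ⊢
  linear_combination (-(X ^ 2 - 8 * X - 2)) * hb

theorem iso8_bezout (O : Type) [CommRing O] : 2 * N8 O + X * D8 O = C 36 := by
  unfold N8 D8
  simp only [map_neg, map_ofNat]
  ring

/-- `x(P1 - Pb) D83 = f N83`: the chord identity -/
theorem iso8_chord {β : O} (hβ : β ^ 2 = -2) :
    N83 β * (D8 O ^ 2 * (X * D8 O - N8 O) ^ 2) =
      D83 β * ((X ^ 3 + C (-30) * X + C 56) * (D8 O ^ 2 + W8 β) ^ 2 -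
        (X * D8 O + N8 O) * D8 O * (X * D8 O - N8 O) ^ 2) := by
  have hb := ht8a_b hβ
  unfold N8 D8 W8 N83 D83
  simp only [map_neg, map_ofNat, map_add, map_sub, map_mul, map_one]
  generalize (C β : O[X]) = b at hb ⊢
  linear_combination
    ((-117824) + (-219120) * X + (864192) * X ^ 2 + (-863424) * X ^ 3 + (395904) * X ^ 4
      + (-83976) * X ^ 5 + (2832) * X ^ 6 + (2064) * X ^ 7 + (-348) * X ^ 8 + (17) * X ^ 9
      + b * ((1792) + (11136) * X + (2928) * X ^ 2 + (-42192) * X ^ 3 + (36264) * X ^ 4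
      + (-10824) * X ^ 5 + (708) * X ^ 6 + (228) * X ^ 7 + (-42) * X ^ 8 + (2) * X ^ 9)) * hb

theorem iso8_den {β : O} (hβ : β ^ 2 = -2) :
    D83 β = C (-1 - 2 * β) * (X - C (2 + β)) ^ 2 := by
  have hb := ht8a_b hβ
  unfold D83
  simp only [map_neg, map_ofNat, map_add, map_sub, map_mul, map_one]
  generalize (C β : O[X]) = b at hb ⊢
  linear_combination ((9) + (-4) * X + b * 2) * hb

end MPf96.CM
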