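import Pool.Agent.H.MP_f96d9d_nt.Q2.CM.Ht8A
import Pool.Agent.H.MP_7425ae_nt.HtDef
import Pool.Agent.H.MP_7425ae_nt.HtDer

/-! The points `1` and `β` (`β^2 = -2`) of the twisted curve `y^2 = x^3 - 30 f^2 x + 56 f^3`,
`f = X^3 - 30 X + 56`.

Model: `H/MP_7425ae_nt/HtIsoB.lean` (the same for another curve; do not import that file, copy what
is needed; its generic lemmas `htisob_ns`, `htisob_pf_ne`, `htisob_two` are statements about
`Esw`, `pf` and can be copied, with names starting with `ht8b_`).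

`ns_1`: the equation `y^2 = x^3 + A f^2 x + B f^3` for `x = f X`, `y = f^2` is
`f^3 (X^3 + A X + B)`; nonsingular since `2 y ≠ 0`.
`ns_b`: `x = f N8 / D8`, `y = f^2 W8 / D8^2`: `y^2 = f^4 W8^2 / D8^4 = f^3 (f W8^2) / D8^4` and
`iso8_curve` says `f W8^2 = D8 (N8^3 - 30 N8 D8^2 + 56 D8^3)`. `y ≠ 0` since `W8 ≠ 0` (its
coefficient of `X^2` is `β`, and `β = 0` would give `2 = 0`), `D8 ≠ 0` (coefficient `-2`).
`good_P1`: `N = X`, `D = 1`. `good_Pb`: `N = N8` is monic of degree 2, `D = D8` has degree 1 < 2,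
coprime by `iso8_bezout` and `36 = 2^2 3^2` a unit.
`gam_P1`: `f δx - x δf = f (δf X + f) - f X δf = f^2`. `gam_Pb`: with `x = f N8 / D8`,
`f δx - x δf = f^2 (N8' D8 - N8 D8') / D8^2 = f^2 β W8 / D8^2` by `iso8_deriv`
(differentiate `x D8 = f N8`). -/

set_option autoImplicit false

open Polynomial Pool.Agent.H.MP_7425ae_nt

namespace MPf96.CM

variable {O : Type} [CommRing O] [IsDomain O]

section field

variable {K : Type} [Field K]

theorem ht8b_eq {F X N W D c d : K} (hD : D ≠ 0) (hF : F = X ^ 3 + c * X + d)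
    (h : (X ^ 3 + c * X + d) * W ^ 2 = D * (N ^ 3 + c * N * D ^ 2 + d * D ^ 3)) :
    (F ^ 2 * W / D ^ 2) ^ 2 = (F * N / D) ^ 3 + (c * F ^ 2) * (F * N / D) + d * F ^ 3 := by
  rw [← hF] at h
  have e1 : (F ^ 2 * W / D ^ 2) ^ 2 = F ^ 3 * (F * W ^ 2) / D ^ 4 := by
    field_simp
  rw [e1, h]
  field_simp

theorem ht8b_ns {a4 a6 x y : K} (h2 : (2 : K) ≠ 0) (hy : y ≠ 0)
    (h : y ^ 2 = x ^ 3 + a4 * x + a6) : (Esw a4 a6).toAffine.Nonsingular x y := by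
  rw [WeierstrassCurve.Affine.nonsingular_iff', WeierstrassCurve.Affine.equation_iff]
  have e1 : (Esw a4 a6).toAffine.a₁ = 0 := rfl
  have e2 : (Esw a4 a6).toAffine.a₂ = 0 := rfl
  have e3 : (Esw a4 a6).toAffine.a₃ = 0 := rfl
  have e4 : (Esw a4 a6).toAffine.a₄ = a4 := rfl
  have e6 : (Esw a4 a6).toAffine.a₆ = a6 := rfl
  rw [e1, e2, e3, e4, e6]
  refine ⟨by linear_combination h, Or.inr ?_⟩
  rw [zero_mul, add_zero, add_zero]
  exact mul_ne_zero h2 hy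

theorem ht8b_gam {δ : K → K} (hδ : IsDer δ) {F N W D N' D' β : K} (hD : D ≠ 0)
    (hN : δ N = N') (hD' : δ D = D') (h : N' * D - N * D' = β * W) :
    F * δ (F * N / D) - (F * N / D) * δ F = β * (F ^ 2 * W / D ^ 2) := by
  have hx : (F * N / D) * D = F * N := by
    field_simp
  have h1 := congrArg δ hx
  rw [hδ.mul, hδ.mul, hN, hD'] at h1
  have hD2 : D ^ 2 ≠ 0 := pow_ne_zero _ hD
  have e1 : β * (F ^ 2 * W / D ^ 2) = F ^ 2 * (β * W) / D ^ 2 := by ring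
  rw [e1, eq_div_iff hD2, ← h]
  generalize hg : F * N / D = x at *
  linear_combination (F * D) * h1 + (-(δ F) * D - F * D') * hx

end field

theorem ht8b_pf_ne {P : O[X]} (hP : P ≠ 0) : pf P ≠ 0 := by
  intro h
  apply hP
  exact (map_eq_zero_iff (pf : O[X] →+* FF O) (IsFractionRing.injective O[X] (FF O))).1 h

theorem ht8b_fX : pf (fX (-30 : O) 56)
    = pf X ^ 3 + pf (C (-30 : O)) * pf X + pf (C (56 : O)) := by
  unfold fX
  rw [map_add, map_add, map_mul, map_pow]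

theorem ht8b_fne : pf (fX (-30 : O) 56) ≠ 0 := ht8b_pf_ne (fX_ne_zero _ _)

theorem ht8b_two (h2 : IsUnit (2 : O)) : (2 : FF O) ≠ 0 := by
  have h : pf (C (2 : O)) ≠ 0 := ht8b_pf_ne (by
    rw [Ne, C_eq_zero]
    exact h2.ne_zero)
  have e : pf (C (2 : O)) = 2 := by
    rw [map_ofNat C 2, map_ofNat]
  rwa [e] at h

theorem ht8b_D (h2 : IsUnit (2 : O)) : D8 O ≠ 0 := by
  intro h
  have c1 : (D8 O).coeff 1 = -2 := by
    unfold D8
    simp [coeff_C]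
  rw [h, coeff_zero] at c1
  exact h2.ne_zero (neg_eq_zero.1 c1.symm)

theorem ht8b_W {β : O} (hβ : β ^ 2 = -2) (h2 : IsUnit (2 : O)) : W8 β ≠ 0 := by
  intro h
  have c2 : (W8 β).coeff 2 = β := by
    unfold W8
    rw [coeff_C_mul, coeff_sub, coeff_sub, coeff_X_pow, coeff_C_mul, coeff_X, coeff_C]
    norm_num
  rw [h, coeff_zero] at c2
  rw [← c2] at hβ
  apply h2.ne_zero
  linear_combination hβ

theorem ht8b_N : (N8 O).Monic ∧ (N8 O).natDegree = 2 ∧ (N8 O).degree = 2 := by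
  have e : N8 O = X ^ 2 + (C (-4) * X + C 18) := by
    unfold N8
    rw [C_neg]
    ring
  have hd : (C (-4 : O) * X + C 18 : O[X]).degree < ((2 : ℕ) : WithBot ℕ) := degree_linear_lt
  have hm : (N8 O).Monic := by
    rw [e]
    exact monic_X_pow_add hd
  have hn : (N8 O).natDegree = 2 := by
    rw [e]
    exact (natDegree_add_eq_left_of_degree_lt (by rw [degree_X_pow]; exact hd)).trans (natDegree_X_pow 2)
  refine ⟨hm, hn, ?_⟩
  rw [degree_eq_natDegree hm.ne_zero, hn]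
  rfl

theorem ht8b_cop (h2 : IsUnit (2 : O)) (h3 : IsUnit (3 : O)) : IsCoprime (N8 O) (D8 O) := by
  have h36 : IsUnit (36 : O) := by
    have e : (36 : O) = 2 ^ 2 * 3 ^ 2 := by norm_num
    rw [e]
    exact (h2.pow 2).mul (h3.pow 2)
  obtain ⟨u, hu⟩ := h36.exists_left_inv
  refine ⟨C u * 2, C u * X, ?_⟩
  have h := iso8_bezout O
  calc C u * 2 * N8 O + C u * X * D8 O = C u * (2 * N8 O + X * D8 O) := by ring
    _ = C (u * 36) := by rw [h, C_mul]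
    _ = 1 := by rw [hu, C_1]

theorem ns_b {β : O} (hβ : β ^ 2 = -2) (h2 : IsUnit (2 : O)) (h3 : IsUnit (3 : O)) :
    (Esw (pf (C (-30 : O)) * pf (fX (-30 : O) 56) ^ 2)
      (pf (C (56 : O)) * pf (fX (-30 : O) 56) ^ 3)).toAffine.Nonsingular
      (pf (fX (-30 : O) 56) * pf (N8 O) / pf (D8 O))
      (pf (fX (-30 : O) 56) ^ 2 * pf (W8 β) / pf (D8 O) ^ 2) := by
  have hD : pf (D8 O) ≠ 0 := ht8b_pf_ne (ht8b_D h2)
  have hW : pf (W8 β) ≠ 0 := ht8b_pf_ne (ht8b_W hβ h2)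
  refine ht8b_ns (ht8b_two h2)
    (div_ne_zero (mul_ne_zero (pow_ne_zero _ ht8b_fne) hW) (pow_ne_zero _ hD)) ?_
  refine ht8b_eq hD ht8b_fX ?_
  have h := congrArg (pf : O[X] →+* FF O) (iso8_curve hβ)
  rw [map_mul, map_add, map_add, map_mul, map_mul, map_add, map_add, map_mul, map_mul, map_mul,
    map_pow, map_pow, map_pow, map_pow, map_pow] at h
  exact h

theorem ns_1 (h2 : IsUnit (2 : O)) :
    (Esw (pf (C (-30 : O)) * pf (fX (-30 : O) 56) ^ 2)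
      (pf (C (56 : O)) * pf (fX (-30 : O) 56) ^ 3)).toAffine.Nonsingular
      (pf (fX (-30 : O) 56) * pf X) (pf (fX (-30 : O) 56) ^ 2) := by
  refine ht8b_ns (ht8b_two h2) (pow_ne_zero _ ht8b_fne) ?_
  linear_combination (pf (fX (-30 : O) 56)) ^ 3 * ht8b_fX (O := O)

/-- the point `β` -/
noncomputable def Pb8 {β : O} (hβ : β ^ 2 = -2) (h2 : IsUnit (2 : O)) (h3 : IsUnit (3 : O)) :
    PtE (-30 : O) (56 : O) :=
  WeierstrassCurve.Affine.Point.some _ _ (ns_b hβ h2 h3)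

/-- the point `1` -/
noncomputable def P18 (h2 : IsUnit (2 : O)) : PtE (-30 : O) (56 : O) :=
  WeierstrassCurve.Affine.Point.some _ _ (ns_1 h2)

theorem good_P18 (h2 : IsUnit (2 : O)) : Good (-30 : O) 56 (P18 h2) 1 := by
  refine ⟨X, 1, monic_X, natDegree_X, ?_, isCoprime_one_right, ?_⟩
  · rw [degree_X, degree_one]
    exact zero_lt_one
  · change pf 1 ≠ 0 ∧ pf (fX (-30 : O) 56) * pf X * pf 1 = pf (fX (-30 : O) 56) * pf X
    rw [map_one, mul_one]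
    exact ⟨one_ne_zero, rfl⟩

theorem good_Pb8 {β : O} (hβ : β ^ 2 = -2) (h2 : IsUnit (2 : O)) (h3 : IsUnit (3 : O)) :
    Good (-30 : O) 56 (Pb8 hβ h2 h3) 2 := by
  have hD : pf (D8 O) ≠ 0 := ht8b_pf_ne (ht8b_D h2)
  refine ⟨N8 O, D8 O, ht8b_N.1, ht8b_N.2.1, ?_, ht8b_cop h2 h3, ?_⟩
  · rw [ht8b_N.2.2]
    unfold D8
    exact degree_linear_lt
  · change pf (D8 O) ≠ 0 ∧ pf (fX (-30 : O) 56) * pf (N8 O) / pf (D8 O) *
      pf (D8 O) = pf (fX (-30 : O) 56) * pf (N8 O)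
    exact ⟨hD, div_mul_cancel₀ _ hD⟩

theorem gam_P18 (h2 : IsUnit (2 : O)) {δ : FF O → FF O} (hδ : IsDer δ)
    (h : ∀ P : O[X], δ (pf P) = pf (derivative P)) :
    Gam δ (pf (fX (-30 : O) 56)) (P18 h2) 1 := by
  refine ⟨_, _, ns_1 h2, rfl, pow_ne_zero _ ht8b_fne, ?_⟩
  have h1 : δ (pf (X : O[X])) = 1 := by
    rw [h, derivative_X, map_one]
  rw [hδ.mul, h1]
  ring

theorem gam_Pb8 {β : O} (hβ : β ^ 2 = -2) (h2 : IsUnit (2 : O)) (h3 : IsUnit (3 : O))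
    {δ : FF O → FF O} (hδ : IsDer δ)
    (h : ∀ P : O[X], δ (pf P) = pf (derivative P)) :
    Gam δ (pf (fX (-30 : O) 56)) (Pb8 hβ h2 h3) (pf (C β)) := by
  have hD : pf (D8 O) ≠ 0 := ht8b_pf_ne (ht8b_D h2)
  have hW : pf (W8 β) ≠ 0 := ht8b_pf_ne (ht8b_W hβ h2)
  refine ⟨_, _, ns_b hβ h2 h3, rfl,
    div_ne_zero (mul_ne_zero (pow_ne_zero _ ht8b_fne) hW) (pow_ne_zero _ hD), ?_⟩
  refine ht8b_gam hδ hD (h (N8 O)) (h (D8 O)) ?_
  have h1 := congrArg (pf : O[X] →+* FF O) (iso8_deriv hβ)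
  rw [map_sub, map_mul, map_mul, map_mul] at h1
  exact h1

end MPf96.CM
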