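import Pool.Agent.H.MP_f96d9d_nt.Q2.CM.Ht8B

/-! The point `1 - β` is good of degree `3`.

Write `F = pf f`, `x1 = F X`, `y1 = F^2` (the point `P18`), `x2 = F N/D`, `y2 = F^2 W/D^2` (the
point `Pb8`; `N = N8`, `D = D8`, `W = W8 β`; all pushed through `pf`). `P18 - Pb8 = P18 + (-Pb8)`
and `-Pb8 = (x2, -y2)` (`WeierstrassCurve.Affine.Point.neg_some`, `negY` for `Esw` is `-y`, see
`htder_negY` in `H/MP_7425ae_nt/HtDer.lean`, also `htder_addX`: `addX = l^2 - x1 - x2`).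
`x1 ≠ x2`: otherwise `X D = N` in the function field, i.e. `X * D8 = N8` as polynomials, but the
coefficient of `X^2` of `X D8 - N8` is `-3`, a unit. So `Point.add_of_X_ne` applies; the slope is
`l = (y1 + y2)/(x1 - x2) = F (D^2 + W) / (D (X D - N))`, and the `x` coordinate `x3 = l^2 - x1 - x2`
satisfies `x3 D^2 (X D - N)^2 = F (F (D^2+W)^2 - (X D + N) D (X D - N)^2)`; with `iso8_chord`
(and `D (XD-N) ≠ 0`) this gives `x3 * D83 = F * N83`.
`N83` is monic of degree 3; `D83` has degree at most 2 and is not zero: by `iso8_den`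
`D83 = C(-1-2β) (X - (2+β))^2` and `(-1-2β)(-1+2β) = 1 - 4β^2 = 9` is a unit, so `-1-2β` is a unit.
Coprimality: `N83 = (X - (2+β)) Q + C (N83.eval (2+β))` and `N83.eval (2+β) = -16 (6 β)` or similar
(compute it with `β^2 = -2`: it is an element whose norm only involves the primes 2 and 3; exact
value `16 (14 + 8β)/(β - 2)`, so `(β - 2) * N83.eval(2+β) = 16 (14+8β)`, and
`(14+8β)(14-8β) = 324 = 2^2 3^4`, so it is a unit). Hence `IsCoprime N83 (X - C (2+β))` and so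
`IsCoprime N83 D83` (`IsCoprime.pow_right`, `isCoprime_mul_unit_left_right`). -/

set_option autoImplicit false

open Polynomial Pool.Agent.H.MP_7425ae_nt

namespace MPf96.CM

variable {O : Type} [CommRing O] [IsDomain O]

theorem ht8c_pf_ne {P : O[X]} (hP : P ≠ 0) : pf P ≠ 0 := by
  intro h
  apply hP
  exact (map_eq_zero_iff (pf : O[X] →+* FF O) (IsFractionRing.injective O[X] (FF O))).1 h

theorem ht8c_field {K : Type} [Field K] {F X n d w N D : K} (hF : F ≠ 0) (hd : d ≠ 0)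
    (he : X * d - n ≠ 0)
    (hc : N * (d ^ 2 * (X * d - n) ^ 2) =
      D * (F * (d ^ 2 + w) ^ 2 - (X * d + n) * d * (X * d - n) ^ 2)) :
    (((F ^ 2 - -(F ^ 2 * w / d ^ 2)) / (F * X - F * n / d)) ^ 2 - F * X - F * n / d) * D =
      F * N := by
  have h1 : F * X - F * n / d = F * (X * d - n) / d := by
    field_simp
  have h2 : (F ^ 2 - -(F ^ 2 * w / d ^ 2)) / (F * X - F * n / d) =
      F * (d ^ 2 + w) / (d * (X * d - n)) := by
    rw [h1]
    field_simp
    ring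
  have h3 : d ^ 2 * (X * d - n) ^ 2 ≠ 0 := mul_ne_zero (pow_ne_zero _ hd) (pow_ne_zero _ he)
  rw [h2]
  apply mul_right_cancel₀ h3
  have h4 : (F * (d ^ 2 + w) / (d * (X * d - n))) ^ 2 * (d ^ 2 * (X * d - n) ^ 2) =
      F ^ 2 * (d ^ 2 + w) ^ 2 := by
    rw [div_pow, mul_pow, mul_pow, ← mul_pow d, div_mul_cancel₀]
    rw [mul_pow]
    exact h3
  have h5 : F * n / d * d ^ 2 = F * n * d := by
    field_simp
  linear_combination D * h4 - D * (X * d - n) ^ 2 * h5 - F * hc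

theorem ht8c_D8 (h2 : IsUnit (2 : O)) : D8 O ≠ 0 := by
  intro h
  have c1 : (D8 O).coeff 1 = -2 := by
    unfold D8
    simp
  rw [h, coeff_zero] at c1
  exact h2.ne_zero (neg_eq_zero.1 c1.symm)

theorem ht8c_XD (h3 : IsUnit (3 : O)) : X * D8 O - N8 O ≠ 0 := by
  intro h
  have e : X * D8 O - N8 O = C (-3) * X ^ 2 + C 12 * X + C (-18) := by
    unfold D8 N8
    simp only [map_neg, map_ofNat]
    ring
  have c1 : (X * D8 O - N8 O).coeff 2 = -3 := by
    rw [e]
    simp only [coeff_add, coeff_C_mul, coeff_X_pow, coeff_X, coeff_C]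
    norm_num
  rw [h, coeff_zero] at c1
  exact h3.ne_zero (neg_eq_zero.1 c1.symm)

theorem ht8c_monic (β : O) : (N83 β).Monic ∧ (N83 β).natDegree = 3 := by
  unfold N83
  constructor
  · monicity!
  · compute_degree!

theorem ht8c_deg (β : O) : (D83 β).degree < (N83 β).degree := by
  have h1 : (D83 β).natDegree ≤ 2 := by
    unfold D83
    compute_degree
  have h4 : (N83 β).degree = (3 : ℕ) := by
    rw [degree_eq_natDegree (ht8c_monic β).1.ne_zero, (ht8c_monic β).2]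
  rw [h4]
  refine lt_of_le_of_lt (degree_le_of_natDegree_le h1) ?_
  exact_mod_cast (by norm_num : (2 : ℕ) < 3)

theorem ht8c_cop {β : O} (hβ : β ^ 2 = -2) (h2 : IsUnit (2 : O)) (h3 : IsUnit (3 : O)) :
    IsUnit (-1 - 2 * β) ∧ IsCoprime (N83 β) (D83 β) := by
  have u9 : IsUnit ((-1 - 2 * β) * (-1 + 2 * β)) := by
    have e : (-1 - 2 * β) * (-1 + 2 * β) = 3 * 3 := by linear_combination (-4) * hβ
    rw [e]
    exact h3.mul h3
  have u1 : IsUnit (-1 - 2 * β) := isUnit_of_mul_isUnit_left u9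
  refine ⟨u1, ?_⟩
  have ue' : IsUnit ((-32 - 80 * β) * (2 - 5 * β)) := by
    have e : (-32 - 80 * β) * (2 - 5 * β) = -(2 ^ 5 * 3 ^ 3) := by linear_combination 400 * hβ
    rw [e]
    exact ((h2.pow 5).mul (h3.pow 3)).neg
  have ue : IsUnit (-32 - 80 * β) := isUnit_of_mul_isUnit_left ue'
  obtain ⟨u, hu⟩ := ue.exists_left_inv
  have key : N83 β = (X - C (2 + β)) * (X ^ 2 + C (-2 - β) * X + C (-48 + 24 * β)) +
      C (-32 - 80 * β) := by
    have hb := ht8a_b hβ
    unfold N83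
    simp only [map_neg, map_ofNat, map_add, map_sub, map_mul]
    generalize (C β : O[X]) = b at hb ⊢
    linear_combination (24 - X) * hb
  have hcop : IsCoprime (N83 β) (X - C (2 + β)) := by
    refine ⟨C u, -(C u * (X ^ 2 + C (-2 - β) * X + C (-48 + 24 * β))), ?_⟩
    have hu' : C u * C (-32 - 80 * β) = (1 : O[X]) := by
      rw [← C_mul, hu, C_1]
    rw [key]
    linear_combination hu'
  rw [iso8_den hβ]
  have hC : IsUnit (C (-1 - 2 * β)) := isUnit_C.2 u1
  exact (isCoprime_mul_unit_left_right hC _ _).2 hcop.pow_right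

theorem good_sub8 {β : O} (hβ : β ^ 2 = -2) (h2 : IsUnit (2 : O)) (h3 : IsUnit (3 : O)) :
    Good (-30 : O) 56 (P18 h2 - Pb8 hβ h2 h3) 3 := by
  obtain ⟨hu, hcop⟩ := ht8c_cop hβ h2 h3
  refine ⟨N83 β, D83 β, (ht8c_monic β).1, (ht8c_monic β).2, ht8c_deg β, hcop, ?_⟩
  have hF : pf (fX (-30 : O) 56) ≠ 0 := ht8c_pf_ne (fX_ne_zero _ _)
  have hd : pf (D8 O) ≠ 0 := ht8c_pf_ne (ht8c_D8 h2)
  have he : pf X * pf (D8 O) - pf (N8 O) ≠ 0 := by
    rw [← map_mul, ← map_sub]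
    exact ht8c_pf_ne (ht8c_XD h3)
  have hD83 : pf (D83 β) ≠ 0 := by
    apply ht8c_pf_ne
    rw [iso8_den hβ]
    exact mul_ne_zero (isUnit_C.2 hu).ne_zero (pow_ne_zero _ (X_sub_C_ne_zero _))
  have hxne : pf (fX (-30 : O) 56) * pf X ≠ pf (fX (-30 : O) 56) * pf (N8 O) / pf (D8 O) := by
    intro h
    apply he
    rw [eq_div_iff hd, mul_assoc] at h
    rw [mul_left_cancel₀ hF h, sub_self]
  have hfX : pf (fX (-30 : O) 56) = pf (X ^ 3 + C (-30) * X + C 56) := rfl
  have hc : pf (N83 β) * (pf (D8 O) ^ 2 * (pf X * pf (D8 O) - pf (N8 O)) ^ 2) =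
      pf (D83 β) * (pf (fX (-30 : O) 56) * (pf (D8 O) ^ 2 + pf (W8 β)) ^ 2 -
        (pf X * pf (D8 O) + pf (N8 O)) * pf (D8 O) * (pf X * pf (D8 O) - pf (N8 O)) ^ 2) := by
    have h := congrArg (pf : O[X] →+* FF O) (iso8_chord hβ)
    rw [hfX]
    simp only [map_mul, map_sub, map_add, map_pow] at h ⊢
    exact h
  have hfield := ht8c_field hF hd he hc
  have hneg : -(Pb8 hβ h2 h3) = WeierstrassCurve.Affine.Point.some _ _
      ((WeierstrassCurve.Affine.nonsingular_neg _ _).2 (ns_b hβ h2 h3)) :=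
    WeierstrassCurve.Affine.Point.neg_some (ns_b hβ h2 h3)
  rw [sub_eq_add_neg, hneg]
  unfold P18
  rw [WeierstrassCurve.Affine.Point.add_of_X_ne hxne]
  refine ⟨hD83, ?_⟩
  rw [htder_addX, WeierstrassCurve.Affine.slope_of_X_ne hxne, htder_negY]
  exact hfield

end MPf96.CM
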