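import Mathlib

/-! Heights: induction on the lattice `Z + Z β`, norm form `a^2 + 2 b^2`.

The same proof as `lattice_heights` in `H/MP_7425ae_nt/HtLat.lean` (norm form `a^2 + a b + 5 b^2`
there): copy it and replace the form. Only `R`, `N` and the base cases use the form. -/

set_option autoImplicit false

namespace MPf96.CM

private theorem ht8l_nonneg (a b : ℤ) : 0 ≤ a ^ 2 + 2 * b ^ 2 := by positivity

/-- if `g(P1) = 1`, `g(P2) = 2`, `g(P1 - P2) = 3` then `g(a P1 + b P2) = a^2 + 2 b^2` -/
theorem lattice_heights8 {G : Type} [AddCommGroup G] (good : G → ℕ → Prop)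
    (h0 : good 0 0) (hneg : ∀ P h, good P h → good (-P) h)
    (hadd : ∀ P Q m n k, good P m → good Q n → good (P - Q) k →
      ∃ l : ℕ, good (P + Q) l ∧ k + l = 2 * m + 2 * n)
    (P1 P2 : G) (h1 : good P1 1) (h2 : good P2 2) (h12 : good (P1 - P2) 3) (a b : ℤ) :
    good (a • P1 + b • P2) (a ^ 2 + 2 * b ^ 2).natAbs := by
  set F : ℤ → ℤ → Prop := fun a b => good (a • P1 + b • P2) (a ^ 2 + 2 * b ^ 2).natAbs
    with hF
  have R : ∀ a b c d : ℤ, F a b → F c d → F (a - c) (b - d) → F (a + c) (b + d) := by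
    intro a b c d hab hcd hd
    simp only [hF] at hab hcd hd ⊢
    have e1 : (a • P1 + b • P2) - (c • P1 + d • P2) = (a - c) • P1 + (b - d) • P2 := by
      simp only [sub_smul]; abel
    have e2 : (a • P1 + b • P2) + (c • P1 + d • P2) = (a + c) • P1 + (b + d) • P2 := by
      simp only [add_smul]; abel
    obtain ⟨l, hl, hk⟩ := hadd _ _ _ _ _ hab hcd (by rw [e1]; exact hd)
    rw [e2] at hl
    have hll : l = ((a + c) ^ 2 + 2 * (b + d) ^ 2).natAbs := by
      zify at hk ⊢
      rw [abs_of_nonneg (ht8l_nonneg _ _), abs_of_nonneg (ht8l_nonneg _ _),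
        abs_of_nonneg (ht8l_nonneg _ _)] at hk
      rw [abs_of_nonneg (ht8l_nonneg _ _)]
      linarith
    rw [← hll]; exact hl
  have N : ∀ a b : ℤ, F a b → F (-a) (-b) := by
    intro a b hab
    simp only [hF] at hab ⊢
    have e1 : (-a) • P1 + (-b) • P2 = -(a • P1 + b • P2) := by
      simp only [neg_smul]; abel
    have e2 : (-a) ^ 2 + 2 * (-b) ^ 2 = a ^ 2 + 2 * b ^ 2 := by ring
    rw [e1, e2]; exact hneg _ _ hab
  have F00 : F 0 0 := by simp only [hF]; simpa using h0
  have F10 : F 1 0 := by simp only [hF]; simpa using h1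
  have F01 : F 0 1 := by simp only [hF]; simpa using h2
  have F1m : F 1 (-1) := by
    simp only [hF]
    have : (1 : ℤ) • P1 + (-1 : ℤ) • P2 = P1 - P2 := by simp [sub_eq_add_neg]
    rw [this]; simpa using h12
  have F11 : F 1 1 := by
    have := R 1 0 0 1 F10 F01 (by simpa using F1m)
    simpa using this
  have FA0 : ∀ n : ℕ, F n 0 ∧ F (n + 1) 0 := by
    intro n
    induction n with
    | zero => exact ⟨by simpa using F00, by simpa using F10⟩
    | succ n ih =>
      refine ⟨by simpa using ih.2, ?_⟩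
      have := R (n + 1) 0 1 0 ih.2 F10 (by simpa using ih.1)
      simpa using this
  have FZ0 : ∀ a : ℤ, F a 0 := by
    intro a
    rcases Int.eq_nat_or_neg a with ⟨n, rfl | rfl⟩
    · exact (FA0 n).1
    · simpa using N _ _ (FA0 n).1
  have FU : ∀ n : ℕ, F n 1 ∧ F (n + 1) 1 := by
    intro n
    induction n with
    | zero => exact ⟨by simpa using F01, by simpa using F11⟩
    | succ n ih =>
      refine ⟨by simpa using ih.2, ?_⟩
      have := R (n + 1) 1 1 0 ih.2 F10 (by simpa using ih.1)
      simpa using this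
  have Fm10 : F (-1) 0 := by simpa using N _ _ F10
  have FD : ∀ n : ℕ, F (-(n : ℤ)) 1 ∧ F (-(n : ℤ) + 1) 1 := by
    intro n
    induction n with
    | zero => exact ⟨by simpa using F01, by simpa using F11⟩
    | succ n ih =>
      have := R (-(n : ℤ)) 1 (-1) 0 ih.1 Fm10 (by simpa using ih.2)
      have e1 : -((n + 1 : ℕ) : ℤ) = -(n : ℤ) + -1 := by push_cast; ring
      have e2 : -((n + 1 : ℕ) : ℤ) + 1 = -(n : ℤ) := by push_cast; ring
      refine ⟨?_, ?_⟩
      · rw [e1]; simpa using this
      · rw [e2]; exact ih.1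
  have FZ1 : ∀ a : ℤ, F a 1 := by
    intro a
    rcases Int.eq_nat_or_neg a with ⟨n, rfl | rfl⟩
    · exact (FU n).1
    · exact (FD n).1
  have FN : ∀ (n : ℕ) (a : ℤ), F a n ∧ F a (n + 1) := by
    intro n
    induction n with
    | zero => intro a; exact ⟨by simpa using FZ0 a, by simpa using FZ1 a⟩
    | succ n ih =>
      intro a
      refine ⟨by simpa using (ih a).2, ?_⟩
      have := R a (n + 1) 0 1 (ih a).2 F01 (by simpa using (ih a).1)
      simpa using this
  have hall : ∀ a b : ℤ, F a b := by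
    intro a b
    rcases Int.eq_nat_or_neg b with ⟨n, rfl | rfl⟩
    · exact (FN n a).1
    · have := N _ _ (FN n (-a)).1
      simpa using this
  exact hall a b

end MPf96.CM
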