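import Pool.Agent.H.MP_f96d9d_nt.Q2.CM.Ht8C
import Pool.Agent.H.MP_f96d9d_nt.Q2.CM.Ht8L
import Pool.Agent.H.MP_7425ae_nt.HtStep
import Pool.Agent.H.MP_7425ae_nt.HtLat
import Pool.Agent.H.MP_7425ae_nt.HtDerFF

/-! The multiplication by `a + b β` in polynomial form, `β^2 = -2`.

The same proof as `cm_poly` in `H/MP_7425ae_nt/HtMain.lean` (do not import that file, copy what is
needed). Use `lattice_heights8` with `good_P18`, `good_Pb8`, `good_sub8`; `lattice_gam` (HtLat),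
`exists_der` (HtDerFF), `Gam.add`, `Gam.dbl`, `gam_P18`, `gam_Pb8`; the discriminant is
`4 (-30)^3 + 27 * 56^2 = -23328 = -(2^5 3^6)`. -/

set_option autoImplicit false

open Polynomial Pool.Agent.H.MP_7425ae_nt

namespace MPf96.CM

theorem ht8m_pf_inj {O : Type} [CommRing O] [IsDomain O] :
    Function.Injective (pf : O[X] →+* FF O) :=
  IsFractionRing.injective O[X] (FF O)

theorem ht8m_disc {O : Type} [CommRing O] (h2 : IsUnit (2 : O)) (h3 : IsUnit (3 : O)) :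
    IsUnit (4 * (-30 : O) ^ 3 + 27 * (56 : O) ^ 2) := by
  have h : 4 * (-30 : O) ^ 3 + 27 * (56 : O) ^ 2 = -(2 ^ 5 * 3 ^ 6) := by norm_num
  rw [h]
  exact ((h2.pow 5).mul (h3.pow 6)).neg

/-- the norm form is positive -/
theorem ht8m_norm {a b : ℤ} (h : (a ^ 2 + 2 * b ^ 2).natAbs = 0) : a = 0 ∧ b = 0 := by
  have h1 : a ^ 2 + 2 * b ^ 2 = 0 := Int.natAbs_eq_zero.mp h
  have hb : b = 0 := by
    have h2 : b ^ 2 = 0 := by nlinarith [sq_nonneg a, sq_nonneg b]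
    exact pow_eq_zero_iff (by norm_num) |>.mp h2
  subst hb
  refine ⟨?_, rfl⟩
  have h2 : a ^ 2 = 0 := by linarith
  exact pow_eq_zero_iff (by norm_num) |>.mp h2

/-- the final computation in the function field -/
theorem ht8m_field {K : Type} [Field K] {δ : K → K} (hδ : IsDer δ) (F A B x y n d g : K)
    (hF : F ≠ 0) (hy : y ^ 2 = x ^ 3 + A * F ^ 2 * x + B * F ^ 3) (hx : x * d = F * n)
    (hg : F * δ x - x * δ F = g * y) :
    F * (δ n * d - n * δ d) ^ 2 = g ^ 2 * (d * (n ^ 3 + A * n * d ^ 2 + B * d ^ 3)) := by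
  have h1 : δ (x * d) = δ (F * n) := by rw [hx]
  rw [hδ.mul, hδ.mul] at h1
  have h2 : F ^ 2 * (δ n * d - n * δ d) = g * y * d ^ 2 := by
    linear_combination (-F * d) * h1 + d ^ 2 * hg + (F * δ d + d * δ F) * hx
  have h3 : F ^ 3 * (F * (δ n * d - n * δ d) ^ 2) =
      F ^ 3 * (g ^ 2 * (d * (n ^ 3 + A * n * d ^ 2 + B * d ^ 3))) := by
    have h4 : F ^ 3 * (F * (δ n * d - n * δ d) ^ 2) = (F ^ 2 * (δ n * d - n * δ d)) ^ 2 := by ring
    have h5 : y ^ 2 * d ^ 4 = F ^ 3 * (d * (n ^ 3 + A * n * d ^ 2 + B * d ^ 3)) := by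
      rw [hy]
      linear_combination (d * ((x * d) ^ 2 + (x * d) * (F * n) + (F * n) ^ 2) +
        A * F ^ 2 * d ^ 3) * hx
    rw [h4, h2]
    linear_combination g ^ 2 * h5
  exact mul_left_cancel₀ (pow_ne_zero 3 hF) h3

/-- the endomorphism `a + b β` of `y^2 = x^3 - 30 x + 56`, `β^2 = -2` -/
theorem cm_poly8 {O : Type} [CommRing O] [IsDomain O] [UniqueFactorizationMonoid O]
    (h2 : IsUnit (2 : O)) (h3 : IsUnit (3 : O)) (β : O) (hβ : β ^ 2 = -2) (a b : ℤ)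
    (hab : ¬(a = 0 ∧ b = 0)) :
    ∃ N D : O[X], N.Monic ∧ N.natDegree = (a ^ 2 + 2 * b ^ 2).natAbs ∧
      D.degree < N.degree ∧ IsCoprime N D ∧
      (X ^ 3 + C (-30) * X + C 56) * (derivative N * D - N * derivative D) ^ 2
        = C (((a : O) + (b : O) * β) ^ 2) *
          (D * (N ^ 3 + C (-30) * N * D ^ 2 + C 56 * D ^ 3)) := by
  have hd := ht8m_disc h2 h3
  have hlat : ∀ a b : ℤ, Good (-30 : O) 56 (a • P18 h2 + b • Pb8 hβ h2 h3)
      (a ^ 2 + 2 * b ^ 2).natAbs :=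
    lattice_heights8 (fun P h => Good (-30 : O) 56 P h) (Good.zero _ _)
      (fun P h hP => hP.neg) (fun P Q m n k hP hQ hPQ => Good.add h2 hd hP hQ hPQ)
      (P18 h2) (Pb8 hβ h2 h3) (good_P18 h2) (good_Pb8 hβ h2 h3) (good_sub8 hβ h2 h3)
  have hinj : ∀ a b : ℤ, a • P18 h2 + b • Pb8 hβ h2 h3 = 0 → a = 0 ∧ b = 0 := by
    intro a b h
    have h1 := hlat a b
    rw [h] at h1
    exact ht8m_norm (h1.unique (Good.zero _ _))
  have haff : ∀ P : PtE (-30 : O) 56, (∃ a b : ℤ, ¬(a = 0 ∧ b = 0) ∧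
      P = a • P18 h2 + b • Pb8 hβ h2 h3) →
      ∃ (x y : FF O) (e : _), P = WeierstrassCurve.Affine.Point.some x y e ∧ y ≠ 0 := by
    rintro P ⟨a, b, hab, rfl⟩
    refine (hlat a b).affine ?_
    rcases Nat.eq_zero_or_pos (a ^ 2 + 2 * b ^ 2).natAbs with h | h
    · exact absurd (ht8m_norm h) hab
    · exact h
  obtain ⟨δ, hδ, hδp⟩ := exists_der O
  have hδC : ∀ c : O, δ (pf (C c)) = 0 := by
    intro c
    rw [hδp, derivative_C, map_zero]
  have hF : pf (fX (-30 : O) 56) ≠ 0 := by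
    rw [Ne, map_eq_zero_iff pf ht8m_pf_inj]
    exact fX_ne_zero _ _
  have h2F : (2 : FF O) ≠ 0 := by
    have h1 : (2 : O[X]) ≠ 0 := by
      have h3 : (2 : O[X]) = C (2 : O) := by rw [map_ofNat]
      rw [h3, Ne, C_eq_zero]
      exact h2.ne_zero
    have h3 : (2 : FF O) = pf (2 : O[X]) := by rw [map_ofNat]
    rw [h3, Ne, map_eq_zero_iff pf ht8m_pf_inj]
    exact h1
  have hgam : Gam δ (pf (fX (-30 : O) 56)) (a • P18 h2 + b • Pb8 hβ h2 h3)
      ((a : FF O) + (b : FF O) * pf (C β)) := by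
    refine lattice_gam (pf (C β)) (fun (P : PtE (-30 : O) 56) g =>
      Gam δ (pf (fX (-30 : O) 56)) P g) (P18 h2) (Pb8 hβ h2 h3) hinj
      (fun P g h => h.neg) ?_ ?_ (gam_P18 h2 hδ hδp) (gam_Pb8 hβ h2 h3 hδ hδp) a b hab
    · intro P Q g g' hP hQ hPQ hPQ' hex
      exact Gam.add hδ (pf (fX (-30 : O) 56)) (pf (C (-30))) (pf (C 56)) hF h2F
        (hδC _) (hδC _) hP hQ hPQ hPQ' (haff _ hex)
    · intro P g hP hex
      exact Gam.dbl hδ (pf (fX (-30 : O) 56)) (pf (C (-30))) (pf (C 56)) hF h2F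
        (hδC _) (hδC _) hP (haff _ hex)
  obtain ⟨N, D, hN, hNd, hDN, hco, hrep⟩ := hlat a b
  obtain ⟨x, y, e, hP, hy, hg⟩ := hgam
  rw [hP] at hrep
  obtain ⟨hD0, hx⟩ : pf D ≠ 0 ∧ x * pf D = pf (fX (-30 : O) 56) * pf N := hrep
  have heq := (WeierstrassCurve.Affine.equation_iff _ _).mp e.1
  simp only [Esw] at heq
  refine ⟨N, D, hN, hNd, hDN, hco, ?_⟩
  apply ht8m_pf_inj
  have key := ht8m_field hδ (pf (fX (-30 : O) 56)) (pf (C (-30))) (pf (C 56)) x y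
    (pf N) (pf D) ((a : FF O) + (b : FF O) * pf (C β)) hF (by linear_combination heq) hx hg
  rw [hδp, hδp] at key
  have hgC : (a : FF O) + (b : FF O) * pf (C β) = pf (C ((a : O) + (b : O) * β)) := by
    rw [C_add, C_mul, map_add, map_mul]
    simp
  rw [hgC] at key
  rw [C_pow]
  simp only [map_mul, map_pow, map_sub, map_add] at key ⊢
  unfold fX at key
  simp only [map_mul, map_pow, map_sub, map_add] at key
  exact key

end MPf96.CM
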