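import Mathlib

/-! The involution `x ↦ 2/x` (translation by the point of order 2) on pairs of polynomials.

`rf p P = X^p P(2/X)` for a polynomial `P` of degree at most `p`.

`rf_ode`: Let `f = X^3 + 4X^2 + 2X`, `W = N' D - N D'`. For a nonzero `a` in `K` and `P` of degree
at most `p`: `eval a (rf p P) = a^p eval (2/a) P` (write `P = ∑_{i ≤ p} P_i X^i`,
`Polynomial.eval_eq_sum_range'`), and
`a * eval a (rf p P)' = p eval a (rf p P) - a^p (2/a) eval (2/a) P'`
(both sides are `∑ (p - i) P_i 2^i a^(p-i)`). Hence with `N^ = rf p N`, `D^ = rf p D`, `b = 2/a`: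
`a (N^' D^ - N^ D^')(a) = - a^(2p) b W(b)`. Also `a^4 f(2/a) = 4 f(a)`. So
`4 f(a) a^2 (N^' D^ - N^ D^')(a)^2 = a^4 f(b) a^(4p) b^2 W(b)^2
 = a^(4p+2) * 4 * f(b) W(b)^2 = 4 a^(4p+2) π2 D(b) N(b) (N(b)^2 + 4 N(b) D(b) + 2 D(b)^2)
 = 4 a^2 π2 (D^ N^ (N^^2 + 4 N^ D^ + 2 D^^2))(a)`. The stated equation is 4 times
`f (N^' D^ - N^ D^')^2 = π2 N^ D^ (N^^2 + 4 N^ D^ + 2 D^^2)` (as
`(2D^)' N^ - 2 D^ N^' = -2 (N^' D^ - N^ D^')` and
`N^ (2 D^) ((2D^)^2 + 4 (2D^) N^ + 2 N^^2) = 4 N^ D^ (2 D^^2 + 4 D^ N^ + N^^2)`), so the two sides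
agree after evaluation at every nonzero `a`; multiply both sides by `X` and use
`Polynomial.funext` (a field of characteristic zero is infinite), then cancel `X`. -/

set_option autoImplicit false

open Polynomial Finset

namespace MPf96.CM

variable {K : Type} [Field K]

/-- `X^p P(2/X)` -/
noncomputable def rf (p : ℕ) (P : K[X]) : K[X] :=
  ∑ i ∈ range (p + 1), C (P.coeff i * 2 ^ i) * X ^ (p - i)

theorem coeff_rf (p : ℕ) (P : K[X]) {j : ℕ} (hj : j ≤ p) :
    (rf p P).coeff j = P.coeff (p - j) * 2 ^ (p - j) := by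
  rw [rf, finsetSum_coeff]
  simp only [coeff_C_mul_X_pow]
  rw [Finset.sum_eq_single (p - j)]
  · rw [if_pos (by omega)]
  · intro i hi hij
    rw [mem_range] at hi
    rw [if_neg (by omega)]
  · intro h
    exact absurd (mem_range.mpr (by omega)) h

theorem natDegree_rf (p : ℕ) (P : K[X]) : (rf p P).natDegree ≤ p := by
  rw [rf]
  refine natDegree_sum_le_of_forall_le _ _ fun i _ => ?_
  exact (natDegree_C_mul_X_pow_le _ _).trans (Nat.sub_le _ _)

theorem inv8a_eval (p : ℕ) (P : K[X]) (hP : P.natDegree ≤ p) {a : K} (ha : a ≠ 0) :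
    eval a (rf p P) = a ^ p * eval (2 / a) P := by
  rw [rf, eval_finsetSum, eval_eq_sum_range' (Nat.lt_succ_of_le hP), mul_sum]
  refine sum_congr rfl fun i hi => ?_
  rw [mem_range] at hi
  simp only [eval_mul, eval_C, eval_pow, eval_X]
  have h1 : a ^ p = a ^ (p - i) * a ^ i := by rw [← pow_add, Nat.sub_add_cancel (by omega)]
  rw [h1, div_pow]
  field_simp

theorem inv8a_deriv (p : ℕ) (P : K[X]) (hP : P.natDegree ≤ p) {a : K} (ha : a ≠ 0) :
    a * eval a (derivative (rf p P))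
      = p * eval a (rf p P) - a ^ p * (2 / a) * eval (2 / a) (derivative P) := by
  have h1 : a * eval a (derivative (rf p P))
      = ∑ i ∈ range (p + 1), ((p - i : ℕ) : K) * (P.coeff i * 2 ^ i) * a ^ (p - i) := by
    rw [rf, derivative_sum, eval_finsetSum, mul_sum]
    refine sum_congr rfl fun i _ => ?_
    rw [derivative_C_mul_X_pow]
    simp only [eval_mul, eval_C, eval_pow, eval_X]
    rcases Nat.eq_zero_or_pos (p - i) with h0 | h0
    · rw [h0]
      simp
    · have h2 : a ^ (p - i) = a * a ^ (p - i - 1) := by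
        rw [← pow_succ', Nat.sub_add_cancel h0]
      rw [h2]
      ring
  have h2 : (2 / a) * eval (2 / a) (derivative P)
      = ∑ i ∈ range (p + 1), (i : K) * P.coeff i * (2 / a) ^ i := by
    have hPs : derivative P = ∑ i ∈ range (p + 1), C (P.coeff i * (i : K)) * X ^ (i - 1) := by
      conv_lhs => rw [P.as_sum_range_C_mul_X_pow' (Nat.lt_succ_of_le hP)]
      rw [derivative_sum]
      exact sum_congr rfl fun i _ => derivative_C_mul_X_pow _ _
    rw [hPs, eval_finsetSum, mul_sum]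
    refine sum_congr rfl fun i _ => ?_
    simp only [eval_mul, eval_C, eval_pow, eval_X]
    rcases Nat.eq_zero_or_pos i with h0 | h0
    · rw [h0]
      simp
    · have h3 : (2 / a) ^ i = (2 / a) * (2 / a) ^ (i - 1) := by
        rw [← pow_succ', Nat.sub_add_cancel h0]
      rw [h3]
      ring
  have h3 : eval a (rf p P) = ∑ i ∈ range (p + 1), (P.coeff i * 2 ^ i) * a ^ (p - i) := by
    rw [rf, eval_finsetSum]
    simp only [eval_mul, eval_C, eval_pow, eval_X]
  rw [mul_assoc, h1, h2, h3, mul_sum, mul_sum, ← sum_sub_distrib]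
  refine sum_congr rfl fun i hi => ?_
  rw [mem_range] at hi
  have h4 : a ^ p = a ^ (p - i) * a ^ i := by rw [← pow_add, Nat.sub_add_cancel (by omega)]
  rw [h4, div_pow, Nat.cast_sub (by omega : i ≤ p)]
  field_simp

theorem inv8a_alg {a A n d n' d' N D N' D' π2 p b : K} (hab : a * b = 2) (hn : n = A * N)
    (hd : d = A * D) (hn' : a * n' = p * n - A * b * N') (hd' : a * d' = p * d - A * b * D')
    (h : (b ^ 3 + 4 * b ^ 2 + 2 * b) * (N' * D - N * D') ^ 2
        = π2 * (D * N * (N ^ 2 + 4 * N * D + 2 * D ^ 2))) :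
    a ^ 2 * ((a ^ 3 + 4 * a ^ 2 + 2 * a) * (2 * d' * n - 2 * d * n') ^ 2)
      = a ^ 2 * (π2 * (n * (2 * d) * ((2 * d) ^ 2 + 4 * (2 * d) * n + 2 * n ^ 2))) := by
  have hE : a * (d' * n - d * n') = A ^ 2 * b * (N' * D - N * D') := by
    have e1 : a * (d' * n - d * n') = (a * d') * n - d * (a * n') := by ring
    rw [e1, hn', hd', hn, hd]
    ring
  have hf : a ^ 4 * (b ^ 3 + 4 * b ^ 2 + 2 * b) = 4 * (a ^ 3 + 4 * a ^ 2 + 2 * a) := by
    have e1 : a ^ 4 * (b ^ 3 + 4 * b ^ 2 + 2 * b)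
        = a * (a * b) ^ 3 + 4 * a ^ 2 * (a * b) ^ 2 + 2 * a ^ 3 * (a * b) := by ring
    rw [e1, hab]
    ring
  calc a ^ 2 * ((a ^ 3 + 4 * a ^ 2 + 2 * a) * (2 * d' * n - 2 * d * n') ^ 2)
      = (4 * (a ^ 3 + 4 * a ^ 2 + 2 * a)) * (a * (d' * n - d * n')) ^ 2 := by ring
    _ = a ^ 4 * A ^ 4 * b ^ 2 * ((b ^ 3 + 4 * b ^ 2 + 2 * b) * (N' * D - N * D') ^ 2) := by
        rw [hE, ← hf]
        ring
    _ = a ^ 2 * (a * b) ^ 2 * (A ^ 4 * (π2 * (D * N * (N ^ 2 + 4 * N * D + 2 * D ^ 2)))) := by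
        rw [h]
        ring
    _ = a ^ 2 * (π2 * (n * (2 * d) * ((2 * d) ^ 2 + 4 * (2 * d) * n + 2 * n ^ 2))) := by
        rw [hab, hn, hd]
        ring

theorem rf_ode [CharZero K] (p : ℕ) (π2 : K) (N D : K[X]) (hN : N.natDegree ≤ p)
    (hD : D.natDegree ≤ p)
    (h : (X ^ 3 + 4 * X ^ 2 + 2 * X) * (derivative N * D - N * derivative D) ^ 2
        = C π2 * (D * N * (N ^ 2 + 4 * N * D + 2 * D ^ 2))) :
    (X ^ 3 + 4 * X ^ 2 + 2 * X) *
        (derivative (2 * rf p D) * rf p N - 2 * rf p D * derivative (rf p N)) ^ 2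
        = C π2 * (rf p N * (2 * rf p D) *
          ((2 * rf p D) ^ 2 + 4 * (2 * rf p D) * rf p N + 2 * (rf p N) ^ 2)) := by
  have key : ∀ a : K, a ≠ 0 →
      eval a ((X ^ 3 + 4 * X ^ 2 + 2 * X) *
        (derivative (2 * rf p D) * rf p N - 2 * rf p D * derivative (rf p N)) ^ 2)
      = eval a (C π2 * (rf p N * (2 * rf p D) *
          ((2 * rf p D) ^ 2 + 4 * (2 * rf p D) * rf p N + 2 * (rf p N) ^ 2))) := by
    intro a ha
    have hder : derivative (2 * rf p D) = 2 * derivative (rf p D) := by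
      have e : (2 : K[X]) = C 2 := (map_ofNat C 2).symm
      rw [e, derivative_C_mul]
    have hb := congrArg (eval (2 / a)) h
    have e2 : ∀ x : K, eval x (2 : K[X]) = 2 := fun x => by
      have e : (2 : K[X]) = C 2 := (map_ofNat C 2).symm
      rw [e, eval_C]
    have e4 : ∀ x : K, eval x (4 : K[X]) = 4 := fun x => by
      have e : (4 : K[X]) = C 4 := (map_ofNat C 4).symm
      rw [e, eval_C]
    rw [hder]
    simp only [eval_mul, eval_add, eval_sub, eval_pow, eval_X, eval_C, e2, e4] at hb ⊢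
    have hab : a * (2 / a) = 2 := by field_simp
    exact mul_left_cancel₀ (pow_ne_zero 2 ha)
      (inv8a_alg hab (inv8a_eval p N hN ha) (inv8a_eval p D hD ha) (inv8a_deriv p N hN ha)
        (inv8a_deriv p D hD ha) hb)
  have hX : (X : K[X]) * ((X ^ 3 + 4 * X ^ 2 + 2 * X) *
        (derivative (2 * rf p D) * rf p N - 2 * rf p D * derivative (rf p N)) ^ 2)
      = X * (C π2 * (rf p N * (2 * rf p D) *
          ((2 * rf p D) ^ 2 + 4 * (2 * rf p D) * rf p N + 2 * (rf p N) ^ 2))) := by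
    apply Polynomial.funext
    intro a
    rw [eval_mul, eval_mul (p := X)]
    by_cases ha : a = 0
    · rw [ha]
      simp
    · rw [key a ha]
  exact mul_left_cancel₀ X_ne_zero hX

end MPf96.CM
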