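import Pool.Agent.H.MP_f96d9d_nt.TExpl

/-! The truncated square `T = X G^2` of the logarithm, `f T'^2 ≡ 2 T`, `f = X^3 + 4X^2 + 2X`.

`ek K k = (-1/4)^k T_k(4,2)`; by `Texp_rec` (with `b = 4`, `c = 2`):
`2 (k+2) e_(k+2) = -2 (2k+3) e_(k+1) - (k+1) e_k`, `e_0 = 1`, `e_1 = -1`.
Let `q = 2 + 4X + X^2`, `E = ∑_{k<P} e_k X^k`, `G = ∑_{k<P} e_k/(2k+1) X^k`, `T = X G^2`.
The coefficient of `X^k` in `A = q E' + (2 + X) E` is `2(k+1) e_(k+1) + (4k+2) e_k + k e_(k-1)`,
which is zero for `k + 2 ≤ P`; so `X^(P-1) ∣ A`. `(q E^2)' = 2 E A`, so the coefficients of `q E^2`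
at `1, ..., P-1` vanish (characteristic 0) and `X^P ∣ q E^2 - 2`.
`G + 2 X G' = E`, so `T' = G^2 + 2 X G G' = G E` and
`f T'^2 - 2 T = X q G^2 E^2 - 2 X G^2 = X G^2 (q E^2 - 2)` is divisible by `X^(P+1)`.
(For `P = 0` everything is zero: `E = G = 0`; the theorems are stated for `1 ≤ P`.) -/

set_option autoImplicit false

open Polynomial Finset

namespace MPf96.CM

/-- `e_k = (-1/4)^k T_k(4,2)` -/
noncomputable def ek (K : Type) [Field K] (k : ℕ) : K := ((MPf96.Texp 4 2 k : ℤ) : K) * (-1 / 4) ^ k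

/-- `G = ∑_{k<P} e_k/(2k+1) X^k` -/
noncomputable def GG (K : Type) [Field K] (P : ℕ) : K[X] :=
  ∑ k ∈ range P, C (ek K k / (2 * (k : K) + 1)) * X ^ k

/-- `T = X G^2` -/
noncomputable def TT (K : Type) [Field K] (P : ℕ) : K[X] := X * GG K P ^ 2

variable {K : Type} [Field K] [CharZero K]

theorem ek_zero : ek K 0 = 1 := by
  simp [ek, MPf96.Texp_zero]

theorem ek_one : ek K 1 = -1 := by
  unfold ek
  rw [MPf96.Texp_one]
  norm_num

theorem ek_rec (k : ℕ) :
    2 * ((k : K) + 2) * ek K (k + 2) = -2 * (2 * (k : K) + 3) * ek K (k + 1) -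
      ((k : K) + 1) * ek K k := by
  have h := MPf96.Texp_rec 4 2 k
  have h' : (((k : ℤ) + 2) * MPf96.Texp 4 2 (k + 2) : ℤ) =
      (2 * (k : ℤ) + 3) * 4 * MPf96.Texp 4 2 (k + 1) - ((k : ℤ) + 1) * 8 * MPf96.Texp 4 2 k := by
    rw [h]
    ring
  have h2 := congrArg (Int.cast : ℤ → K) h'
  push_cast at h2
  have e2 : (-1 / 4 : K) ^ (k + 2) = (-1 / 4) ^ k * (1 / 16) := by
    rw [pow_add]
    norm_num
  have e1 : (-1 / 4 : K) ^ (k + 1) = (-1 / 4) ^ k * (-1 / 4) := by
    rw [pow_add]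
    norm_num
  unfold ek
  rw [e2, e1]
  linear_combination (2 * (-1 / 4 : K) ^ k * (1 / 16)) * h2

/-- coefficients -/
theorem log8a_coeff (a : ℕ → K) (P k : ℕ) :
    (∑ i ∈ range P, C (a i) * X ^ i : K[X]).coeff k = if k < P then a k else 0 := by
  rw [finset_sum_coeff]
  simp only [coeff_C_mul, coeff_X_pow, mul_ite, mul_one, mul_zero]
  rw [Finset.sum_ite_eq (range P) k a]
  simp

/-- `E = ∑_{k<P} e_k X^k` -/
noncomputable def log8a_E (K : Type) [Field K] (P : ℕ) : K[X] := ∑ k ∈ range P, C (ek K k) * X ^ k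

theorem log8a_coeff_E (P k : ℕ) : (log8a_E K P).coeff k = if k < P then ek K k else 0 :=
  log8a_coeff (fun k => ek K k) P k

theorem log8a_coeff_G (P k : ℕ) :
    (GG K P).coeff k = if k < P then ek K k / (2 * (k : K) + 1) else 0 :=
  log8a_coeff (fun k => ek K k / (2 * (k : K) + 1)) P k

theorem log8a_Xder (p : K[X]) (m : ℕ) : (X * derivative p).coeff m = (m : K) * p.coeff m := by
  cases m with
  | zero => simp
  | succ m =>
    rw [coeff_X_mul, coeff_derivative]
    push_cast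
    ring

theorem log8a_G_E (P : ℕ) : GG K P + C 2 * (X * derivative (GG K P)) = log8a_E K P := by
  ext k
  rw [coeff_add, coeff_C_mul, log8a_Xder, log8a_coeff_G, log8a_coeff_E]
  split_ifs with h
  · have h0 : (2 * (k : K) + 1) ≠ 0 := by exact_mod_cast Nat.succ_ne_zero (2 * k)
    field_simp
    ring
  · ring

theorem log8a_A {P : ℕ} (hP : 1 ≤ P) :
    (X : K[X]) ^ (P - 1) ∣ (C 2 + C 4 * X + X ^ 2) * derivative (log8a_E K P) + (C 2 + X) * log8a_E K P := by
  rw [X_pow_dvd_iff]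
  intro d hd
  have h1 : (C 2 + C 4 * X + X ^ 2) * derivative (log8a_E K P) + (C 2 + X) * log8a_E K P =
      C 2 * derivative (log8a_E K P) + C 4 * (X * derivative (log8a_E K P)) +
        X * (X * derivative (log8a_E K P)) + C 2 * log8a_E K P + X * log8a_E K P := by ring
  rw [h1]
  simp only [coeff_add, coeff_C_mul, log8a_Xder, coeff_derivative]
  cases d with
  | zero =>
    simp only [coeff_X_mul_zero, log8a_coeff_E]
    rw [if_pos (by omega), if_pos (by omega), ek_zero, ek_one]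
    norm_num
  | succ m =>
    rw [coeff_X_mul, coeff_X_mul, log8a_Xder, log8a_coeff_E, log8a_coeff_E, log8a_coeff_E, if_pos (by omega),
      if_pos (by omega), if_pos (by omega)]
    have h := ek_rec (K := K) m
    push_cast
    linear_combination h

theorem log8a_sq {P : ℕ} (hP : 1 ≤ P) :
    (X : K[X]) ^ P ∣ (C 2 + C 4 * X + X ^ 2) * log8a_E K P ^ 2 - C 2 := by
  have hd : derivative ((C 2 + C 4 * X + X ^ 2) * log8a_E K P ^ 2) =
      (C 2 * log8a_E K P) * ((C 2 + C 4 * X + X ^ 2) * derivative (log8a_E K P) + (C 2 + X) * log8a_E K P) := by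
    have h4 : (C (4 : K) : K[X]) = 2 * C 2 := by
      have h5 : (4 : K) = 2 * 2 := by norm_num
      rw [h5, C_mul]
      rfl
    have h22 : (C (2 : K) : K[X]) = 2 := rfl
    have hq : derivative (C 2 + C 4 * X + X ^ 2 : K[X]) = C 4 + 2 * X := by
      rw [derivative_add, derivative_add, derivative_C, derivative_C_mul, derivative_X, pow_two, derivative_mul,
        derivative_X]
      ring
    rw [pow_two (log8a_E K P), derivative_mul, derivative_mul, hq, h4, h22]
    ring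
  have hdv : (X : K[X]) ^ (P - 1) ∣ derivative ((C 2 + C 4 * X + X ^ 2) * log8a_E K P ^ 2) := by
    rw [hd]
    exact Dvd.dvd.mul_left (log8a_A hP) _
  rw [X_pow_dvd_iff] at hdv ⊢
  intro d hdP
  cases d with
  | zero =>
    have h0 : (log8a_E K P).coeff 0 = 1 := by
      rw [log8a_coeff_E, if_pos (by omega), ek_zero]
    have h1 : ((C 2 + C 4 * X + X ^ 2) * log8a_E K P ^ 2 - C 2 : K[X]).coeff 0 =
        2 * (log8a_E K P).coeff 0 ^ 2 - 2 := by
      simp [mul_coeff_zero, coeff_zero_eq_eval_zero]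
    rw [h1, h0]
    norm_num
  | succ m =>
    have h1 := hdv m (by omega)
    rw [coeff_derivative] at h1
    have h2 : ((m : K) + 1) ≠ 0 := by exact_mod_cast Nat.succ_ne_zero m
    have h3 := (mul_eq_zero.mp h1).resolve_right h2
    rw [coeff_sub, h3, coeff_C, if_neg (Nat.succ_ne_zero m), sub_zero]

theorem TT_ode {P : ℕ} (hP : 1 ≤ P) :
    X ^ (P + 1) ∣ (X ^ 3 + 4 * X ^ 2 + 2 * X) * (derivative (TT K P)) ^ 2 - 2 * TT K P := by
  have h22 : (C (2 : K) : K[X]) = 2 := rfl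
  have h44 : (C (4 : K) : K[X]) = 4 := rfl
  obtain ⟨q, hq⟩ := log8a_sq (K := K) hP
  have hE := log8a_G_E (K := K) P
  have hT : derivative (TT K P) = GG K P * log8a_E K P := by
    rw [← hE, TT, pow_two, derivative_mul, derivative_mul, derivative_X, h22]
    ring
  rw [hT, TT]
  refine ⟨GG K P ^ 2 * q, ?_⟩
  rw [h22, h44] at hq
  linear_combination (X * GG K P ^ 2) * hq

theorem TT_coeff_zero (P : ℕ) : (TT K P).coeff 0 = 0 := by
  simp [TT]

theorem TT_coeff_one {P : ℕ} (hP : 1 ≤ P) : (TT K P).coeff 1 = 1 := by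
  have h0 : (GG K P).coeff 0 = 1 := by
    rw [log8a_coeff_G, if_pos (by omega), ek_zero]
    simp
  have h1 : (TT K P).coeff (0 + 1) = (GG K P).coeff 0 ^ 2 := by
    rw [TT, coeff_X_mul]
    simp [pow_two, mul_coeff_zero]
  rw [h0] at h1
  simpa using h1

end MPf96.CM
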