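import Pool.Agent.H.MP_f96d9d_nt.Q2.CM.Inv8B

/-! `T(U) ≡ c T` for a solution `U` of `f U'^2 = c f(U)` and a polynomial `T` with
`f T'^2 ≡ 2 T mod X^m`, `f = X^3 + 4X^2 + 2X`.

Let `W = Polynomial.aeval U T` in `K⟦X⟧`. Chain rule: `d⁄dX W = (aeval U T') * d⁄dX U`
(`Derivation.map_aeval` for the derivation `PowerSeries.derivative K`, or prove it by
`Polynomial.induction_on`). So
`f W'^2 = f U'^2 (aeval U T')^2 = c (U^3+4U^2+2U) (aeval U T')^2 = c * aeval U (f T'^2)` (here `f` is
the polynomial), and `f T'^2 = 2 T + X^m R`, so `f W'^2 - 2 c W = c U^m (aeval U R)`, which is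
divisible by `X^m` since `X ∣ U`. For `W2 = c T` (coerced): `f W2'^2 = c^2 (2 T + X^m R)`, so
`f W2'^2 - 2 c W2 = c^2 X^m R`. Constant coefficients: `T_0 = 0`. Coefficients of `X`: for `W`:
`T = X (1 + X R')`, so `W = U (1 + U R'(U))` and `coeff 1 W = coeff 1 U = c`; for `W2`: `c T_1 = c`.
Now `ode_trunc`. -/

set_option autoImplicit false

open PowerSeries

namespace MPf96.CM

variable {K : Type} [Field K] [CharZero K]

omit [CharZero K] in
theorem log8b_const {U : K⟦X⟧} (h0 : constantCoeff U = 0) (P : Polynomial K) :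
    constantCoeff (Polynomial.aeval U P) = P.coeff 0 := by
  conv_lhs => rw [← Polynomial.divX_mul_X_add P]
  rw [map_add, map_mul, Polynomial.aeval_X, Polynomial.aeval_C, map_add, map_mul, h0, mul_zero,
    zero_add]
  rw [PowerSeries.algebraMap_apply]
  simp

omit [CharZero K] in
theorem log8b_chain (U : K⟦X⟧) (P : Polynomial K) :
    d⁄dX K (Polynomial.aeval U P) = Polynomial.aeval U (Polynomial.derivative P) * d⁄dX K U := by
  have := Derivation.map_aeval (D := d⁄dX K) P U
  rw [this, smul_eq_mul]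

omit [CharZero K] in
theorem log8b_f (U : K⟦X⟧) :
    Polynomial.aeval U (Polynomial.X ^ 3 + 4 * Polynomial.X ^ 2 + 2 * Polynomial.X : Polynomial K) =
      U ^ 3 + 4 * U ^ 2 + 2 * U := by
  simp only [map_add, map_mul, map_pow, Polynomial.aeval_X, map_ofNat]

omit [CharZero K] in
theorem log8b_coe :
    ((Polynomial.X ^ 3 + 4 * Polynomial.X ^ 2 + 2 * Polynomial.X : Polynomial K) : K⟦X⟧) =
      fps K := by
  unfold fps
  have h4 : ((4 : Polynomial K) : K⟦X⟧) = 4 := by
    exact map_ofNat (Polynomial.coeToPowerSeries.ringHom (R := K)) 4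
  have h2 : ((2 : Polynomial K) : K⟦X⟧) = 2 := by
    exact map_ofNat (Polynomial.coeToPowerSeries.ringHom (R := K)) 2
  simp only [Polynomial.coe_add, Polynomial.coe_mul, Polynomial.coe_pow, Polynomial.coe_X, h4, h2]

theorem log8b {c : K} (hc : c ≠ 0) {m : ℕ} {U : K⟦X⟧} (h0 : constantCoeff U = 0)
    (h1 : coeff 1 U = c) (h : fps K * (d⁄dX K U) ^ 2 = C c * (U ^ 3 + 4 * U ^ 2 + 2 * U))
    {T : Polynomial K} (hT0 : T.coeff 0 = 0) (hT1 : T.coeff 1 = 1)
    (hT : Polynomial.X ^ m ∣ (Polynomial.X ^ 3 + 4 * Polynomial.X ^ 2 + 2 * Polynomial.X) *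
      (Polynomial.derivative T) ^ 2 - 2 * T) :
    X ^ m ∣ Polynomial.aeval U T - C c * (T : K⟦X⟧) := by
  obtain ⟨R, hR⟩ := hT
  have hdT : (Polynomial.derivative T).coeff 0 = 1 := by
    rw [Polynomial.coeff_derivative, zero_add, hT1]
    simp
  have hdV : d⁄dX K (C c * (T : K⟦X⟧)) = C c * ((Polynomial.derivative T : Polynomial K) : K⟦X⟧) := by
    rw [Derivation.leibniz, PowerSeries.derivative_C, smul_zero, add_zero, smul_eq_mul,
      PowerSeries.derivative_coe]
  apply ode_trunc hc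
  · rw [log8b_const h0, hT0]
  · rw [map_mul, constantCoeff_C, ← coeff_zero_eq_constantCoeff_apply, Polynomial.coeff_coe, hT0,
      mul_zero]
  · rw [← inv8b_const_deriv, log8b_chain, map_mul, log8b_const h0, hdT, inv8b_const_deriv, h1,
      one_mul]
  · rw [coeff_C_mul, Polynomial.coeff_coe, hT1, mul_one]
  · rw [log8b_chain]
    have e1 := congrArg (Polynomial.aeval U) hR
    rw [map_sub, map_mul, map_mul, map_mul, map_pow, map_pow, log8b_f, Polynomial.aeval_X,
      map_ofNat] at e1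
    have e2 : fps K * (Polynomial.aeval U (Polynomial.derivative T) * d⁄dX K U) ^ 2 -
        2 * C c * Polynomial.aeval U T = U ^ m * (C c * Polynomial.aeval U R) := by
      linear_combination (Polynomial.aeval U (Polynomial.derivative T)) ^ 2 * h + C c * e1
    rw [e2]
    exact (pow_dvd_pow_of_dvd (X_dvd_iff.2 h0) m).mul_right _
  · rw [hdV]
    have e1 := congrArg (fun P : Polynomial K => (P : K⟦X⟧)) hR
    simp only [Polynomial.coe_sub, Polynomial.coe_mul, Polynomial.coe_pow, Polynomial.coe_X] at e1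
    have h2 : ((2 : Polynomial K) : K⟦X⟧) = 2 := by
      exact map_ofNat (Polynomial.coeToPowerSeries.ringHom (R := K)) 2
    rw [log8b_coe, h2] at e1
    have e2 : fps K * (C c * ((Polynomial.derivative T : Polynomial K) : K⟦X⟧)) ^ 2 -
        2 * C c * (C c * (T : K⟦X⟧)) = X ^ m * (C c ^ 2 * (R : K⟦X⟧)) := by
      linear_combination C c ^ 2 * e1
    rw [e2]
    exact dvd_mul_right _ _

end MPf96.CM
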