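import Mathlib

/-! The 2-isogeny identity for quadratic character sums and `T_n(b,c)` modulo `p`.

`iso_sum`: `F = ZMod p`, `p` odd, `b ≠ 0`, `χ` the quadratic character. For `x ≠ 0`:
`χ(x (x^2 + a x + b)) = χ(x^2 (x + a + b/x)) = χ(x + b/x + a)`. Group by `w = x + b/x`, i.e.
`x^2 - w x + b = 0` (no root is `0` since `b ≠ 0`): the number of `x` is `1 + χ(w^2 - 4 b)`
(complete the square: `(2x - w)^2 = w^2 - 4b`; `quadraticChar_card_sqrts`). So the sum is
`∑_w χ(w + a) (1 + χ(w^2 - 4b)) = ∑_w χ(w + a) χ(w^2 - 4 b)` as `∑_w χ(w + a) = 0`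
(`MulChar.sum_eq_zero..`, `quadraticChar_sum_zero`). Substitute `w = v - a`:
`∑_v χ(v ((v - a)^2 - 4 b)) = ∑_v χ(v (v^2 - 2 a v + a^2 - 4 b))`.

`coeff_sum`: `n = (p-1)/2`; for `y` in `ZMod p`, `χ(y) = y^n` (`quadraticChar_eq_pow_of_char_ne_two'`).
`(x (x^2 + b x + c))^n = ∑_{k ≤ 2n} t_k x^(n+k)`, `t_k` the coefficients of
`(X^2 + C b X + C c)^n`; `∑_x x^m` is `-1` for `m > 0` divisible by `p - 1 = 2n` and 0 for the other
`m > 0` (`FiniteField.sum_pow_lt_card_sub_one` for `m < p - 1`; or the Omega.lean lemma; prove what is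
needed: `n ≤ n + k ≤ 3n`, only `k = n` gives a multiple of `2n`). So the sum is `-t_n`. -/

set_option autoImplicit false

namespace MPf96

open Polynomial Finset

private theorem ss1_sum_pow (p : ℕ) [Fact p.Prime] (m : ℕ) (hm : m ≠ 0) :
    ∑ x : ZMod p, x ^ m = if p - 1 ∣ m then -1 else 0 := by
  have h := FiniteField.sum_pow_units (ZMod p) m
  rw [ZMod.card] at h
  rw [← h]
  classical
  have h1 : ∑ x : ZMod p, x ^ m = ∑ x ∈ univ.filter (fun x : ZMod p => x ≠ 0), x ^ m := by
    rw [Finset.sum_filter]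
    refine Finset.sum_congr rfl fun x _ => ?_
    split_ifs with hx
    · rfl
    · have : x = 0 := by
        by_contra h'
        exact hx h'
      rw [this, zero_pow hm]
  rw [h1]
  symm
  refine Finset.sum_bij (fun u _ => (u : ZMod p)) ?_ ?_ ?_ ?_
  · intro u _
    simp
  · intro a _ b _ hab
    exact Units.ext hab
  · intro b hb
    exact ⟨Units.mk0 b (by simpa using hb), by simp, rfl⟩
  · intro u _
    rfl

private theorem ss1_card (p : ℕ) [Fact p.Prime] (h2 : p ≠ 2) (b w : ZMod p) (hb : b ≠ 0) :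
    ((univ.filter (fun x : ZMod p => x ≠ 0 ∧ x + b / x = w)).card : ℤ) =
      quadraticChar (ZMod p) (w ^ 2 - 4 * b) + 1 := by
  have hr : ringChar (ZMod p) ≠ 2 := by rwa [ZMod.ringChar_zmod_n]
  have h20 : (2 : ZMod p) ≠ 0 := Ring.two_ne_zero hr
  rw [← quadraticChar_card_sqrts hr]
  congr 1
  refine Finset.card_bij (fun x _ => 2 * x - w) ?_ ?_ ?_
  · intro x hx
    obtain ⟨hx0, hxw⟩ := (Finset.mem_filter.1 hx).2
    rw [Set.mem_toFinset]
    show (2 * x - w) ^ 2 = w ^ 2 - 4 * b
    rw [← hxw]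
    field_simp
    ring
  · intro x _ y _ hxy
    have : 2 * x = 2 * y := by linear_combination hxy
    exact mul_left_cancel₀ h20 this
  · intro y hy
    rw [Set.mem_toFinset] at hy
    have hy' : y ^ 2 = w ^ 2 - 4 * b := hy
    have h40 : (4 : ZMod p) ≠ 0 := by
      have : (4 : ZMod p) = 2 * 2 := by norm_num
      rw [this]
      exact mul_ne_zero h20 h20
    have hx0 : (y + w) / 2 ≠ 0 := by
      intro h0
      have h1 : y + w = 0 := by
        rcases div_eq_zero_iff.1 h0 with h | h
        · exact h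
        · exact absurd h h20
      have h3 : y = -w := by linear_combination h1
      rw [h3] at hy'
      have h4 : 4 * b = 0 := by linear_combination hy'
      exact hb ((mul_eq_zero.1 h4).resolve_left h40)
    refine ⟨(y + w) / 2, ?_, by field_simp; ring⟩
    rw [Finset.mem_filter]
    refine ⟨Finset.mem_univ _, hx0, ?_⟩
    have hyw : y + w ≠ 0 := fun h => hx0 (by rw [h, zero_div])
    have h5 : b / ((y + w) / 2) = (w - y) / 2 := by
      rw [div_div_eq_mul_div, div_eq_div_iff hyw h20]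
      linear_combination hy'
    rw [h5]
    field_simp
    ring

theorem iso_sum (p : ℕ) [Fact p.Prime] (h2 : p ≠ 2) (a b : ZMod p) (hb : b ≠ 0) :
    ∑ x : ZMod p, quadraticChar (ZMod p) (x * (x ^ 2 + a * x + b)) =
      ∑ x : ZMod p, quadraticChar (ZMod p) (x * (x ^ 2 - 2 * a * x + (a ^ 2 - 4 * b))) := by
  have hr : ringChar (ZMod p) ≠ 2 := by rwa [ZMod.ringChar_zmod_n]
  have e1 : ∑ x : ZMod p, quadraticChar (ZMod p) (x * (x ^ 2 + a * x + b)) =
      ∑ x ∈ univ.filter (fun x : ZMod p => x ≠ 0), quadraticChar (ZMod p) (x + b / x + a) := by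
    rw [Finset.sum_filter]
    refine Finset.sum_congr rfl fun x _ => ?_
    split_ifs with hx
    · have h3 : x * (x ^ 2 + a * x + b) = x ^ 2 * (x + b / x + a) := by
        field_simp
        ring
      rw [h3, map_mul, quadraticChar_sq_one' hx, one_mul]
    · have : x = 0 := by
        by_contra h'
        exact hx h'
      rw [this, zero_mul, MulChar.map_zero]
  have e2 : ∑ x ∈ univ.filter (fun x : ZMod p => x ≠ 0), quadraticChar (ZMod p) (x + b / x + a) =
      ∑ w : ZMod p, (quadraticChar (ZMod p) (w ^ 2 - 4 * b) + 1) *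
        quadraticChar (ZMod p) (w + a) := by
    rw [← Finset.sum_fiberwise (univ.filter (fun x : ZMod p => x ≠ 0)) (fun x => x + b / x)]
    refine Finset.sum_congr rfl fun w _ => ?_
    rw [← ss1_card p h2 b w hb, Finset.filter_filter, ← nsmul_eq_mul, ← Finset.sum_const]
    refine Finset.sum_congr rfl fun x hx => ?_
    rw [((Finset.mem_filter.1 hx).2).2]
  have e3 : ∑ w : ZMod p, quadraticChar (ZMod p) (w + a) = 0 :=
    (Equiv.sum_comp (Equiv.addRight a) (fun w => quadraticChar (ZMod p) w)).trans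
      (quadraticChar_sum_zero hr)
  have e4 : ∑ x : ZMod p, quadraticChar (ZMod p) (x * (x ^ 2 - 2 * a * x + (a ^ 2 - 4 * b))) =
      ∑ w : ZMod p, quadraticChar (ZMod p) (w ^ 2 - 4 * b) * quadraticChar (ZMod p) (w + a) := by
    rw [← Equiv.sum_comp (Equiv.addRight a)]
    refine Finset.sum_congr rfl fun w _ => ?_
    show quadraticChar (ZMod p) ((w + a) * ((w + a) ^ 2 - 2 * a * (w + a) + (a ^ 2 - 4 * b))) = _
    rw [← map_mul]
    congr 1
    ring
  rw [e1, e2, e4]
  simp only [add_mul, one_mul]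
  rw [Finset.sum_add_distrib, e3, add_zero]

theorem coeff_sum (p n : ℕ) [Fact p.Prime] (hn : p = 2 * n + 1) (b c : ZMod p) :
    ((∑ x : ZMod p, quadraticChar (ZMod p) (x * (x ^ 2 + b * x + c)) : ℤ) : ZMod p) =
      -((X ^ 2 + C b * X + C c) ^ n : (ZMod p)[X]).coeff n := by
  have hp1 : 1 < p := (Fact.out : p.Prime).one_lt
  have hn1 : 1 ≤ n := by omega
  have hr : ringChar (ZMod p) ≠ 2 := by
    rw [ZMod.ringChar_zmod_n]
    omega
  have hdeg : ((X ^ 2 + C b * X + C c) ^ n : (ZMod p)[X]).natDegree < 2 * n + 1 := by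
    have h1 : (X ^ 2 + C b * X + C c : (ZMod p)[X]).natDegree ≤ 2 := by compute_degree
    calc ((X ^ 2 + C b * X + C c) ^ n : (ZMod p)[X]).natDegree ≤ n * 2 :=
          natDegree_pow_le_of_le n h1
      _ < 2 * n + 1 := by omega
  have e1 : ∀ x : ZMod p, ((quadraticChar (ZMod p) (x * (x ^ 2 + b * x + c)) : ℤ) : ZMod p) =
      ∑ k ∈ range (2 * n + 1),
        ((X ^ 2 + C b * X + C c) ^ n : (ZMod p)[X]).coeff k * x ^ (n + k) := by
    intro x
    rw [quadraticChar_eq_pow_of_char_ne_two' hr, ZMod.card]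
    have h3 : p / 2 = n := by omega
    rw [h3, mul_pow]
    have h4 : (x ^ 2 + b * x + c) ^ n = ((X ^ 2 + C b * X + C c) ^ n : (ZMod p)[X]).eval x := by
      simp
    rw [h4, eval_eq_sum_range' hdeg, Finset.mul_sum]
    refine Finset.sum_congr rfl fun k _ => ?_
    rw [pow_add]
    ring
  rw [Int.cast_sum]
  simp only [e1]
  rw [Finset.sum_comm]
  simp only [← Finset.mul_sum]
  have e2 : ∀ k ∈ range (2 * n + 1), ((X ^ 2 + C b * X + C c) ^ n : (ZMod p)[X]).coeff k *
      ∑ x : ZMod p, x ^ (n + k) = if k = n then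
        -((X ^ 2 + C b * X + C c) ^ n : (ZMod p)[X]).coeff n else 0 := by
    intro k hk
    have hk' : k < 2 * n + 1 := Finset.mem_range.1 hk
    rw [ss1_sum_pow p (n + k) (by omega)]
    have h5 : p - 1 = 2 * n := by omega
    rw [h5]
    by_cases hkn : k = n
    · rw [if_pos hkn, hkn, if_pos (by rw [two_mul])]
      ring
    · rw [if_neg hkn, if_neg, mul_zero]
      rintro ⟨m, hm⟩
      have hm1 : m = 1 := by
        have h6 : 0 < m := by
          rcases Nat.eq_zero_or_pos m with h | h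
          · rw [h, mul_zero] at hm
            omega
          · exact h
        have h7 : m < 2 := by
          by_contra h8
          have h9 : 2 ≤ m := by omega
          have : 2 * n * 2 ≤ 2 * n * m := Nat.mul_le_mul_left _ h9
          omega
        omega
      rw [hm1] at hm
      omega
  rw [Finset.sum_congr rfl e2, Finset.sum_ite_eq' (range (2 * n + 1)) n, if_pos]
  exact Finset.mem_range.2 (by omega)

end MPf96
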