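import Pool.Agent.H.MP_f96d9d_nt.Q2.CM.Cla
import Pool.Agent.H.MP_f96d9d_nt.Q2.CM.SS1
import Pool.Agent.H.MP_f96d9d_nt.FOdd

/-! `F(1) = 0` modulo `p^2` for `p ≡ 5, 7 mod 8`.

Write `t(b,c)` for the coefficient of `X^n` in `(X^2 + C b X + C c)^n` over `ZMod p`. By
`coeff_sum` and `iso_sum` with `a = 4`, `b = 2`: `t(4,2) = t(-8, 8)`
(`x^2 - 8x + 16 - 8`). By `trin_T` `t(-8,8) = ∑ C(n,2j) C(2j,j) 8^j (-8)^(n-2j) = (-2)^n t(4,2)`
(`8 = (-2)^2 * 2`, `-8 = (-2) * 4`). `(-2)^n = -1` in `ZMod p`: `(-2/p) = -1` for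
`p ≡ 5, 7 mod 8` (`ZMod.exists_sq_eq_neg_two_iff`, `ZMod.pow_div_two_eq_neg_one_or_one`,
`ZMod.euler_criterion`, or `legendreSym`, `ZMod.χ₈'`). So `2 t(4,2) = 0`, `t(4,2) = 0`, and by
`trin_T` again `T_n(4,2) = 0` modulo `p`. Hence `p T = 0` in `ZMod (p^2)` and
`8^n F(1) = T^2 = 0` (`F1_T`, `sq_zero_of_p_mul` in `FOdd.lean`), `8^n` is a unit. -/

set_option autoImplicit false

namespace MPf96

open Polynomial Finset

private theorem ss2_pow {p n : ℕ} [hp : Fact p.Prime] (hn : p = 2 * n + 1)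
    (h8 : p % 8 = 5 ∨ p % 8 = 7) : (-2 : ZMod p) ^ n = -1 := by
  have h2 : p ≠ 2 := by omega
  have hne : (-2 : ZMod p) ≠ 0 := by
    rw [neg_ne_zero]
    intro h
    have h1 : ((2 : ℕ) : ZMod p) = 0 := by exact_mod_cast h
    rw [ZMod.natCast_eq_zero_iff] at h1
    have h3 := Nat.le_of_dvd (by norm_num) h1
    have h4 := hp.out.two_le
    omega
  have hns : ¬ IsSquare (-2 : ZMod p) := by
    rw [ZMod.exists_sq_eq_neg_two_iff h2]
    omega
  have hd : p / 2 = n := by omega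
  have h5 := ZMod.pow_div_two_eq_neg_one_or_one p hne
  rw [ZMod.euler_criterion p hne] at hns
  rw [hd] at h5 hns
  rcases h5 with h | h
  · exact absurd h hns
  · exact h

private theorem ss2_trin {p : ℕ} [hp : Fact p.Prime] (n : ℕ) :
    ((X ^ 2 + C (-8) * X + C 8) ^ n : (ZMod p)[X]).coeff n =
      (-2) ^ n * ((X ^ 2 + C 4 * X + C 2) ^ n : (ZMod p)[X]).coeff n := by
  rw [trin_T, trin_T, Finset.mul_sum]
  refine Finset.sum_congr rfl fun j hj => ?_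
  have hj2 : 2 * j ≤ n := by
    rw [Finset.mem_range] at hj
    omega
  have e1 : (8 : ZMod p) ^ j = (-2) ^ (2 * j) * 2 ^ j := by
    rw [pow_mul, ← mul_pow]
    norm_num
  have e2 : (-8 : ZMod p) ^ (n - 2 * j) = (-2) ^ (n - 2 * j) * 4 ^ (n - 2 * j) := by
    rw [← mul_pow]
    norm_num
  have e3 : (-2 : ZMod p) ^ n = (-2) ^ (2 * j) * (-2) ^ (n - 2 * j) := by
    rw [← pow_add, Nat.add_sub_cancel' hj2]
  rw [e1, e2, e3]
  ring

private theorem ss2_zero {p n : ℕ} [hp : Fact p.Prime] (hn : p = 2 * n + 1)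
    (h8 : p % 8 = 5 ∨ p % 8 = 7) :
    ((X ^ 2 + C 4 * X + C 2) ^ n : (ZMod p)[X]).coeff n = 0 := by
  have h2 : p ≠ 2 := by omega
  have h20 : (2 : ZMod p) ≠ 0 := by
    intro h
    have h1 : ((2 : ℕ) : ZMod p) = 0 := by exact_mod_cast h
    rw [ZMod.natCast_eq_zero_iff] at h1
    have h3 := Nat.le_of_dvd (by norm_num) h1
    have h4 := hp.out.two_le
    omega
  have a1 := coeff_sum p n hn 4 2
  have a2 := coeff_sum p n hn (-8) 8
  have a3 := iso_sum p h2 4 2 h20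
  have a4 : ∑ x : ZMod p, quadraticChar (ZMod p) (x * (x ^ 2 - 2 * 4 * x + (4 ^ 2 - 4 * 2))) =
      ∑ x : ZMod p, quadraticChar (ZMod p) (x * (x ^ 2 + -8 * x + 8)) := by
    refine Finset.sum_congr rfl fun x _ => ?_
    congr 1
    ring
  rw [a3, a4, a2, ss2_trin, ss2_pow hn h8] at a1
  have h5 : (2 : ZMod p) * ((X ^ 2 + C 4 * X + C 2) ^ n : (ZMod p)[X]).coeff n = 0 := by
    linear_combination a1
  exact (mul_eq_zero.1 h5).resolve_left h20

theorem F1_ss {p n : ℕ} [hp : Fact p.Prime] (hn : p = 2 * n + 1)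
    (h8 : p % 8 = 5 ∨ p % 8 = 7) : FF p n 1 = 0 := by
  have h2 : p ≠ 2 := by omega
  have h1 : ((Texp 4 2 n : ℤ) : ZMod p) = 0 := by
    rw [← ss2_zero hn h8, trin_T]
    unfold Texp
    push_cast
    rfl
  obtain ⟨z, hz⟩ := (ZMod.intCast_zmod_eq_zero_iff_dvd _ _).1 h1
  have h3 : (p : ZMod (p ^ 2)) * ((Texp 4 2 n : ℤ) : ZMod (p ^ 2)) = 0 := by
    rw [hz]
    push_cast
    rw [← mul_assoc, ← pow_two, p_sq, zero_mul]
  have h4 := F1_T hn
  rw [sq_zero_of_p_mul hp.out.pos h3] at h4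
  have h5 : IsUnit ((8 : ℕ) : ZMod (p ^ 2)) := by
    apply unit_nat
    intro h
    have h6 : p ∣ 2 ^ 3 := by
      norm_num
      exact h
    have h7 := Nat.le_of_dvd (by norm_num) (hp.out.dvd_of_dvd_pow h6)
    have h8' := hp.out.two_le
    omega
  have h6 : IsUnit ((8 : ZMod (p ^ 2)) ^ n) := by
    have h7 := h5.pow n
    push_cast at h7
    exact h7
  exact eq_zero_of_unit_mul h6 h4

end MPf96
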